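import Pool.Agent.X13.CB.S4b

/-!
# The 4-ary case, `m ≢ 6 (mod 8)`: exact 2-adic valuations
-/

namespace Pool.Agent.X13.CB

open PowerSeries Finset

noncomputable section

/-- `W = H_{4,1}` -/
def WW : ℤ⟦X⟧ := HH 1

theorem HH_pow (m : ℕ) : HH m = WW ^ m := by
  unfold WW HH
  rw [mul_pow, ← pow_mul, ← pow_mul]
  ring_nf

theorem WW_eq : WW = u ^ 2 * V u * V (V WW) := by
  have h := HH_eq 1
  unfold HB at h
  rw [map_mul, mul_one, pow_one] at h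
  unfold WW
  linear_combination h

/-- `e = ∑ n x^n` -/
def ee : ℤ⟦X⟧ := X * y ^ 2

theorem u_sq : u ^ 2 = 1 + 4 * ee := by
  unfold u ee
  have h := one_sub_mul_y
  linear_combination ((1 - X) * y + 1) * h

/-- `α` -/
def al : ℤ⟦X⟧ := 2 * ee + 4 * ee ^ 2 + V ee + 8 * (ee * V ee + 2 * ee ^ 2 * V ee)

theorem v_sq : (u ^ 2 * V u) ^ 2 = 1 + 4 * al := by
  have h1 := u_sq
  have h2 := congrArg V u_sq
  simp only [map_pow, map_add, map_one, map_mul, map_ofNat] at h2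
  unfold al
  rw [mul_pow, h2, show (u ^ 2) ^ 2 = (u ^ 2) * u ^ 2 by ring, h1]
  ring

theorem coeff_VV (f : ℤ⟦X⟧) (n : ℕ) : coeff n (V (V f)) = if 4 ∣ n then coeff (n / 4) f else 0 := by
  rw [coeff_expand]
  by_cases h : 2 ∣ n
  · obtain ⟨k, rfl⟩ := h
    rw [if_pos (dvd_mul_right 2 k), Nat.mul_div_cancel_left k (by norm_num), coeff_expand]
    by_cases h2 : 2 ∣ k
    · rw [if_pos h2, if_pos (by omega)]
      congr 2
      omega
    · rw [if_neg h2, if_neg (by omega)]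
  · rw [if_neg h, if_neg (by omega)]

theorem ofNat_mul_coeff (k : ℕ) [k.AtLeastTwo] (n : ℕ) (f : ℤ⟦X⟧) :
    coeff n ((OfNat.ofNat k : ℤ⟦X⟧) * f) = (OfNat.ofNat k : ℤ) * coeff n f := by
  have h2 : (OfNat.ofNat k : ℤ⟦X⟧) = C (OfNat.ofNat k : ℤ) := (map_ofNat C k).symm
  rw [h2, coeff_C_mul]

theorem four_dvd (n : ℕ) (hn : 0 < n) : (4 : ℤ) ∣ coeff n (WW ^ 2) := by
  induction n using Nat.strong_induction_on with
  | _ n ih =>
    have e : WW ^ 2 = V (V (WW ^ 2)) + 4 * (al * V (V (WW ^ 2))) := by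
      conv_lhs => rw [WW_eq]
      rw [mul_pow, v_sq]
      simp only [map_pow]
      ring
    rw [e, map_add, ofNat_mul_coeff, coeff_VV]
    refine dvd_add ?_ (dvd_mul_right _ _)
    split_ifs with h
    · exact ih _ (by omega) (by omega)
    · exact dvd_zero _

/-- `A = (W^2-1)/4` -/
def AA : ℤ⟦X⟧ := PowerSeries.mk fun n => if n = 0 then 0 else coeff n (WW ^ 2) / 4

theorem WW_sq : WW ^ 2 = 1 + 4 * AA := by
  ext n
  rw [map_add, ofNat_mul_coeff, AA, coeff_mk, coeff_one]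
  rcases Nat.eq_zero_or_pos n with rfl | hn
  · rw [if_pos rfl, if_pos rfl, coeff_zero_eq_constantCoeff_apply, map_pow, WW, constantCoeff_HH]
    norm_num
  · rw [if_neg (by omega), if_neg (by omega)]
    have := four_dvd n hn
    omega

theorem AA_eq : AA = al + V (V AA) + 4 * (al * V (V AA)) := by
  have h1 : WW ^ 2 = (1 + 4 * al) * V (V (WW ^ 2)) := by
    conv_lhs => rw [WW_eq]
    rw [mul_pow, v_sq]
    simp only [map_pow]
  rw [WW_sq] at h1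
  simp only [map_add, map_one, map_mul, map_ofNat] at h1
  have h2 : (4 : ℤ⟦X⟧) * AA = 4 * (al + V (V AA) + 4 * (al * V (V AA))) := by
    linear_combination h1
  have h4 : (4 : ℤ⟦X⟧) ≠ 0 := by
    intro h
    have := congrArg (coeff 0) h
    have h5 : (4 : ℤ⟦X⟧) = C (4 : ℤ) := (map_ofNat C 4).symm
    rw [h5, coeff_zero_C, map_zero] at this
    norm_num at this
  exact mul_left_cancel₀ h4 h2

/-- Frobenius -/
theorem frob (n : ℕ) : ∀ f : ℤ⟦X⟧, (2 : ℤ) ∣ coeff n (f ^ 2 - V f) := by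
  induction n using Nat.strong_induction_on with
  | _ n ih =>
    intro f
    obtain ⟨a, g, rfl⟩ : ∃ (a : ℤ) (g : ℤ⟦X⟧), f = C a + X * g :=
      ⟨constantCoeff f, PowerSeries.mk fun p => coeff (p + 1) f, by
        conv_lhs => rw [PowerSeries.eq_X_mul_shift_add_const f]
        rw [add_comm]⟩
    have e : (C a + X * g) ^ 2 - V (C a + X * g)
        = C (a ^ 2 - a) + 2 * (C a * (X * g)) + X ^ 2 * (g ^ 2 - V g) := by
      have hC : V (C a) = C a := expand_C 2 two_ne_zero a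
      rw [map_add, map_mul, expand_X, hC, map_sub, map_pow]
      ring
    rw [e, map_add, map_add, ofNat_mul_coeff]
    refine dvd_add (dvd_add ?_ (dvd_mul_right _ _)) ?_
    · rw [coeff_C]
      split_ifs
      · have : a ^ 2 - a = (a - 1) * a := by ring
        rw [this]
        exact (Int.even_mul_pred_self a).two_dvd.trans (by rw [mul_comm])
      · exact dvd_zero _
    · rw [coeff_X_pow_mul']
      split_ifs with h
      · exact ih _ (by omega) g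
      · exact dvd_zero _

theorem coeff_ee (n : ℕ) : coeff n ee = n := coeff_y_sq n

/-- `(α V²A)_n` is even for `n ≢ 2 mod 4` -/
theorem even_term (n : ℕ) (hn : n % 4 ≠ 2) : (2 : ℤ) ∣ coeff n (al * V (V AA)) := by
  have e : al * V (V AA) = V (ee * V AA)
      + 2 * ((ee + 2 * ee ^ 2 + 4 * (ee * V ee + 2 * ee ^ 2 * V ee)) * V (V AA)) := by
    unfold al
    rw [map_mul]; ring
  rw [e, map_add, ofNat_mul_coeff]
  refine dvd_add ?_ (dvd_mul_right _ _)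
  rw [coeff_expand]
  split_ifs with h
  · rw [coeff_mul]
    refine Finset.dvd_sum fun p hp => ?_
    have hp2 := HasAntidiagonal.mem_antidiagonal.mp hp
    rw [coeff_ee, coeff_expand]
    split_ifs with h2
    · refine Dvd.dvd.mul_right ?_ _
      have : 2 ∣ p.1 := by omega
      exact_mod_cast this
    · rw [mul_zero]; exact dvd_zero _
  · exact dvd_zero _

theorem coeff_al (n : ℕ) : ∃ c : ℤ, coeff n al = 2 * n + 4 * coeff n (ee ^ 2)
    + (if 2 ∣ n then ((n / 2 : ℕ) : ℤ) else 0) + 8 * c := by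
  refine ⟨coeff n (ee * V ee + 2 * ee ^ 2 * V ee), ?_⟩
  unfold al
  rw [map_add, map_add, map_add, ofNat_mul_coeff, ofNat_mul_coeff, ofNat_mul_coeff, coeff_ee]
  congr 2
  rw [coeff_expand]
  split_ifs
  · rw [coeff_ee]
  · rfl

theorem AA_odd (k : ℕ) : ∃ c : ℤ, coeff (2 * k + 1) AA = 2 * (2 * k + 1) + 8 * c := by
  have h := congrArg (coeff (2 * k + 1)) AA_eq
  rw [map_add, map_add, ofNat_mul_coeff, coeff_VV, if_neg (by omega)] at h
  obtain ⟨a, ha⟩ := even_term (2 * k + 1) (by omega)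
  obtain ⟨b, hb⟩ := coeff_al (2 * k + 1)
  obtain ⟨c, hc⟩ := frob (2 * k + 1) ee
  rw [map_sub, coeff_expand, if_neg (by omega)] at hc
  rw [if_neg (by omega)] at hb
  refine ⟨c + b + a, ?_⟩
  rw [h, ha, hb]
  push_cast
  linarith

theorem AA_four (k : ℕ) : ∃ c : ℤ, coeff (4 * k) AA = 2 * k + coeff k AA + 8 * c := by
  have h := congrArg (coeff (4 * k)) AA_eq
  rw [map_add, map_add, ofNat_mul_coeff, coeff_VV, if_pos (dvd_mul_right 4 k),
    Nat.mul_div_cancel_left k (by norm_num)] at h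
  obtain ⟨a, ha⟩ := even_term (4 * k) (by omega)
  obtain ⟨b, hb⟩ := coeff_al (4 * k)
  obtain ⟨c, hc⟩ := frob (4 * k) ee
  rw [map_sub, coeff_expand, if_pos (by omega), coeff_ee] at hc
  rw [if_pos (by omega)] at hb
  have h2 : 4 * k / 2 = 2 * k := by omega
  rw [h2] at hb hc
  refine ⟨k + c + k + b + a, ?_⟩
  rw [h, ha, hb]
  push_cast at hc ⊢
  linarith

theorem AA_two (k : ℕ) : ∃ c : ℤ, coeff (4 * k + 2) AA = 1 + 2 * c := by
  have h := congrArg (coeff (4 * k + 2)) AA_eq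
  rw [map_add, map_add, ofNat_mul_coeff, coeff_VV, if_neg (by omega)] at h
  obtain ⟨b, hb⟩ := coeff_al (4 * k + 2)
  rw [if_pos (by omega)] at hb
  have h2 : (4 * k + 2) / 2 = 2 * k + 1 := by omega
  rw [h2] at hb
  refine ⟨(4 * k + 2) + 2 * coeff (4 * k + 2) (ee ^ 2) + k + 4 * b
    + 2 * coeff (4 * k + 2) (al * V (V AA)), ?_⟩
  rw [h, hb]
  push_cast
  ring

/-- the coefficients of `A` at `2^b q`, `q` odd -/
theorem AA_spec (q : ℕ) (hq : q % 2 = 1) (b : ℕ) :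
    (b % 2 = 1 → coeff (2 ^ b * q) AA % 2 = 1) ∧ (b = 0 → coeff (2 ^ b * q) AA % 4 = 2) ∧
    (b % 2 = 0 → 0 < b → coeff (2 ^ b * q) AA % 8 = 4) := by
  induction b using Nat.strong_induction_on with
  | _ b ih =>
    rcases (by omega : b = 0 ∨ b = 1 ∨ b = 2 ∨ 3 ≤ b) with rfl | rfl | rfl | hb
    · obtain ⟨k, rfl⟩ : ∃ k, q = 2 * k + 1 := ⟨q / 2, by omega⟩
      obtain ⟨c, hc⟩ := AA_odd k
      rw [pow_zero, one_mul, hc]
      omega
    · obtain ⟨k, rfl⟩ : ∃ k, q = 2 * k + 1 := ⟨q / 2, by omega⟩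
      obtain ⟨c, hc⟩ := AA_two k
      rw [show 2 ^ 1 * (2 * k + 1) = 4 * k + 2 by ring, hc]
      omega
    · obtain ⟨k, rfl⟩ : ∃ k, q = 2 * k + 1 := ⟨q / 2, by omega⟩
      obtain ⟨c, hc⟩ := AA_odd k
      obtain ⟨d, hd⟩ := AA_four (2 * k + 1)
      rw [show 2 ^ 2 * (2 * k + 1) = 4 * (2 * k + 1) by ring, hd, hc]
      refine ⟨fun h => by omega, fun h => by omega, fun _ _ => ?_⟩
      omega
    · obtain ⟨b', rfl⟩ : ∃ b', b = b' + 2 := ⟨b - 2, by omega⟩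
      obtain ⟨h1, -, h3⟩ := ih b' (by omega)
      obtain ⟨d, hd⟩ := AA_four (2 ^ b' * q)
      rw [show 2 ^ (b' + 2) * q = 4 * (2 ^ b' * q) by rw [pow_add]; ring, hd]
      obtain ⟨w, hw⟩ : ∃ w, 2 ^ b' * q = 2 * w ∧ (b' % 2 = 0 → ∃ w', w = 2 * w') := by
        obtain ⟨b'', rfl⟩ : ∃ b'', b' = b'' + 1 := ⟨b' - 1, by omega⟩
        refine ⟨2 ^ b'' * q, by rw [pow_succ]; ring, fun h => ?_⟩
        obtain ⟨b3, rfl⟩ : ∃ b3, b'' = b3 + 1 := ⟨b'' - 1, by omega⟩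
        exact ⟨2 ^ b3 * q, by rw [pow_succ]; ring⟩
      refine ⟨fun h => ?_, fun h => by omega, fun h _ => ?_⟩
      · have := h1 (by omega)
        omega
      · have h4 := h3 (by omega) (by omega)
        obtain ⟨w', hw'⟩ := hw.2 (by omega)
        have h5 : ((2 ^ b' * q : ℕ) : ℤ) = 4 * w' := by rw [hw.1, hw']; push_cast; ring
        rw [h5]
        omega

/-- `A² mod 2` -/
theorem AA_sq (n : ℕ) : ∃ c : ℤ, coeff n (AA ^ 2)
    = (if 2 ∣ n then coeff (n / 2) AA else 0) + 2 * c := by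
  obtain ⟨c, hc⟩ := frob n AA
  rw [map_sub, coeff_expand] at hc
  exact ⟨c, by linarith⟩

/-- binomial expansion modulo a power of two -/
theorem binom_exp (A : ℤ⟦X⟧) (q a : ℕ) : ∃ R : ℤ⟦X⟧, (1 + 4 * A) ^ (2 ^ a * q)
    = 1 + 4 * ((2 ^ a * q : ℤ) : ℤ⟦X⟧) * A
      + 8 * (((2 ^ a * q) * (2 ^ a * q - 1) : ℤ) : ℤ⟦X⟧) * A ^ 2 + 2 ^ (a + 6) * R := by
  induction a with
  | zero =>
    induction q with
    | zero => exact ⟨0, by simp⟩
    | succ q ih =>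
      obtain ⟨R, hR⟩ := ih
      obtain ⟨z, hz⟩ : ∃ z : ℤ, (q : ℤ) * (q - 1) = 2 * z := by
        obtain ⟨z, hz⟩ := (Int.even_mul_pred_self (q : ℤ)).two_dvd
        exact ⟨z, hz⟩
      refine ⟨R * (1 + 4 * A) + (z : ℤ⟦X⟧) * A ^ 3, ?_⟩
      have hz' : ((q : ℤ⟦X⟧)) * (q - 1) = 2 * (z : ℤ⟦X⟧) := by exact_mod_cast congrArg (Int.cast (R := ℤ⟦X⟧)) hz
      rw [pow_zero, one_mul] at hR ⊢
      rw [pow_succ, hR]
      push_cast
      linear_combination (32 * A ^ 3) * hz'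
  | succ a ih =>
    obtain ⟨R, hR⟩ := ih
    set M : ℤ := 2 ^ a * q with hM
    obtain ⟨z, hz⟩ : ∃ z : ℤ, M * (M - 1) = 2 * z := by
      obtain ⟨z, hz⟩ := (Int.even_mul_pred_self M).two_dvd
      exact ⟨z, hz⟩
    obtain ⟨z2, hz2⟩ : ∃ z2 : ℤ, M ^ 2 * (M - 1) = 2 ^ (a + 1) * z2 := by
      refine ⟨q * z, ?_⟩
      rw [show M ^ 2 * (M - 1) = M * (M * (M - 1)) by ring, hz, hM]
      ring
    have hM' : (M : ℤ⟦X⟧) ^ 2 * ((M : ℤ⟦X⟧) - 1) = 2 ^ (a + 1) * (z2 : ℤ⟦X⟧) := by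
      have := congrArg (Int.cast (R := ℤ⟦X⟧)) hz2
      push_cast at this
      exact this
    have e1 : (2 : ℕ) ^ (a + 1) * q = (2 ^ a * q) * 2 := by ring
    have e2 : (2 : ℤ) ^ (a + 1) * q = 2 * M := by rw [hM]; ring
    refine ⟨R * (1 + 4 * (M : ℤ⟦X⟧) * A + 8 * ((M : ℤ⟦X⟧) * ((M : ℤ⟦X⟧) - 1)) * A ^ 2)
      + 2 ^ (a + 5) * R ^ 2 + (z2 : ℤ⟦X⟧) * A ^ 3 + (z2 : ℤ⟦X⟧) * ((M : ℤ⟦X⟧) - 1) * A ^ 4, ?_⟩
    rw [e1, pow_mul, hR, e2]
    push_cast
    simp only [pow_succ (2 : ℤ⟦X⟧)] at hM' ⊢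
    linear_combination (64 * A ^ 3 + 64 * A ^ 4 * ((M : ℤ⟦X⟧) - 1)) * hM'

end

end Pool.Agent.X13.CB
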