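import Pool.Agent.X13.CB.Auto4

/-!
# The 4-ary case, `m ≢ 6 (mod 8)`: exact 2-adic valuations, continued
-/

namespace Pool.Agent.X13.CB

open PowerSeries Finset

noncomputable section

theorem two_pow_mul_coeff (k n : ℕ) (f : ℤ⟦X⟧) : coeff n (2 ^ k * f) = 2 ^ k * coeff n f := by
  have h2 : (2 : ℤ⟦X⟧) ^ k = C ((2 : ℤ) ^ k) := by rw [map_pow, map_ofNat]
  rw [h2, coeff_C_mul]

theorem int_mul_coeff (k : ℤ) (n : ℕ) (f : ℤ⟦X⟧) : coeff n ((k : ℤ⟦X⟧) * f) = k * coeff n f := by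
  have h2 : (k : ℤ⟦X⟧) = C k := by simp
  rw [h2, coeff_C_mul]

/-- multiples of the expansion -/
theorem coeff_exp (F A : ℤ⟦X⟧) (q a n : ℕ) : ∃ c : ℤ, coeff n (F * (1 + 4 * A) ^ (2 ^ a * q))
    = coeff n F + 2 ^ (a + 2) * (q * coeff n (F * A)
      + 2 * (q * (2 ^ a * q - 1)) * coeff n (F * A ^ 2) + 16 * c) := by
  obtain ⟨R, hR⟩ := binom_exp A q a
  refine ⟨coeff n (F * R), ?_⟩
  have e : F * (1 + 4 * A) ^ (2 ^ a * q) = F + 2 ^ (a + 2) * (((q : ℤ) : ℤ⟦X⟧) * (F * A)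
      + 2 * (((q * (2 ^ a * q - 1) : ℤ) : ℤ⟦X⟧) * (F * A ^ 2)) + 16 * (F * R)) := by
    rw [hR]
    push_cast
    ring
  rw [e, map_add, two_pow_mul_coeff, map_add, map_add, ofNat_mul_coeff, ofNat_mul_coeff,
    int_mul_coeff, int_mul_coeff]
  ring

theorem Ev_mk {e : ℕ} {s c : ℤ} (h : s = 2 ^ e * (1 + 2 * c)) : Ev e s :=
  ⟨1 + 2 * c, ⟨c, by ring⟩, h⟩

/-! ### even exponents -/

theorem val_even (a p b q : ℕ) (hp : p % 2 = 1) (hq : q % 2 = 1) :
    (b % 2 = 1 → Ev (a + 2) (coeff (2 ^ b * q) (WW ^ (2 * (2 ^ a * p))))) ∧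
    (b = 0 → Ev (a + 3) (coeff (2 ^ b * q) (WW ^ (2 * (2 ^ a * p))))) ∧
    (b % 2 = 0 → 0 < b → 0 < a → Ev (a + 3) (coeff (2 ^ b * q) (WW ^ (2 * (2 ^ a * p))))) ∧
    (b % 2 = 0 → 0 < b → a = 0 → p % 4 = 1 →
      Ev 4 (coeff (2 ^ b * q) (WW ^ (2 * (2 ^ a * p))))) := by
  set n := 2 ^ b * q with hn
  have hn0 : n ≠ 0 := by
    have : 0 < 2 ^ b * q := Nat.mul_pos (by positivity) (by omega)
    omega
  obtain ⟨c, hc⟩ := coeff_exp 1 AA p a n
  rw [one_mul, one_mul, one_mul, coeff_one, if_neg hn0, zero_add] at hc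
  rw [pow_mul WW 2, WW_sq, hc]
  obtain ⟨s1, s2, s3⟩ := AA_spec q hq b
  rw [← hn] at s1 s2 s3
  obtain ⟨d, hd⟩ := AA_sq n
  obtain ⟨r, hr⟩ : ∃ r : ℤ, (p : ℤ) = 2 * r + 1 := ⟨(p : ℤ) / 2, by omega⟩
  refine ⟨fun h => ?_, fun h => ?_, fun h hb ha => ?_, fun h hb ha hp4 => ?_⟩
  · obtain ⟨x, hx⟩ : ∃ x : ℤ, coeff n AA = 1 + 2 * x := ⟨coeff n AA / 2, by have := s1 h; omega⟩
    refine Ev_mk (c := r + p * x + (p * (2 ^ a * p - 1)) * coeff n (AA ^ 2) + 8 * c) ?_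
    rw [hx, hr]; ring
  · obtain ⟨x, hx⟩ : ∃ x : ℤ, coeff n AA = 2 + 4 * x := ⟨coeff n AA / 4, by have := s2 h; omega⟩
    have h2 : ¬ 2 ∣ n := by rw [hn, h, pow_zero, one_mul]; omega
    rw [if_neg h2, zero_add] at hd
    refine Ev_mk (c := r + p * x + (p * (2 ^ a * p - 1)) * d + 4 * c) ?_
    rw [hx, hd, hr]; ring
  · obtain ⟨x, hx⟩ : ∃ x : ℤ, coeff n AA = 4 + 8 * x :=
      ⟨coeff n AA / 8, by have := s3 h hb; omega⟩
    obtain ⟨b', rfl⟩ : ∃ b', b = b' + 1 := ⟨b - 1, by omega⟩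
    obtain ⟨a', rfl⟩ : ∃ a', a = a' + 1 := ⟨a - 1, by omega⟩
    have h2 : n = 2 * (2 ^ b' * q) := by rw [hn]; ring
    have h3 : n / 2 = 2 ^ b' * q := by omega
    rw [if_pos ⟨_, h2⟩, h3] at hd
    obtain ⟨t1, -, -⟩ := AA_spec q hq b'
    have := t1 (by omega)
    obtain ⟨z, hz⟩ : ∃ z : ℤ, coeff n (AA ^ 2) = 1 + 2 * z :=
      ⟨coeff n (AA ^ 2) / 2, by omega⟩
    refine Ev_mk (c := 2 * p * x + p + p * 2 ^ a' * p * (1 + 2 * z) - p * z
      - r - 1 + 4 * c) ?_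
    rw [hx, hz, pow_succ (2 : ℤ) a', hr]; ring
  · obtain ⟨x, hx⟩ : ∃ x : ℤ, coeff n AA = 4 + 8 * x :=
      ⟨coeff n AA / 8, by have := s3 h hb; omega⟩
    obtain ⟨w, hw⟩ : ∃ w : ℤ, (p : ℤ) = 1 + 4 * w := ⟨(p : ℤ) / 4, by omega⟩
    subst ha
    refine Ev_mk (c := 2 * w + p * x + p * w * coeff n (AA ^ 2) + 2 * c) ?_
    rw [hx, hw]; ring

/-! ### `E = (∏ (1-x^(4^i)))^3` -/

/-- `E` -/
def EE : ℤ⟦X⟧ := PowerSeries.invOfUnit (QQ ^ 3) 1

theorem EE_mul : QQ ^ 3 * EE = 1 := by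
  apply PowerSeries.mul_invOfUnit
  rw [map_pow, constantCoeff_QQ]; simp

theorem EE_eq : EE = (1 - X) ^ 3 * V (V EE) := by
  have h1 := EE_mul
  have h2 := congrArg V (congrArg V EE_mul)
  simp only [map_mul, map_pow, map_one] at h2
  have h3 : QQ ^ 3 * ((1 - X) ^ 3 * V (V EE)) = 1 := by
    conv_lhs => rw [QQ_eq]
    have h4 := one_sub_mul_y
    calc (y * V (V QQ)) ^ 3 * ((1 - X) ^ 3 * V (V EE))
        = ((1 - X) * y) ^ 3 * (V (V QQ) ^ 3 * V (V EE)) := by ring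
      _ = 1 := by rw [h4, h2]; ring
  linear_combination (-EE) * h3 + (1 - X) ^ 3 * V (V EE) * h1

/-- coefficients of `E` -/
def en (n : ℕ) : ℤ := coeff n EE

theorem en_zero : en 0 = 1 := by
  have h := congrArg constantCoeff EE_mul
  rw [map_mul, map_pow, constantCoeff_QQ, one_pow, one_mul, map_one] at h
  unfold en
  rw [coeff_zero_eq_constantCoeff_apply]
  exact h

theorem coeff_EE (n : ℕ) : en n = coeff n (V (V EE)) - 3 * (if 1 ≤ n then coeff (n - 1) (V (V EE))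
    else 0) + 3 * (if 2 ≤ n then coeff (n - 2) (V (V EE)) else 0)
    - (if 3 ≤ n then coeff (n - 3) (V (V EE)) else 0) := by
  unfold en
  conv_lhs => rw [EE_eq]
  have e : (1 - X) ^ 3 * V (V EE) = V (V EE) - 3 * (X ^ 1 * V (V EE)) + 3 * (X ^ 2 * V (V EE))
      - X ^ 3 * V (V EE) := by ring
  rw [e, map_sub, map_add, map_sub, ofNat_mul_coeff, ofNat_mul_coeff, coeff_X_pow_mul',
    coeff_X_pow_mul', coeff_X_pow_mul']

theorem en_0 (k : ℕ) : en (4 * k) = en k := by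
  rw [coeff_EE, coeff_VV, coeff_VV, coeff_VV, coeff_VV, if_pos (dvd_mul_right 4 k),
    Nat.mul_div_cancel_left k (by norm_num)]
  rcases Nat.eq_zero_or_pos k with rfl | hk
  · simp [en]
  · rw [if_pos (by omega), if_neg (by omega), if_pos (by omega), if_neg (by omega),
      if_pos (by omega), if_neg (by omega)]
    unfold en; ring

theorem en_1 (k : ℕ) : en (4 * k + 1) = -3 * en k := by
  rw [coeff_EE, coeff_VV, coeff_VV, coeff_VV, coeff_VV, if_neg (by omega), if_pos (by omega),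
    if_pos (by omega), show (4 * k + 1 - 1) / 4 = k by omega]
  rcases Nat.eq_zero_or_pos k with rfl | hk
  · simp [en]
  · rw [if_pos (by omega), if_neg (by omega), if_pos (by omega), if_neg (by omega)]
    unfold en; ring

theorem en_2 (k : ℕ) : en (4 * k + 2) = 3 * en k := by
  rw [coeff_EE, coeff_VV, coeff_VV, coeff_VV, coeff_VV, if_neg (by omega), if_pos (by omega),
    if_neg (by omega), if_pos (by omega), if_pos (by omega), show (4 * k + 2 - 2) / 4 = k by omega]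
  rcases Nat.eq_zero_or_pos k with rfl | hk
  · simp [en]
  · rw [if_pos (by omega), if_neg (by omega)]
    unfold en; ring

theorem en_3 (k : ℕ) : en (4 * k + 3) = - en k := by
  rw [coeff_EE, coeff_VV, coeff_VV, coeff_VV, coeff_VV, if_neg (by omega), if_pos (by omega),
    if_neg (by omega), if_pos (by omega), if_neg (by omega), if_pos (by omega),
    if_pos (by omega), show (4 * k + 3 - 3) / 4 = k by omega]
  unfold en; ring

theorem en_odd (n : ℕ) : Odd (en n) := by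
  induction n using Nat.strong_induction_on with
  | _ n ih =>
    rcases Nat.eq_zero_or_pos n with rfl | hn
    · rw [en_zero]; exact odd_one
    · obtain ⟨k, hk⟩ : ∃ k, n = 4 * k ∨ n = 4 * k + 1 ∨ n = 4 * k + 2 ∨ n = 4 * k + 3 :=
        ⟨n / 4, by omega⟩
      have h := ih k (by omega)
      rcases hk with rfl | rfl | rfl | rfl
      · rw [en_0]; exact h
      · rw [en_1]; exact (by decide : Odd (-3 : ℤ)).mul h
      · rw [en_2]; exact (by decide : Odd (3 : ℤ)).mul h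
      · rw [en_3]; exact h.neg

theorem Ev_const (e : ℕ) {z : ℤ} (hz : Odd z) {x : ℤ} (k : ℤ) (hk : Odd k)
    (hx : x = 2 ^ e * k * z) : Ev e x :=
  ⟨k * z, hk.mul hz, by rw [hx]; ring⟩

/-- the differences and sums of consecutive coefficients -/
theorem en_spec (q : ℕ) (hq : q % 2 = 1) (b : ℕ) :
    ((b % 4 = 0 → Ev 2 (en (2 ^ b * q) - en (2 ^ b * q - 1))) ∧
    (b % 4 = 1 → Ev 1 (en (2 ^ b * q) - en (2 ^ b * q - 1))) ∧
    (b % 4 = 2 → Ev 1 (en (2 ^ b * q) - en (2 ^ b * q - 1))) ∧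
    (b % 4 = 3 → en (2 ^ b * q) - en (2 ^ b * q - 1) = 0)) ∧
    ((b % 4 = 0 → Ev 1 (en (2 ^ b * q) + en (2 ^ b * q - 1))) ∧
    (b % 4 = 1 → en (2 ^ b * q) + en (2 ^ b * q - 1) = 0) ∧
    (b % 4 = 2 → Ev 2 (en (2 ^ b * q) + en (2 ^ b * q - 1))) ∧
    (b % 4 = 3 → Ev 1 (en (2 ^ b * q) + en (2 ^ b * q - 1)))) := by
  induction b using Nat.strong_induction_on with
  | _ b ih =>
    rcases (by omega : b = 0 ∨ b = 1 ∨ 2 ≤ b) with rfl | rfl | hb
    · obtain ⟨k, hk⟩ : ∃ k, q = 4 * k + 1 ∨ q = 4 * k + 3 := ⟨q / 4, by omega⟩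
      have ho := en_odd k
      rcases hk with rfl | rfl
      · rw [pow_zero, one_mul, Nat.add_sub_cancel, en_1, en_0]
        refine ⟨⟨fun _ => ?_, fun h => by omega, fun h => by omega, fun h => by omega⟩,
          ⟨fun _ => ?_, fun h => by omega, fun h => by omega, fun h => by omega⟩⟩
        · exact Ev_const 2 ho (-1) (by decide) (by ring)
        · exact Ev_const 1 ho (-1) (by decide) (by ring)
      · rw [pow_zero, one_mul, show 4 * k + 3 - 1 = 4 * k + 2 by omega, en_3, en_2]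
        refine ⟨⟨fun _ => ?_, fun h => by omega, fun h => by omega, fun h => by omega⟩,
          ⟨fun _ => ?_, fun h => by omega, fun h => by omega, fun h => by omega⟩⟩
        · exact Ev_const 2 ho (-1) (by decide) (by ring)
        · exact Ev_const 1 ho 1 (by decide) (by ring)
    · obtain ⟨k, rfl⟩ : ∃ k, q = 2 * k + 1 := ⟨q / 2, by omega⟩
      have ho := en_odd k
      rw [show 2 ^ 1 * (2 * k + 1) = 4 * k + 2 by ring, show 4 * k + 2 - 1 = 4 * k + 1 by omega,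
        en_2, en_1]
      refine ⟨⟨fun h => by omega, fun _ => ?_, fun h => by omega, fun h => by omega⟩,
          ⟨fun h => by omega, fun _ => by ring, fun h => by omega, fun h => by omega⟩⟩
      exact Ev_const 1 ho 3 (by decide) (by ring)
    · obtain ⟨b', rfl⟩ : ∃ b', b = b' + 2 := ⟨b - 2, by omega⟩
      have hpos : 0 < 2 ^ b' * q := Nat.mul_pos (by positivity) (by omega)
      obtain ⟨j, hj⟩ : ∃ j, 2 ^ b' * q = j + 1 := ⟨2 ^ b' * q - 1, by omega⟩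
      have e1 : 2 ^ (b' + 2) * q = 4 * (2 ^ b' * q) := by rw [pow_add]; ring
      have e2 : 4 * (2 ^ b' * q) - 1 = 4 * j + 3 := by omega
      have e3 : 2 ^ b' * q - 1 = j := by omega
      obtain ⟨⟨h0, h1, h2, h3⟩, ⟨g0, g1, g2, g3⟩⟩ := ih b' (by omega)
      rw [e3] at h0 h1 h2 h3 g0 g1 g2 g3
      rw [e1, e2, en_0, en_3, sub_neg_eq_add, ← sub_eq_add_neg]
      exact ⟨⟨fun h => g2 (by omega), fun h => g3 (by omega), fun h => g0 (by omega),
        fun h => g1 (by omega)⟩, ⟨fun h => h2 (by omega), fun h => h3 (by omega),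
        fun h => h0 (by omega), fun h => h1 (by omega)⟩⟩

/-- `W^{-1}` -/
def WI : ℤ⟦X⟧ := (1 - X) * EE

theorem WI_mul : WI * WW = 1 := by
  have h1 := EE_mul
  have h2 := one_sub_mul_y
  unfold WI WW HH
  rw [pow_one, mul_one]
  linear_combination ((1 - X) * y) * h1 + h2

theorem coeff_WI (n : ℕ) (hn : 0 < n) : coeff n WI = en n - en (n - 1) := by
  unfold WI en
  rw [sub_mul, one_mul, map_sub]
  congr 1
  obtain ⟨k, rfl⟩ : ∃ k, n = k + 1 := ⟨n - 1, by omega⟩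
  rw [coeff_succ_X_mul, Nat.add_sub_cancel]

theorem WI_odd : ∃ G : ℤ⟦X⟧, WI = 1 + 2 * G := by
  refine ⟨PowerSeries.mk fun n => if n = 0 then 0 else (en n - en (n - 1)) / 2, ?_⟩
  ext n
  rw [map_add, ofNat_mul_coeff, coeff_mk, coeff_one]
  rcases Nat.eq_zero_or_pos n with rfl | hn
  · rw [if_pos rfl, if_pos rfl]
    unfold WI
    have := en_zero
    unfold en at this
    rw [coeff_zero_eq_constantCoeff_apply] at this ⊢
    rw [map_mul, this]; simp
  · rw [if_neg (by omega), if_neg (by omega), coeff_WI n hn]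
    have h := (en_odd n).sub_odd (en_odd (n - 1))
    obtain ⟨r, hr⟩ := h
    omega

/-- odd exponents: `m + 1 = 2^(a+1) p` -/
theorem val_odd (a p b q m : ℕ) (hp : p % 2 = 1) (hq : q % 2 = 1) (hm : m + 1 = 2 ^ (a + 1) * p) :
    (b % 4 = 0 → Ev 2 (coeff (2 ^ b * q) (WW ^ m))) ∧
    (b % 4 = 1 → Ev 1 (coeff (2 ^ b * q) (WW ^ m))) ∧
    (b % 4 = 2 → Ev 1 (coeff (2 ^ b * q) (WW ^ m))) ∧
    (b % 4 = 3 → Ev (a + 2) (coeff (2 ^ b * q) (WW ^ m))) := by
  set n := 2 ^ b * q with hn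
  have hn0 : 0 < n := Nat.mul_pos (by positivity) (by omega)
  have e : WW ^ m = WI * (1 + 4 * AA) ^ (2 ^ a * p) := by
    have h1 : WW ^ (m + 1) = (1 + 4 * AA) ^ (2 ^ a * p) := by
      rw [← WW_sq, ← pow_mul, hm]
      congr 1; ring
    rw [← h1, pow_succ', ← mul_assoc, WI_mul, one_mul]
  obtain ⟨c, hc⟩ := coeff_exp WI AA p a n
  rw [e, hc, coeff_WI n hn0]
  obtain ⟨G, hG⟩ := WI_odd
  have h2 : coeff n (WI * AA) = coeff n AA + 2 * coeff n (G * AA) := by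
    rw [hG, add_mul, one_mul, mul_assoc, map_add, ofNat_mul_coeff]
  rw [h2]
  obtain ⟨s1, s2, s3⟩ := AA_spec q hq b
  rw [← hn] at s1 s2 s3
  obtain ⟨⟨t0, t1, t2, t3⟩, -⟩ := en_spec q hq b
  rw [← hn] at t0 t1 t2 t3
  obtain ⟨r, hr⟩ : ∃ r : ℤ, (p : ℤ) = 2 * r + 1 := ⟨(p : ℤ) / 2, by omega⟩
  set K := coeff n (WI * AA ^ 2) with hK
  set J := coeff n (G * AA) with hJ
  refine ⟨fun h => ?_, fun h => ?_, fun h => ?_, fun h => ?_⟩
  · obtain ⟨o, ⟨o', ho⟩, hs⟩ := t0 h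
    obtain ⟨x, hx⟩ : ∃ x : ℤ, coeff n AA = 2 * x := by
      rcases Nat.eq_zero_or_pos b with hb | hb
      · exact ⟨coeff n AA / 2, by have := s2 hb; omega⟩
      · exact ⟨coeff n AA / 2, by have := s3 (by omega) hb; omega⟩
    refine Ev_mk (c := o' + 2 ^ a * (p * (x + J) + (p * (2 ^ a * p - 1)) * K + 8 * c)) ?_
    rw [hs, hx, ho, pow_add]; ring
  · obtain ⟨o, ⟨o', ho⟩, hs⟩ := t1 h
    refine Ev_mk (c := o' + 2 ^ a * (p * (coeff n AA + 2 * J) + 2 * (p * (2 ^ a * p - 1)) * K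
      + 16 * c)) ?_
    rw [hs, ho, pow_add]; ring
  · obtain ⟨o, ⟨o', ho⟩, hs⟩ := t2 h
    refine Ev_mk (c := o' + 2 ^ a * (p * (coeff n AA + 2 * J) + 2 * (p * (2 ^ a * p - 1)) * K
      + 16 * c)) ?_
    rw [hs, ho, pow_add]; ring
  · rw [t3 h, zero_add]
    obtain ⟨x, hx⟩ : ∃ x : ℤ, coeff n AA = 1 + 2 * x :=
      ⟨coeff n AA / 2, by have := s1 (by omega); omega⟩
    refine Ev_mk (c := r + p * (x + J) + (p * (2 ^ a * p - 1)) * K + 8 * c) ?_
    rw [hx, hr]; ring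

/-! ### automaticity -/

theorem automatic (e g : ℕ → ℕ) (hg : ∀ b, 1 ≤ b → g (b + 4) = g b)
    (he : ∀ b q, q % 2 = 1 → e (2 ^ b * q) = g b) :
    Set.Finite {s : ℕ → ℕ | ∃ i j : ℕ, j < 4 ^ i ∧ s = fun n => e (4 ^ i * n + j)} := by
  have hper : ∀ k b, 1 ≤ b → g (b + 4 * k) = g b := by
    intro k
    induction k with
    | zero => intro b _; rfl
    | succ k ih =>
      intro b hb
      rw [show b + 4 * (k + 1) = b + 4 * k + 4 by ring, hg _ (by omega), ih b hb]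
  have hsmall : ∀ b, ∃ c, c < 5 ∧ g b = g c := by
    intro b
    rcases Nat.eq_zero_or_pos b with rfl | hb
    · exact ⟨0, by norm_num, rfl⟩
    · refine ⟨(b - 1) % 4 + 1, by omega, ?_⟩
      have := hper ((b - 1) / 4) ((b - 1) % 4 + 1) (by omega)
      rw [← this]
      congr 1; omega
  have hdec : ∀ n : ℕ, 0 < n → ∃ b q, q % 2 = 1 ∧ n = 2 ^ b * q := by
    intro n hn
    obtain ⟨b, q, hq, h⟩ := Nat.exists_eq_two_pow_mul_odd (n := n) (by omega)
    exact ⟨b, q, Nat.odd_iff.mp hq, h⟩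
  -- the two kinds of elements
  have hfin : Set.Finite (((fun c : ℕ => (fun _ : ℕ => g c)) '' (Set.Iio 5))
      ∪ ((fun i : ℕ => (fun n : ℕ => e (4 ^ i * n))) '' (Set.Iio 3))) :=
    ((Set.finite_Iio 5).image _).union ((Set.finite_Iio 3).image _)
  refine hfin.subset ?_
  rintro s ⟨i, j, hj, rfl⟩
  rcases Nat.eq_zero_or_pos j with rfl | hj0
  · right
    -- reduce `i`
    have key : ∀ i, 1 ≤ i → (fun n => e (4 ^ (i + 2) * n)) = fun n => e (4 ^ i * n) := by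
      intro i hi
      funext n
      rcases Nat.eq_zero_or_pos n with rfl | hn
      · simp
      · obtain ⟨b, q, hq, rfl⟩ := hdec n hn
        have e1 : 4 ^ (i + 2) * (2 ^ b * q) = 2 ^ (2 * i + b + 4) * q := by
          rw [show (4 : ℕ) = 2 ^ 2 by norm_num, ← pow_mul, ← mul_assoc, ← pow_add]
          congr 2; ring
        have e2 : 4 ^ i * (2 ^ b * q) = 2 ^ (2 * i + b) * q := by
          rw [show (4 : ℕ) = 2 ^ 2 by norm_num, ← pow_mul, ← mul_assoc, ← pow_add]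
        rw [e1, e2, he _ _ hq, he _ _ hq, hg _ (by omega)]
    have key2 : ∀ i, ∃ i' < 3, (fun n => e (4 ^ i * n)) = fun n => e (4 ^ i' * n) := by
      intro i
      induction i using Nat.strong_induction_on with
      | _ i ih =>
        by_cases hi : i < 3
        · exact ⟨i, hi, rfl⟩
        · obtain ⟨i', hi', h⟩ := ih (i - 2) (by omega)
          refine ⟨i', hi', ?_⟩
          rw [← h, ← key (i - 2) (by omega), show i - 2 + 2 = i by omega]
    obtain ⟨i', hi', h⟩ := key2 i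
    refine ⟨i', hi', ?_⟩
    simp only [add_zero]
    exact h.symm
  · left
    obtain ⟨b, q, hq, rfl⟩ := hdec j hj0
    obtain ⟨c, hc, hgc⟩ := hsmall b
    refine ⟨c, hc, ?_⟩
    funext n
    have hb : b < 2 * i := by
      by_contra hcon
      have h1 : 2 ^ (2 * i) ≤ 2 ^ b := Nat.pow_le_pow_right (by norm_num) (by omega)
      have h2 : 2 ^ b * 1 ≤ 2 ^ b * q := Nat.mul_le_mul_left _ (by omega)
      have h3 : (4 : ℕ) ^ i = 2 ^ (2 * i) := by rw [pow_mul]; norm_num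
      omega
    obtain ⟨t, ht⟩ : ∃ t, 2 * i = b + t + 1 := ⟨2 * i - b - 1, by omega⟩
    have e1 : 4 ^ i * n + 2 ^ b * q = 2 ^ b * (2 * (2 ^ t * n) + q) := by
      rw [show (4 : ℕ) = 2 ^ 2 by norm_num, ← pow_mul, ht, pow_succ, pow_add]; ring
    show g c = e (4 ^ i * n + 2 ^ b * q)
    rw [e1, he _ _ (by omega), hgc]

end

end Pool.Agent.X13.CB
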