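import Mathlib

/-!
# Coloured binary partitions: the operator `U` and the ring `ℤ[u]`, `u = (1+x)/(1-x)`
-/

namespace Pool.Agent.X13.CB

open PowerSeries Finset

noncomputable section

/-- `∑ a_n x^n ↦ ∑ a_{2n} x^n` -/
def Up : ℤ⟦X⟧ →ₗ[ℤ] ℤ⟦X⟧ where
  toFun f := PowerSeries.mk fun n => coeff (2 * n) f
  map_add' f g := by ext n; simp
  map_smul' c f := by
    ext n
    rw [coeff_mk, RingHom.id_apply, map_smul, map_smul, coeff_mk]

theorem coeff_Up (f : ℤ⟦X⟧) (n : ℕ) : coeff n (Up f) = coeff (2 * n) f := by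
  show coeff n (PowerSeries.mk fun n => coeff (2 * n) f) = _
  rw [coeff_mk]

/-- `f(x) ↦ f(x^2)` -/
abbrev V : ℤ⟦X⟧ →ₐ[ℤ] ℤ⟦X⟧ := expand 2 two_ne_zero

theorem sum_even (n : ℕ) (g : ℕ → ℤ) :
    ∑ x ∈ range (2 * n + 1), (if 2 ∣ x then g x else 0) = ∑ k ∈ range (n + 1), g (2 * k) := by
  induction n with
  | zero => simp
  | succ n ih =>
    rw [show 2 * (n + 1) + 1 = 2 * n + 1 + 1 + 1 by ring, sum_range_succ, sum_range_succ, ih,
      sum_range_succ _ (n + 1), if_neg (by omega), add_zero, if_pos (by omega)]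
    congr 1

theorem Up_V_mul (g f : ℤ⟦X⟧) : Up (V g * f) = g * Up f := by
  ext n
  rw [coeff_Up, coeff_mul, coeff_mul, Finset.Nat.sum_antidiagonal_eq_sum_range_succ_mk,
    Finset.Nat.sum_antidiagonal_eq_sum_range_succ_mk]
  have h := sum_even n (fun k => coeff (k / 2) g * coeff (2 * n - k) f)
  have e1 : ∀ k ∈ range (n + 1), coeff (2 * k / 2) g * coeff (2 * n - 2 * k) f
      = coeff k g * coeff (n - k) (Up f) := by
    intro k _
    rw [coeff_Up, Nat.mul_div_cancel_left k (by norm_num), Nat.mul_sub]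
  rw [← sum_congr rfl e1, ← h]
  refine sum_congr rfl fun k _ => ?_
  rw [coeff_expand]
  split_ifs <;> simp

/-- `1/(1-x)` -/
def y : ℤ⟦X⟧ := PowerSeries.mk fun _ => 1

theorem one_sub_mul_y : (1 - X) * y = 1 := by
  have := PowerSeries.mk_one_mul_one_sub_eq_one ℤ
  rw [mul_comm]
  exact this

/-- `(1+x)/(1-x)` -/
def u : ℤ⟦X⟧ := (1 + X) * y

theorem one_sub_mul_u : (1 - X) * u = 1 + X := by
  unfold u
  linear_combination (1 + X) * one_sub_mul_y

theorem coeff_u (n : ℕ) : coeff n u = if n = 0 then 1 else 2 := by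
  unfold u
  rw [add_mul, one_mul, map_add]
  cases n with
  | zero => simp [y]
  | succ n =>
    rw [coeff_succ_X_mul]
    simp only [y, coeff_mk]
    norm_num

theorem one_sub_ne_zero : (1 - (X : ℤ⟦X⟧)) ≠ 0 := by
  intro h
  have := one_sub_mul_y
  rw [h, zero_mul] at this
  exact zero_ne_one this

theorem u_rel : u ^ 2 + 1 = V (2 * u) * u := by
  have h1 : (1 - (X : ℤ⟦X⟧) ^ 2) * V u = 1 + X ^ 2 := by
    have := congrArg V one_sub_mul_u
    rw [map_mul, map_sub, map_add, map_one, expand_X] at this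
    exact this
  have h2 := one_sub_mul_u
  have h3 : V (2 * u) = 2 * V u := by rw [map_mul, map_ofNat]
  rw [h3]
  have h4 : ((1 - X) ^ 2 : ℤ⟦X⟧) * (u ^ 2 + 1) = (1 - X) ^ 2 * (2 * V u * u) := by
    linear_combination ((1 - X) * u + 1 + X) * h2 - 2 * h1 - (1 - X) * 2 * V u * h2
  exact mul_left_cancel₀ (pow_ne_zero 2 one_sub_ne_zero) h4

theorem Up_rec (f : ℤ⟦X⟧) (n : ℕ) :
    Up (f * u ^ (n + 2)) = 2 * u * Up (f * u ^ (n + 1)) - Up (f * u ^ n) := by
  have : f * u ^ (n + 2) = V (2 * u) * (f * u ^ (n + 1)) - f * u ^ n := by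
    linear_combination f * u ^ n * u_rel
  rw [this, map_sub, Up_V_mul]

theorem Up_one : Up 1 = 1 := by
  ext n
  rw [coeff_Up, coeff_one, coeff_one]
  simp

theorem Up_u : Up u = u := by
  ext n
  rw [coeff_Up, coeff_u, coeff_u]
  simp

theorem Up_X : Up X = 0 := by
  ext n
  rw [coeff_Up, coeff_X, if_neg (by omega)]
  simp

theorem Up_X_mul_u : Up (X * u) = u - 1 := by
  ext n
  rw [coeff_Up, map_sub, coeff_one, coeff_u]
  cases n with
  | zero => simp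
  | succ n =>
    rw [show 2 * (n + 1) = 2 * n + 1 + 1 by ring, coeff_succ_X_mul, coeff_u]
    simp

/-! ### the lattices `c ℤ[u]` -/

/-- `c ℤ[u]` -/
def L (c : ℤ⟦X⟧) : Submodule ℤ ℤ⟦X⟧ := Submodule.span ℤ (Set.range fun n : ℕ => c * u ^ n)

theorem pow_mem_L (c : ℤ⟦X⟧) (n : ℕ) : c * u ^ n ∈ L c := Submodule.subset_span ⟨n, rfl⟩

theorem self_mem_L (c : ℤ⟦X⟧) : c ∈ L c := by simpa using pow_mem_L c 0

/-- linear maps on `L c` -/
theorem L_induction {c : ℤ⟦X⟧} {W : Submodule ℤ ℤ⟦X⟧} (φ : ℤ⟦X⟧ →ₗ[ℤ] ℤ⟦X⟧)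
    (h : ∀ n, φ (c * u ^ n) ∈ W) {f : ℤ⟦X⟧} (hf : f ∈ L c) : φ f ∈ W := by
  have : L c ≤ W.comap φ := by
    refine Submodule.span_le.mpr ?_
    rintro _ ⟨n, rfl⟩
    exact h n
  exact this hf

theorem u_mul_mem {c f : ℤ⟦X⟧} (hf : f ∈ L c) : u * f ∈ L c :=
  L_induction (LinearMap.mulLeft ℤ u) (fun n => by
    show u * (c * u ^ n) ∈ L c
    have := pow_mem_L c (n + 1)
    rwa [pow_succ', mul_left_comm] at this) hf

theorem pow_mul_mem {c f : ℤ⟦X⟧} (hf : f ∈ L c) (n : ℕ) : u ^ n * f ∈ L c := by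
  induction n with
  | zero => simpa using hf
  | succ n ih => rw [pow_succ', mul_assoc]; exact u_mul_mem ih

theorem L_le {c d : ℤ⟦X⟧} (h : c ∈ L d) : L c ≤ L d := by
  refine Submodule.span_le.mpr ?_
  rintro _ ⟨n, rfl⟩
  show c * u ^ n ∈ L d
  rw [mul_comm]
  exact pow_mul_mem h n

theorem mul_mem_L {c f g : ℤ⟦X⟧} (hf : f ∈ L 1) (hg : g ∈ L c) : f * g ∈ L c :=
  L_induction (LinearMap.mulRight ℤ g) (fun n => by
    show (1 * u ^ n) * g ∈ L c
    rw [one_mul]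
    exact pow_mul_mem hg n) hf

theorem mul_left_mem {c f : ℤ⟦X⟧} (d : ℤ⟦X⟧) (hf : f ∈ L c) : d * f ∈ L (d * c) :=
  L_induction (LinearMap.mulLeft ℤ d) (fun n => by
    show d * (c * u ^ n) ∈ L (d * c)
    rw [← mul_assoc]
    exact pow_mem_L _ n) hf

/-- `U` on `c ℤ[u]` -/
theorem Up_mem (c d : ℤ⟦X⟧) (h0 : Up c ∈ L d) (h1 : Up (c * u) ∈ L d) (n : ℕ) :
    Up (c * u ^ n) ∈ L d := by
  have h : Up (c * u ^ n) ∈ L d ∧ Up (c * u ^ (n + 1)) ∈ L d := by
    induction n with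
    | zero => exact ⟨by simpa using h0, by simpa using h1⟩
    | succ n ih =>
      refine ⟨ih.2, ?_⟩
      rw [Up_rec c n]
      refine Submodule.sub_mem _ ?_ ih.1
      have := u_mul_mem ih.2
      have h2 := Submodule.smul_mem (L d) (2 : ℤ) this
      rw [zsmul_eq_mul] at h2
      push_cast at h2
      rw [mul_assoc]
      exact h2
  exact h.1

theorem Up_one_mem (n : ℕ) : Up (1 * u ^ n) ∈ L 1 :=
  Up_mem 1 1 (by rw [Up_one]; exact self_mem_L 1)
    (by rw [one_mul, Up_u]; simpa using pow_mem_L 1 1) n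

theorem Up_X_mem (n : ℕ) : Up (X * u ^ n) ∈ L (u - 1) :=
  Up_mem X (u - 1) (by rw [Up_X]; exact Submodule.zero_mem _)
    (by rw [Up_X_mul_u]; exact self_mem_L _) n

theorem Up_usq : Up (u ^ 2) = 2 * u ^ 2 - 1 := by
  have := Up_rec 1 0
  simp only [one_mul, zero_add, pow_one, pow_zero] at this
  rw [this, Up_u, Up_one]; ring

theorem Up_ucub : Up (u ^ 3) = 4 * u ^ 3 - 3 * u := by
  have := Up_rec 1 1
  simp only [one_mul] at this
  norm_num at this
  rw [this, Up_usq, Up_u]; ring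

theorem Up_sub_one_mem (n : ℕ) : Up ((u - 1) * u ^ n) ∈ L (u - 1) := by
  refine Up_mem (u - 1) (u - 1) ?_ ?_ n
  · rw [map_sub, Up_u, Up_one]; exact self_mem_L _
  · have e : (u - 1) * u = u ^ 2 - u := by ring
    rw [e, map_sub, Up_usq, Up_u]
    have : 2 * u ^ 2 - 1 - u = (u - 1) * u ^ 1 + ((u - 1) * u ^ 1 + (u - 1)) := by ring
    rw [this]
    exact Submodule.add_mem _ (pow_mem_L _ 1) (Submodule.add_mem _ (pow_mem_L _ 1) (self_mem_L _))

theorem Up_one_sub_sq_mem (n : ℕ) : Up ((1 - u ^ 2) * u ^ n) ∈ L (2 * (1 - u ^ 2)) := by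
  refine Up_mem _ _ ?_ ?_ n
  · rw [map_sub, Up_one, Up_usq]
    have : (1 : ℤ⟦X⟧) - (2 * u ^ 2 - 1) = 2 * (1 - u ^ 2) := by ring
    rw [this]; exact self_mem_L _
  · have e : (1 - u ^ 2) * u = u - u ^ 3 := by ring
    rw [e, map_sub, Up_u, Up_ucub]
    have : u - (4 * u ^ 3 - 3 * u) = 2 * (1 - u ^ 2) * u ^ 1 + 2 * (1 - u ^ 2) * u ^ 1 := by ring
    rw [this]
    exact Submodule.add_mem _ (pow_mem_L _ 1) (pow_mem_L _ 1)

theorem Up_pow_sub_mem (n : ℕ) : Up (u ^ n) - u ^ n ∈ L (1 - u ^ 2) := by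
  have h : (Up (u ^ n) - u ^ n ∈ L (1 - u ^ 2)) ∧
      (Up (u ^ (n + 1)) - u ^ (n + 1) ∈ L (1 - u ^ 2)) := by
    induction n with
    | zero => exact ⟨by simp [Up_one], by simp [Up_u]⟩
    | succ n ih =>
      refine ⟨ih.2, ?_⟩
      have hr := Up_rec 1 n
      simp only [one_mul] at hr
      have e : Up (u ^ (n + 1 + 1)) - u ^ (n + 1 + 1)
          = (u * (Up (u ^ (n + 1)) - u ^ (n + 1)) + u * (Up (u ^ (n + 1)) - u ^ (n + 1)))
            - (Up (u ^ n) - u ^ n) - (1 - u ^ 2) * u ^ n := by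
        rw [show n + 1 + 1 = n + 2 by ring, hr]; ring
      rw [e]
      exact Submodule.sub_mem _ (Submodule.sub_mem _ (Submodule.add_mem _ (u_mul_mem ih.2)
        (u_mul_mem ih.2)) ih.1) (pow_mem_L _ n)
  exact h.1

theorem pow_even_sub_one_mem (k : ℕ) : u ^ (2 * k) - 1 ∈ L (1 - u ^ 2) := by
  induction k with
  | zero => simp
  | succ k ih =>
    have e : u ^ (2 * (k + 1)) - 1 = (u ^ (2 * k) - 1) - (1 - u ^ 2) * u ^ (2 * k) := by ring
    rw [e]
    exact Submodule.sub_mem _ ih (pow_mem_L _ _)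

/-- `t_n = T_n(u)` -/
def t (n : ℕ) : ℤ⟦X⟧ := Up (u ^ n)

theorem V_t (n : ℕ) : u ^ (2 * n) + 1 = V (2 * t n) * u ^ n := by
  have h : (u ^ (2 * n) + 1 = V (2 * t n) * u ^ n) ∧
      (u ^ (2 * (n + 1)) + 1 = V (2 * t (n + 1)) * u ^ (n + 1)) := by
    induction n with
    | zero =>
      constructor
      · simp only [t, pow_zero, Up_one, mul_zero, mul_one, map_ofNat]; norm_num
      · simp only [t, zero_add, pow_one, Up_u, mul_one]
        exact u_rel
    | succ n ih =>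
      refine ⟨ih.2, ?_⟩
      have hr := Up_rec 1 n
      simp only [one_mul] at hr
      have e : V (2 * t (n + 1 + 1)) = V (2 * u) * V (2 * t (n + 1)) - V (2 * t n) := by
        rw [← map_mul, ← map_sub]
        congr 1
        unfold t
        rw [show n + 1 + 1 = n + 2 by ring, hr]; ring
      rw [e]
      have h1 := ih.1
      have h2 := ih.2
      have h3 := u_rel
      linear_combination V (2 * u) * u * h2 - u ^ 2 * h1 + (u ^ (2 * (n + 1)) + 1) * h3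
  exact h.1

theorem t_double (n : ℕ) : t (2 * n) = 2 * t n ^ 2 - 1 := by
  have h1 : u ^ (2 * n) = V (2 * t n) * u ^ n - 1 := by rw [← V_t]; ring
  show Up (u ^ (2 * n)) = _
  rw [h1, map_sub, Up_V_mul, Up_one]
  show 2 * t n * t n - 1 = _
  ring

/-- `a_n = (u-1) U_{n-1}(u)` -/
def a (n : ℕ) : ℤ⟦X⟧ := Up (X * u ^ n)

theorem a_double (n : ℕ) : a (2 * n) = 2 * t n * a n := by
  have h1 : X * u ^ (2 * n) = V (2 * t n) * (X * u ^ n) - X := by
    have := V_t n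
    linear_combination X * this
  show Up (X * u ^ (2 * n)) = _
  rw [h1, map_sub, Up_V_mul, Up_X, sub_zero]
  rfl

theorem t_mem (n : ℕ) : t n ∈ L 1 := by
  have := Up_one_mem n
  rwa [one_mul] at this

theorem two_mul_mem {c f : ℤ⟦X⟧} (hf : f ∈ L c) : 2 * f ∈ L (2 * c) := mul_left_mem 2 hf

theorem a_two_pow (m : ℕ) : a (2 ^ m) ∈ L (2 ^ m * (u - 1)) := by
  induction m with
  | zero =>
    rw [pow_zero, pow_zero, one_mul]
    show Up (X * u ^ 1) ∈ _
    rw [pow_one, Up_X_mul_u]; exact self_mem_L _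
  | succ m ih =>
    rw [pow_succ' (2 : ℕ) m, a_double, mul_assoc, pow_succ' (2 : ℤ⟦X⟧) m, mul_assoc]
    exact two_mul_mem (mul_mem_L (t_mem _) ih)

theorem t_two_pow (m : ℕ) : t (2 ^ (m + 1)) - 1 ∈ L (2 ^ (m + 1) * (1 - u ^ 2)) := by
  induction m with
  | zero =>
    rw [zero_add, pow_one, pow_one]
    show Up (u ^ 2) - 1 ∈ _
    rw [Up_usq]
    have e : (2 * u ^ 2 - 1 - 1 : ℤ⟦X⟧) = -(2 * (1 - u ^ 2)) := by ring
    rw [e]
    exact Submodule.neg_mem _ (self_mem_L _)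
  | succ m ih =>
    rw [pow_succ' (2 : ℕ) (m + 1), t_double]
    have e : 2 * t (2 ^ (m + 1)) ^ 2 - 1 - 1
        = 2 * ((t (2 ^ (m + 1)) + 1) * (t (2 ^ (m + 1)) - 1)) := by ring
    rw [e, pow_succ' (2 : ℤ⟦X⟧) (m + 1), mul_assoc]
    refine two_mul_mem (mul_mem_L (Submodule.add_mem _ (t_mem _) (self_mem_L 1)) ih)

end

end Pool.Agent.X13.CB
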