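import Pool.Agent.X13.CB.Basic

/-!
# The operator `T f = U(u^M f)`, `M = 2^m`, and the generating function
-/

namespace Pool.Agent.X13.CB

open PowerSeries Finset

noncomputable section

/-- `T f = U(u^M f)` with `M = 2^m` -/
def T (m : ℕ) : ℤ⟦X⟧ →ₗ[ℤ] ℤ⟦X⟧ := Up ∘ₗ LinearMap.mulLeft ℤ (u ^ (2 ^ m))

theorem T_apply (m : ℕ) (f : ℤ⟦X⟧) : T m f = Up (u ^ (2 ^ m) * f) := rfl

theorem T_V_mul (m : ℕ) (g f : ℤ⟦X⟧) : T m (V g * f) = g * T m f := by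
  rw [T_apply, T_apply, mul_left_comm, Up_V_mul]

/-- multiplication by an integral power of two -/
theorem Up_C_mul (k : ℕ) (f : ℤ⟦X⟧) : Up (2 ^ k * f) = 2 ^ k * Up f := by
  have : (2 : ℤ⟦X⟧) ^ k = V (2 ^ k) := by rw [map_pow, map_ofNat]
  conv_lhs => rw [this]
  rw [Up_V_mul]

theorem T_mem (m k : ℕ) {f : ℤ⟦X⟧} (hf : f ∈ L (2 ^ k)) : T m f ∈ L (2 ^ k) := by
  refine L_induction (T m) (fun n => ?_) hf
  have e : u ^ (2 ^ m) * (2 ^ k * u ^ n) = 2 ^ k * (1 * u ^ (2 ^ m + n)) := by ring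
  rw [T_apply, e, Up_C_mul]
  have := mul_left_mem (2 ^ k) (Up_one_mem (2 ^ m + n))
  rwa [mul_one] at this

theorem T_X_mem (m k : ℕ) {f : ℤ⟦X⟧} (hf : f ∈ L (2 ^ k)) :
    T m (X * f) ∈ L (2 ^ k * (u - 1)) := by
  refine L_induction (T m ∘ₗ LinearMap.mulLeft ℤ X) (fun n => ?_) hf
  show T m (X * (2 ^ k * u ^ n)) ∈ _
  have e : u ^ (2 ^ m) * (X * (2 ^ k * u ^ n)) = 2 ^ k * (X * u ^ (2 ^ m + n)) := by ring
  rw [T_apply, e, Up_C_mul]
  exact mul_left_mem (2 ^ k) (Up_X_mem (2 ^ m + n))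

theorem T_sub_one_mem (m k : ℕ) {f : ℤ⟦X⟧} (hf : f ∈ L (2 ^ k * (u - 1))) :
    T m f ∈ L (2 ^ k * (u - 1)) := by
  refine L_induction (T m) (fun n => ?_) hf
  have e : u ^ (2 ^ m) * (2 ^ k * (u - 1) * u ^ n) = 2 ^ k * ((u - 1) * u ^ (2 ^ m + n)) := by ring
  rw [T_apply, e, Up_C_mul]
  exact mul_left_mem (2 ^ k) (Up_sub_one_mem (2 ^ m + n))

theorem T_one_sub_sq_mem (m k : ℕ) {f : ℤ⟦X⟧} (hf : f ∈ L (2 ^ k * (1 - u ^ 2))) :
    T m f ∈ L (2 ^ (k + 1) * (1 - u ^ 2)) := by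
  refine L_induction (T m) (fun n => ?_) hf
  have e : u ^ (2 ^ m) * (2 ^ k * (1 - u ^ 2) * u ^ n)
      = 2 ^ k * ((1 - u ^ 2) * u ^ (2 ^ m + n)) := by ring
  rw [T_apply, e, Up_C_mul]
  have := mul_left_mem (2 ^ k) (Up_one_sub_sq_mem (2 ^ m + n))
  rwa [← mul_assoc, ← pow_succ] at this

/-- `T f ≡ f` modulo `(1-u^2)` -/
theorem T_sub_self_mem (m k : ℕ) {f : ℤ⟦X⟧} (hf : f ∈ L (2 ^ k)) :
    T (m + 1) f - f ∈ L (2 ^ k * (1 - u ^ 2)) := by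
  refine L_induction (T (m + 1) - LinearMap.id) (fun n => ?_) hf
  show T (m + 1) (2 ^ k * u ^ n) - 2 ^ k * u ^ n ∈ _
  have e : u ^ (2 ^ (m + 1)) * (2 ^ k * u ^ n) = 2 ^ k * u ^ (2 ^ (m + 1) + n) := by ring
  rw [T_apply, e, Up_C_mul, ← mul_sub]
  apply mul_left_mem
  have h1 := Up_pow_sub_mem (2 ^ (m + 1) + n)
  have h2 := pow_mul_mem (pow_even_sub_one_mem (2 ^ m)) n
  have e2 : Up (u ^ (2 ^ (m + 1) + n)) - u ^ n
      = (Up (u ^ (2 ^ (m + 1) + n)) - u ^ (2 ^ (m + 1) + n))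
        + u ^ n * (u ^ (2 * 2 ^ m) - 1) := by
    rw [pow_succ' (2 : ℕ) m]; ring
  rw [e2]
  exact Submodule.add_mem _ h1 h2

theorem le_one (m : ℕ) : L (2 ^ m * (u - 1)) ≤ L (2 ^ m) := by
  apply L_le
  have e : (2 : ℤ⟦X⟧) ^ m * (u - 1) = 2 ^ m * u ^ 1 - 2 ^ m := by ring
  rw [e]
  exact Submodule.sub_mem _ (pow_mem_L _ _) (self_mem_L _)

theorem le_two (m : ℕ) : L (2 ^ m * (1 - u ^ 2)) ≤ L (2 ^ m) := by
  apply L_le
  have e : (2 : ℤ⟦X⟧) ^ m * (1 - u ^ 2) = 2 ^ m - 2 ^ m * u ^ 2 := by ring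
  rw [e]
  exact Submodule.sub_mem _ (self_mem_L _) (pow_mem_L _ _)

/-- the class containing `T^r x^i`, `j = ⌊i/2^r⌋` -/
def Cls (m j : ℕ) (f : ℤ⟦X⟧) : Prop :=
  (∃ z, z - 1 ∈ L (2 ^ m) ∧ f = X ^ j * z) ∨ (∃ g ∈ L (2 ^ m * (u - 1)), f = X ^ j * g)

theorem X_pow_even (j : ℕ) : (X : ℤ⟦X⟧) ^ (2 * j) = V (X ^ j) := by
  rw [map_pow, expand_X, pow_mul]

theorem T_one_sub (m : ℕ) : T (m + 1) 1 - 1 ∈ L (2 ^ (m + 1) * (1 - u ^ 2)) := by
  rw [T_apply, mul_one]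
  exact t_two_pow m

theorem T_X (m : ℕ) : T m X ∈ L (2 ^ m * (u - 1)) := by
  rw [T_apply, mul_comm (u ^ 2 ^ m) X]
  exact a_two_pow m

theorem Cls.step {m j : ℕ} {f : ℤ⟦X⟧} (h : Cls (m + 1) j f) :
    Cls (m + 1) (j / 2) (T (m + 1) f) := by
  obtain ⟨i, hi⟩ : ∃ i, j = 2 * i ∨ j = 2 * i + 1 := ⟨j / 2, by omega⟩
  have hj : j / 2 = i := by omega
  rw [hj]
  rcases h with ⟨z, hz, rfl⟩ | ⟨g, hg, rfl⟩
  · rcases hi with rfl | rfl
    · left
      refine ⟨T (m + 1) z, ?_, by rw [X_pow_even, T_V_mul]⟩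
      have e : T (m + 1) z - 1 = T (m + 1) (z - 1) + (T (m + 1) 1 - 1) := by
        rw [map_sub]; ring
      rw [e]
      exact Submodule.add_mem _ (T_mem _ _ hz) (le_two _ (T_one_sub m))
    · right
      refine ⟨T (m + 1) (X * z), ?_, by rw [pow_succ, mul_assoc, X_pow_even, T_V_mul]⟩
      have e : T (m + 1) (X * z) = T (m + 1) (X * (z - 1)) + T (m + 1) X := by
        rw [← map_add]; congr 1; ring
      rw [e]
      exact Submodule.add_mem _ (T_X_mem _ _ hz) (T_X _)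
  · rcases hi with rfl | rfl
    · right
      exact ⟨T (m + 1) g, T_sub_one_mem _ _ hg, by rw [X_pow_even, T_V_mul]⟩
    · right
      exact ⟨T (m + 1) (X * g), T_X_mem _ _ (le_one _ hg),
        by rw [pow_succ, mul_assoc, X_pow_even, T_V_mul]⟩

theorem Cls.iter (m i r : ℕ) : Cls (m + 1) (i / 2 ^ r) (((T (m + 1)) ^ r) (X ^ i)) := by
  induction r with
  | zero =>
    left
    exact ⟨1, by simp, by simp⟩
  | succ r ih =>
    have := ih.step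
    rw [Nat.div_div_eq_div_mul, ← pow_succ] at this
    rw [pow_succ' (T (m + 1)) r]
    exact this

theorem Cls.sub {m : ℕ} {f : ℤ⟦X⟧} (h : Cls (m + 1) 0 f) :
    T (m + 1) f - f ∈ L (2 ^ (m + 1) * (1 - u ^ 2)) := by
  rcases h with ⟨z, hz, rfl⟩ | ⟨g, hg, rfl⟩
  · rw [pow_zero, one_mul]
    have e : T (m + 1) z - z = (T (m + 1) (z - 1) - (z - 1)) + (T (m + 1) 1 - 1) := by
      rw [map_sub]; ring
    rw [e]
    exact Submodule.add_mem _ (T_sub_self_mem _ _ hz) (T_one_sub m)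
  · rw [pow_zero, one_mul]
    exact T_sub_self_mem _ _ (le_one _ hg)

/-- the key estimate for monomials -/
theorem key_mono (m i : ℕ) (hi : i ≤ 2 ^ (m + 1)) :
    ((T (m + 1)) ^ (m + 3)) (X ^ i) - ((T (m + 1)) ^ (m + 2)) (X ^ i)
      ∈ L (2 ^ (m + 1) * (1 - u ^ 2)) := by
  have h := Cls.iter m i (m + 2)
  have h0 : i / 2 ^ (m + 2) = 0 := by
    apply Nat.div_eq_of_lt
    calc i ≤ 2 ^ (m + 1) := hi
      _ < 2 ^ (m + 2) := Nat.pow_lt_pow_right (by norm_num) (by omega)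
  rw [h0] at h
  rw [pow_succ' _ (m + 2)]
  exact h.sub

theorem one_sub_X_pow (M : ℕ) : (1 - (X : ℤ⟦X⟧)) ^ M
    = ∑ i ∈ range (M + 1), ((-1) ^ i * (M.choose i : ℤ)) • (X : ℤ⟦X⟧) ^ i := by
  rw [show (1 : ℤ⟦X⟧) - X = -X + 1 by ring, add_pow]
  refine sum_congr rfl fun i _ => ?_
  rw [one_pow, mul_one, neg_pow, zsmul_eq_mul]
  push_cast
  ring

theorem key (m r : ℕ) :
    ((T (m + 1)) ^ (m + 3 + r)) ((1 - X) ^ (2 ^ (m + 1)))
      - ((T (m + 1)) ^ (m + 2 + r)) ((1 - X) ^ (2 ^ (m + 1)))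
      ∈ L (2 ^ (m + 1 + r) * (1 - u ^ 2)) := by
  induction r with
  | zero =>
    rw [one_sub_X_pow, add_zero, add_zero, add_zero, map_sum, map_sum, ← sum_sub_distrib]
    refine Submodule.sum_mem _ fun i hi => ?_
    rw [mem_range] at hi
    rw [map_smul, map_smul, ← smul_sub]
    exact Submodule.smul_mem _ _ (key_mono m i (by omega))
  | succ r ih =>
    have h := T_one_sub_sq_mem (m + 1) _ ih
    rw [map_sub] at h
    have e1 : ∀ s : ℕ, ((T (m + 1)) ^ (s + 1)) ((1 - X) ^ (2 ^ (m + 1)))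
        = T (m + 1) (((T (m + 1)) ^ s) ((1 - X) ^ (2 ^ (m + 1)))) := fun s => by
      rw [pow_succ']; rfl
    rw [← add_assoc, ← add_assoc, ← add_assoc, e1, e1]
    exact h

/-- elements of `L (2^k (1-u^2))` are divisible by `2^(k+2)` -/
theorem L_dvd (k : ℕ) {f : ℤ⟦X⟧} (hf : f ∈ L (2 ^ k * (1 - u ^ 2))) :
    ∃ h : ℤ⟦X⟧, f = 2 ^ (k + 2) * h := by
  have hu : 1 - u ^ 2 = 4 * (-(X * y ^ 2)) := by
    have h1 := one_sub_mul_y
    have h2 : u = (1 + X) * y := rfl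
    rw [h2]
    linear_combination (-1 - (1 - X) * y) * h1
  unfold L at hf
  induction hf using Submodule.span_induction with
  | mem x hx =>
    obtain ⟨n, rfl⟩ := hx
    refine ⟨-(X * y ^ 2) * u ^ n, ?_⟩
    show 2 ^ k * (1 - u ^ 2) * u ^ n = _
    rw [hu]; ring
  | zero => exact ⟨0, by simp⟩
  | add x z _ _ hx hz =>
    obtain ⟨a, rfl⟩ := hx
    obtain ⟨b, rfl⟩ := hz
    exact ⟨a + b, by ring⟩
  | smul c x _ hx =>
    obtain ⟨a, rfl⟩ := hx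
    exact ⟨c • a, by rw [zsmul_eq_mul, zsmul_eq_mul]; ring⟩

/-! ### the generating function -/

/-- `1/(1-x^(2^i))` -/
def gi (i : ℕ) : ℤ⟦X⟧ := PowerSeries.invOfUnit (1 - X ^ (2 ^ i)) 1

theorem gi_mul (i : ℕ) : (1 - X ^ (2 ^ i)) * gi i = 1 := by
  apply PowerSeries.mul_invOfUnit
  rw [map_sub, map_one, map_pow, constantCoeff_X, zero_pow (by positivity), sub_zero]
  rfl

theorem gi_zero : gi 0 = y := by
  have h1 := gi_mul 0
  have h2 := one_sub_mul_y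
  rw [pow_zero, pow_one] at h1
  linear_combination y * h1 - gi 0 * h2

theorem V_gi (i : ℕ) : V (gi i) = gi (i + 1) := by
  have h1 := congrArg V (gi_mul i)
  rw [map_mul, map_sub, map_pow, map_one, expand_X, ← pow_mul, ← pow_succ'] at h1
  have h2 := gi_mul (i + 1)
  linear_combination (gi (i + 1)) * h1 - V (gi i) * h2

/-- finite products -/
def PP (N : ℕ) : ℤ⟦X⟧ := ∏ i ∈ range N, gi i

theorem PP_succ' (N : ℕ) : PP (N + 1) = y * V (PP N) := by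
  unfold PP
  rw [prod_range_succ', map_prod, gi_zero, mul_comm]
  congr 1
  exact prod_congr rfl fun i _ => (V_gi i).symm

/-- the coefficients: `bc M n = [x^n] ∏_{i ≤ n} (1-x^(2^i))^(-M)` -/
def bc (M n : ℕ) : ℤ := coeff n (PP (n + 1) ^ M)

theorem gi_sub (i : ℕ) : ∃ h, gi i = 1 + X ^ (2 ^ i) * h :=
  ⟨gi i, by linear_combination gi_mul i⟩

theorem coeff_PP_stable (M n N : ℕ) (h : n + 1 ≤ N) : coeff n (PP N ^ M) = bc M n := by
  induction N, h using Nat.le_induction with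
  | base => rfl
  | succ N hN ih =>
    rw [← ih]
    obtain ⟨h, hh⟩ := gi_sub N
    have h1 : ∃ k, (gi N) ^ M = 1 + X ^ (2 ^ N) * k := by
      clear ih
      induction M with
      | zero => exact ⟨0, by simp⟩
      | succ M ihM =>
        obtain ⟨k, hk⟩ := ihM
        refine ⟨k + h * (1 + X ^ (2 ^ N) * k), ?_⟩
        rw [pow_succ, hk, hh]; ring
    obtain ⟨k, hk⟩ := h1
    have h2 : PP (N + 1) ^ M = PP N ^ M + X ^ (2 ^ N) * (PP N ^ M * k) := by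
      unfold PP
      rw [prod_range_succ, mul_pow, hk]; ring
    have hlt : n < 2 ^ N := lt_of_lt_of_le (by omega : n < N) Nat.lt_two_pow_self.le
    rw [h2, map_add, coeff_X_pow_mul', if_neg (by omega), add_zero]

/-- the generating function -/
def BB (M : ℕ) : ℤ⟦X⟧ := PowerSeries.mk (bc M)

theorem BB_eq (M : ℕ) : BB M = y ^ M * V (BB M) := by
  ext n
  have h1 : coeff n (BB M) = coeff n (PP (n + 2) ^ M) := by
    rw [coeff_PP_stable M n (n + 2) (by omega)]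
    unfold BB
    rw [coeff_mk]
  rw [h1, PP_succ', mul_pow, ← map_pow, coeff_mul, coeff_mul]
  refine sum_congr rfl fun p hp => ?_
  have hp2 := HasAntidiagonal.mem_antidiagonal.mp hp
  congr 1
  rw [coeff_expand, coeff_expand]
  split_ifs
  · rw [coeff_PP_stable M (p.2 / 2) (n + 1) (by omega)]
    unfold BB
    rw [coeff_mk]
  · rfl

/-- `J = ∏ u(x^(2^i))^M` -/
def JJ (m : ℕ) : ℤ⟦X⟧ := BB (2 ^ m) * y ^ (2 ^ m)

theorem JJ_eq (m : ℕ) : JJ m = V (JJ m) * u ^ (2 ^ m) := by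
  have h1 := BB_eq (2 ^ m)
  have h2 : y * y = V y * u := by
    have h3 := one_sub_mul_y
    have h4 := congrArg V h3
    rw [map_mul, map_sub, map_one, expand_X] at h4
    have h5 : u = (1 + X) * y := rfl
    rw [h5]
    linear_combination (-y * y) * h4 + (1 + X) * V y * y * h3
  have h6 : y ^ (2 ^ m) * y ^ (2 ^ m) = V y ^ (2 ^ m) * u ^ (2 ^ m) := by
    rw [← mul_pow, ← mul_pow, h2]
  unfold JJ
  rw [map_mul, map_pow]
  linear_combination y ^ (2 ^ m) * h1 + V (BB (2 ^ m)) * h6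

theorem BB_JJ (m : ℕ) : BB (2 ^ m) = JJ m * (1 - X) ^ (2 ^ m) := by
  unfold JJ
  rw [mul_assoc, ← mul_pow, mul_comm y, one_sub_mul_y, one_pow, mul_one]

theorem Up_JJ (m : ℕ) (f : ℤ⟦X⟧) : Up (JJ m * f) = JJ m * T m f := by
  conv_lhs => rw [JJ_eq]
  rw [mul_assoc, Up_V_mul, T_apply]

theorem Up_iter_JJ (m r : ℕ) (f : ℤ⟦X⟧) : (Up ^ r) (JJ m * f) = JJ m * ((T m) ^ r) f := by
  induction r with
  | zero => rfl
  | succ r ih =>
    rw [pow_succ', pow_succ']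
    show Up ((Up ^ r) (JJ m * f)) = JJ m * T m (((T m) ^ r) f)
    rw [ih, Up_JJ]

theorem coeff_Up_iter (r n : ℕ) (f : ℤ⟦X⟧) : coeff n ((Up ^ r) f) = coeff (2 ^ r * n) f := by
  induction r generalizing n with
  | zero => simp
  | succ r ih =>
    rw [pow_succ']
    show coeff n (Up ((Up ^ r) f)) = _
    rw [coeff_Up, ih]
    congr 2
    ring

theorem bc_eq (m r n : ℕ) : bc (2 ^ m) (2 ^ r * n)
    = coeff n (JJ m * ((T m) ^ r) ((1 - X) ^ (2 ^ m))) := by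
  rw [← Up_iter_JJ, coeff_Up_iter, ← BB_JJ]
  unfold BB
  rw [coeff_mk]

/-- main theorem -/
theorem main (m k n : ℕ) (hk : m + 3 ≤ k) :
    (2 : ℤ) ^ k ∣ bc (2 ^ (m + 1)) (2 ^ k * n) - bc (2 ^ (m + 1)) (2 ^ (k - 1) * n) := by
  obtain ⟨r, rfl⟩ := Nat.exists_eq_add_of_le hk
  rw [show m + 3 + r - 1 = m + 2 + r by omega, bc_eq, bc_eq, ← map_sub, ← mul_sub]
  obtain ⟨h, hh⟩ := L_dvd _ (key m r)
  rw [hh]
  have e : JJ (m + 1) * (2 ^ (m + 1 + r + 2) * h)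
      = C ((2 : ℤ) ^ (m + 3 + r)) * (JJ (m + 1) * h) := by
    rw [map_pow, show m + 1 + r + 2 = m + 3 + r by omega]
    have : (C (2 : ℤ) : ℤ⟦X⟧) = 2 := map_ofNat _ 2
    rw [this]; ring
  rw [e, coeff_C_mul]
  exact dvd_mul_right _ _

end

end Pool.Agent.X13.CB
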