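import Pool.Agent.X13.CB.TM

/-!
# The matrices for the 5-th, 9-th and 17-th powers
-/

namespace Pool.Agent.X13.CB

open PowerSeries Finset

noncomputable section

theorem coeff_zsmul' (c : ℤ) (f : ℤ⟦X⟧) (n : ℕ) : coeff n (c • f) = c * coeff n f := by
  rw [zsmul_eq_mul, ← eq_intCast (C : ℤ →+* ℤ⟦X⟧) c, coeff_C_mul]

theorem coeff_one_sub_X_pow (m k : ℕ) :
    coeff k ((1 - (X : ℤ⟦X⟧)) ^ m) = (-1) ^ k * (m.choose k : ℤ) := by
  rw [one_sub_X_pow, map_sum]
  simp only [coeff_zsmul', coeff_X_pow, mul_ite, mul_one, mul_zero]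
  rcases Nat.lt_or_ge k (m + 1) with h | h
  · rw [Finset.sum_ite_eq, if_pos (mem_range.mpr h)]
  · rw [Finset.sum_ite_eq, if_neg (fun h' => by rw [mem_range] at h'; omega),
      Nat.choose_eq_zero_of_lt (by omega)]
    simp

theorem Up_FF_pow (m : ℕ) (P : ℤ⟦X⟧) : Up (P * FF ^ m) = Up (P * (1 - X) ^ m) * FF ^ m := by
  have e : P * FF ^ m = V (FF ^ m) * (P * (1 - X) ^ m) := by
    conv_lhs => rw [FF_eq]
    rw [mul_pow, map_pow]; ring
  rw [e, Up_V_mul, mul_comm]

end

/-- the matrix of `U` on `x^(i+1) F^(M+1)` -/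
def Bm (M : ℕ) : Matrix (Fin M) (Fin M) ℤ := fun i j =>
  if i.1 ≤ 2 * j.1 + 1 then (-1) ^ (2 * j.1 + 1 - i.1) * ((M + 1).choose (2 * j.1 + 1 - i.1) : ℤ)
  else 0

noncomputable section

theorem Up_psi (M : ℕ) (i : Fin M) : Up ((X : ℤ⟦X⟧) ^ (i.1 + 1) * FF ^ (M + 1))
    = ∑ j : Fin M, Bm M i j • ((X : ℤ⟦X⟧) ^ (j.1 + 1) * FF ^ (M + 1)) := by
  rw [Up_FF_pow]
  have h : Up ((X : ℤ⟦X⟧) ^ (i.1 + 1) * (1 - X) ^ (M + 1))
      = ∑ j : Fin M, Bm M i j • (X : ℤ⟦X⟧) ^ (j.1 + 1) := by
    ext n
    rw [coeff_Up, coeff_X_pow_mul', coeff_one_sub_X_pow, map_sum]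
    simp only [coeff_zsmul', coeff_X_pow, mul_ite, mul_one, mul_zero]
    have hi := i.2
    rcases Nat.eq_zero_or_pos n with rfl | hn
    · rw [if_neg (by omega)]
      symm
      exact sum_eq_zero fun j _ => if_neg (by omega)
    · rcases Nat.lt_or_ge M n with h2 | h2
      · rw [Nat.choose_eq_zero_of_lt (by omega : M + 1 < 2 * n - (i.1 + 1))]
        simp only [Nat.cast_zero, mul_zero, ite_self]
        symm
        exact sum_eq_zero fun j _ => if_neg (by have := j.2; omega)
      · rw [sum_eq_single (⟨n - 1, by omega⟩ : Fin M)]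
        · rw [if_pos (show n = (⟨n - 1, by omega⟩ : Fin M).1 + 1 by simp only; omega)]
          unfold Bm
          simp only
          by_cases h3 : i.1 + 1 ≤ 2 * n
          · rw [if_pos h3, if_pos (by omega), show 2 * n - (i.1 + 1) = 2 * (n - 1) + 1 - i.1 by omega]
          · rw [if_neg h3, if_neg (by omega)]
        · intro j _ hj
          apply if_neg
          intro h4
          apply hj
          apply Fin.ext
          simp only
          omega
        · intro h4
          exact absurd (mem_univ _) h4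
  rw [h, sum_mul]
  exact sum_congr rfl fun j _ => by rw [smul_mul_assoc]

theorem coeff_psi (M r q : ℕ) (i : Fin M) :
    coeff (2 ^ r * q) ((X : ℤ⟦X⟧) ^ (i.1 + 1) * FF ^ (M + 1))
      = ∑ j : Fin M, (Bm M ^ r) i j * coeff q ((X : ℤ⟦X⟧) ^ (j.1 + 1) * FF ^ (M + 1)) := by
  rw [← coeff_Up_iter, Up_iter_matrix (Bm M) _ (Up_psi M) r i, map_sum]
  exact sum_congr rfl fun j _ => by rw [coeff_zsmul']

theorem Ev_of_mod {e : ℕ} {s : ℤ} (h : s % 2 ^ (e + 1) = 2 ^ e) : Ev e s := by
  refine ⟨2 * (s / 2 ^ (e + 1)) + 1, ⟨_, rfl⟩, ?_⟩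
  have := Int.emod_add_mul_ediv s (2 ^ (e + 1))
  rw [h] at this
  rw [pow_succ] at this ⊢
  linarith

/-- the valuations for all exponents -/
theorem val_general (k M : ℕ) (hM : M = 2 ^ k) (A : ℕ → ℕ)
    (D : ℤ⟦X⟧) (hD : 1 - (X : ℤ⟦X⟧) ^ M = (1 - X) ^ M + 2 * D)
    (hA : ∀ v (i j : Fin M), Ev (A v) ((Bm M ^ (k + v)) i j)) (n j : ℕ) (hj : j < M) :
    Ev (A (padicValNat 2 (n + 1))) (coeff (M * n + j) (FF ^ (M + 1))) := by
  set v := padicValNat 2 (n + 1) with hv
  obtain ⟨q, hq⟩ : 2 ^ v ∣ n + 1 := pow_padicValNat_dvd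
  have hqodd : Odd q := by
    rw [← Nat.not_even_iff_odd]
    rintro ⟨c, hc⟩
    have h1 : 2 ^ (v + 1) ∣ n + 1 := ⟨c, by rw [hq, hc, pow_succ]; ring⟩
    exact pow_succ_padicValNat_not_dvd (by omega) h1
  have hq0 : 0 < q := hqodd.pos
  have e1 : 2 ^ (k + v) * q = M * n + j + (M - 1 - j + 1) := by
    rw [pow_add, mul_assoc, ← hq, ← hM, mul_add, mul_one]
    omega
  have h2 := coeff_psi M (k + v) q ⟨M - 1 - j, by omega⟩
  simp only at h2
  rw [e1, coeff_X_pow_mul] at h2
  rw [h2]
  refine sum_Ev _ _ _ (fun i => hA v _ i) ?_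
  have h3 := sum_parity M D hD q hqodd
  rw [← Fin.sum_univ_eq_sum_range (fun i => coeff q ((X : ℤ⟦X⟧) ^ (i + 1) * FF ^ (M + 1))) M] at h3
  exact h3


/-- power 1 -/
def C4_1 : Matrix (Fin 4) (Fin 4) ℤ := !![-5, -10, -1, 0; 1, 10, 5, 0; 0, -5, -10, -1; 0, 1, 10, 5]

/-- power 2 -/
def C4_2 : Matrix (Fin 4) (Fin 4) ℤ := !![15, -45, -35, 1; 5, 65, -1, -5; -5, -1, 65, 5; 1, -35, -45, 15]

/-- power 3 -/
def C4_3 : Matrix (Fin 4) (Fin 4) ℤ := !![-120, -424, 120, 40; 40, 600, 280, -24; 24, -280, -600, -40; -40, -120, 424, 120]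

/-- power 4 -/
def C4_4 : Matrix (Fin 4) (Fin 4) ℤ := !![176, -3600, -2800, 80; 400, 4176, -80, -400; -400, -80, 4176, 400; 80, -2800, -3600, 176]

/-- power 5 -/
def C4_5 : Matrix (Fin 4) (Fin 4) ℤ := !![-4480, -23680, 10624, 3200; 2176, 37760, 17280, -1920; 1920, -17280, -37760, -2176; -3200, -10624, 23680, 4480]

theorem pow4_1 : Bm 4 ^ 1 = C4_1 := by
  rw [pow_one]
  decide +kernel

theorem pow4_2 : Bm 4 ^ 2 = C4_2 := by
  have h : C4_1 * C4_1 = C4_2 := by decide +kernel
  rw [← h, ← pow4_1, ← pow_add]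

theorem pow4_3 : Bm 4 ^ 3 = C4_3 := by
  have h : C4_1 * C4_2 = C4_3 := by decide +kernel
  rw [← h, ← pow4_1, ← pow4_2, ← pow_add]

theorem pow4_4 : Bm 4 ^ 4 = C4_4 := by
  have h : C4_1 * C4_3 = C4_4 := by decide +kernel
  rw [← h, ← pow4_1, ← pow4_3, ← pow_add]

theorem pow4_5 : Bm 4 ^ 5 = C4_5 := by
  have h : C4_1 * C4_4 = C4_5 := by decide +kernel
  rw [← h, ← pow4_1, ← pow4_4, ← pow_add]

/-- power 1 -/
def C8_1 : Matrix (Fin 8) (Fin 8) ℤ := !![-9, -84, -126, -36, -1, 0, 0, 0; 1, 36, 126, 84, 9, 0, 0, 0; 0, -9, -84, -126, -36, -1, 0, 0; 0, 1, 36, 126, 84, 9, 0, 0; 0, 0, -9, -84, -126, -36, -1, 0; 0, 0, 1, 36, 126, 84, 9, 0; 0, 0, 0, -9, -84, -126, -36, -1; 0, 0, 0, 1, 36, 126, 84, 9]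

/-- power 2 -/
def C8_2 : Matrix (Fin 8) (Fin 8) ℤ := !![-3, -1170, -153, 4692, 891, -162, 1, 0; 27, 162, -3231, -3060, 1709, 306, -9, 0; -9, 306, 1709, -3060, -3231, 162, 27, 0; 1, -162, 891, 4692, -153, -1170, -3, 0; 0, -3, -1170, -153, 4692, 891, -162, 1; 0, 27, 162, -3231, -3060, 1709, 306, -9; 0, -9, 306, 1709, -3060, -3231, 162, 27; 0, 1, -162, 891, 4692, -153, -1170, -3]

/-- power 3 -/
def C8_3 : Matrix (Fin 8) (Fin 8) ℤ := !![-1143, -35799, 26541, 431613, 256347, -3429, -2385, -1; -81, 29583, 163179, -98277, -315315, -58995, 1369, 9; 387, -6669, -184785, -297873, 109449, 97273, 3717, -27; -171, -9243, 73737, 436041, 232703, -51057, -10269, 3; -3, 10269, 51057, -232703, -436041, -73737, 9243, 171; 27, -3717, -97273, -109449, 297873, 184785, 6669, -387; -9, -1369, 58995, 315315, 98277, -163179, -29583, 81; 1, 2385, 3429, -256347, -431613, -26541, 35799, 1143]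

/-- power 4 -/
def C8_4 : Matrix (Fin 8) (Fin 8) ℤ := !![-25512, -1000008, 6631416, 26437976, 2447496, -5358168, -201432, 2376; 30312, -495096, -10728504, -6105240, 18318264, 5176728, -264168, -1288; -10152, 1092600, 3021688, -20548584, -20276856, 1262952, 629928, -3960; -7704, -545976, 6215112, 23587368, -1001160, -7521192, -322280, 10296; 10296, -322280, -7521192, -1001160, 23587368, 6215112, -545976, -7704; -3960, 629928, 1262952, -20276856, -20548584, 3021688, 1092600, -10152; -1288, -264168, 5176728, 18318264, -6105240, -10728504, -495096, 30312; 2376, -201432, -5358168, 2447496, 26437976, 6631416, -1000008, -25512]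

/-- power 5 -/
def C8_5 : Matrix (Fin 8) (Fin 8) ℤ := !![-770400, -67102048, 244556064, 2015875872, 1006576608, -281205792, -43219872, 222816; -767904, 70081632, 455516640, -810143776, -1764789984, -235708128, 37674144, 252576; 1183968, -7557408, -670869408, -1134661536, 835941024, 568225952, 8633376, -665568; -476640, -51356640, 260742816, 1959564960, 958606944, -347762592, -54222624, 414944; -414944, 54222624, 347762592, -958606944, -1959564960, -260742816, 51356640, 476640; 665568, -8633376, -568225952, -835941024, 1134661536, 670869408, 7557408, -1183968; -252576, -37674144, 235708128, 1764789984, 810143776, -455516640, -70081632, 767904; -222816, 43219872, 281205792, -1006576608, -2015875872, -244556064, 67102048, 770400]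

/-- power 6 -/
def C8_6 : Matrix (Fin 8) (Fin 8) ℤ := !![-60168448, -2536088832, 34330639104, 123290816256, 1304315136, -36485938944, -1962796800, 45225216; 76992768, -2322350848, -42854130432, -14140659456, 105689604864, 31271028480, -1691635968, -35400960; -18213120, 4531643136, 7448558336, -108956530944, -105710734080, 6924351744, 3911383296, -14623488; -47066880, -2195921664, 33255836928, 117200773376, -5277940992, -39462232320, -2101600512, 57957120; 57957120, -2101600512, -39462232320, -5277940992, 117200773376, 33255836928, -2195921664, -47066880; -14623488, 3911383296, 6924351744, -105710734080, -108956530944, 7448558336, 4531643136, -18213120; -35400960, -1691635968, 31271028480, 105689604864, -14140659456, -42854130432, -2322350848, 76992768; 45225216, -1962796800, -36485938944, 1304315136, 123290816256, 34330639104, -2536088832, -60168448]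

/-- power 7 -/
def C8_7 : Matrix (Fin 8) (Fin 8) ℤ := !![-1994572800, -271929984000, 1194504956928, 9592771046400, 4502691951616, -1783476734976, -255218162688, 2369823744; -3015285760, 281474491392, 1868430504960, -4316932328448, -8901962486784, -1053785576448, 233674865664, 1373027328; 4695561216, -11324500992, -3016511167488, -5191966301184, 4483244473344, 2904497781760, 25991728128, -4042994688; -1772319744, -257201320960, 1163021073408, 9435978021888, 4499338798080, -1831166254080, -269356133376, 2623214592; -2623214592, 269356133376, 1831166254080, -4499338798080, -9435978021888, -1163021073408, 257201320960, 1772319744; 4042994688, -25991728128, -2904497781760, -4483244473344, 5191966301184, 3016511167488, 11324500992, -4695561216; -1373027328, -233674865664, 1053785576448, 8901962486784, 4316932328448, -1868430504960, -281474491392, 3015285760; -2369823744, 255218162688, 1783476734976, -4502691951616, -9592771046400, -1194504956928, 271929984000, 1994572800]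

/-- power 8 -/
def C8_8 : Matrix (Fin 8) (Fin 8) ℤ := !![-253978828800, -10779708874752, 168681775177728, 595279260131328, -10188401025024, -194312435245056, -11167063515136, 276546576384; 308612063232, -10746441179136, -197448137515008, -47876442071040, 541941502910464, 161961808011264, -8879068569600, -221317619712; -53584551936, 21154525028352, 27012920909824, -547496229298176, -528888319451136, 35085452009472, 20381921796096, -62378680320; -241250443264, -10141584334848, 167492169031680, 579411852288000, -26482930016256, -197763983106048, -11062664257536, 292965064704; 292965064704, -11062664257536, -197763983106048, -26482930016256, 579411852288000, 167492169031680, -10141584334848, -241250443264; -62378680320, 20381921796096, 35085452009472, -528888319451136, -547496229298176, 27012920909824, 21154525028352, -53584551936; -221317619712, -8879068569600, 161961808011264, 541941502910464, -47876442071040, -197448137515008, -10746441179136, 308612063232; 276546576384, -11167063515136, -194312435245056,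 -10188401025024, 595279260131328, 168681775177728, -10779708874752, -253978828800]

/-- power 9 -/
def C8_9 : Matrix (Fin 8) (Fin 8) ℤ := !![-8493899415552, -1289592014340096, 5831925437988864, 46816288932003840, 21582511243886592, -9324735686148096, -1313379317219328, 13655982702592; -13523949748224, 1316361499803648, 8753643209981952, -21680548323950592, -44150081997864960, -5047665453268992, 1216770557640704, 6887209992192; 21636785995776, -24548514103296, -14511647476973568, -25103048348565504, 22574664036679680, 14456696624414720, 105668393730048, -20943329918976; -7970330345472, -1272849667817472, 5582624800407552, 46263591695056896, 21908242349129728, -9180765304160256, -1330527939231744, 13699349839872; -13699349839872, 1330527939231744, 9180765304160256, -21908242349129728, -46263591695056896, -5582624800407552, 1272849667817472, 7970330345472; 20943329918976, -105668393730048, -14456696624414720, -22574664036679680, 25103048348565504, 14511647476973568, 24548514103296, -21636785995776;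 -6887209992192, -1216770557640704, 5047665453268992, 44150081997864960, 21680548323950592, -8753643209981952, -1316361499803648, 13523949748224; -13655982702592, 1313379317219328, 9324735686148096, -21582511243886592, -46816288932003840, -5831925437988864, 1289592014340096, 8493899415552]

/-- power 10 -/
def C8_10 : Matrix (Fin 8) (Fin 8) ℤ := !![-1213146919600128, -51382864975233024, 830518965399453696, 2919222492070150144, -72476514869575680, -977527079676149760, -57076374452305920, 1436283161542656; 1438077047537664, -51938311442006016, -955937130129653760, -207700021406859264, 2700507260013772800, 809075173919293440, -44504121517277184, -1154785667710976; -219279588065280, 102800542412832768, 120734019999236096, -2714160168776761344, -2618973324417171456, 174305746290475008, 101972303695577088, -294158363000832; -1201116694708224, -49133111801020416, 830819074820014080, 2860357931047845888, -131237907934740480, -979718671240003584, -55485378887680000, 1453822087790592; 1453822087790592, -55485378887680000,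 -979718671240003584, -131237907934740480, 2860357931047845888, 830819074820014080, -49133111801020416, -1201116694708224; -294158363000832, 101972303695577088, 174305746290475008, -2618973324417171456, -2714160168776761344, 120734019999236096, 102800542412832768, -219279588065280; -1154785667710976, -44504121517277184, 809075173919293440, 2700507260013772800, -207700021406859264, -955937130129653760, -51938311442006016, 1438077047537664; 1436283161542656, -57076374452305920, -977527079676149760, -72476514869575680, 2919222492070150144, 830518965399453696, -51382864975233024, -1213146919600128]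

theorem pow8_1 : Bm 8 ^ 1 = C8_1 := by
  rw [pow_one]
  decide +kernel

theorem pow8_2 : Bm 8 ^ 2 = C8_2 := by
  have h : C8_1 * C8_1 = C8_2 := by decide +kernel
  rw [← h, ← pow8_1, ← pow_add]

theorem pow8_3 : Bm 8 ^ 3 = C8_3 := by
  have h : C8_1 * C8_2 = C8_3 := by decide +kernel
  rw [← h, ← pow8_1, ← pow8_2, ← pow_add]

theorem pow8_4 : Bm 8 ^ 4 = C8_4 := by
  have h : C8_1 * C8_3 = C8_4 := by decide +kernel
  rw [← h, ← pow8_1, ← pow8_3, ← pow_add]

theorem pow8_5 : Bm 8 ^ 5 = C8_5 := by
  have h : C8_1 * C8_4 = C8_5 := by decide +kernel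
  rw [← h, ← pow8_1, ← pow8_4, ← pow_add]

theorem pow8_6 : Bm 8 ^ 6 = C8_6 := by
  have h : C8_1 * C8_5 = C8_6 := by decide +kernel
  rw [← h, ← pow8_1, ← pow8_5, ← pow_add]

theorem pow8_7 : Bm 8 ^ 7 = C8_7 := by
  have h : C8_1 * C8_6 = C8_7 := by decide +kernel
  rw [← h, ← pow8_1, ← pow8_6, ← pow_add]

theorem pow8_8 : Bm 8 ^ 8 = C8_8 := by
  have h : C8_1 * C8_7 = C8_8 := by decide +kernel
  rw [← h, ← pow8_1, ← pow8_7, ← pow_add]

theorem pow8_9 : Bm 8 ^ 9 = C8_9 := by
  have h : C8_1 * C8_8 = C8_9 := by decide +kernel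
  rw [← h, ← pow8_1, ← pow8_8, ← pow_add]

theorem pow8_10 : Bm 8 ^ 10 = C8_10 := by
  have h : C8_1 * C8_9 = C8_10 := by decide +kernel
  rw [← h, ← pow8_1, ← pow8_9, ← pow_add]


theorem ch4 : Bm 4 ^ 4 = (80 : ℤ) • Bm 4 ^ 2 - (1024 : ℤ) • (1 : Matrix (Fin 4) (Fin 4) ℤ) := by
  rw [pow4_4, pow4_2]
  decide +kernel

theorem ch8 : Bm 8 ^ 8 = (6560 : ℤ) • Bm 8 ^ 6 - (8472576 : ℤ) • Bm 8 ^ 4
    + (2235564032 : ℤ) • Bm 8 ^ 2 - (68719476736 : ℤ) • (1 : Matrix (Fin 8) (Fin 8) ℤ) := by
  rw [pow8_8, pow8_6, pow8_4, pow8_2]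
  decide +kernel

theorem rec4 (s : ℕ) (i j : Fin 4) :
    (Bm 4 ^ (s + 4)) i j = 80 * (Bm 4 ^ (s + 2)) i j - 1024 * (Bm 4 ^ s) i j := by
  have : Bm 4 ^ (s + 4) = (80 : ℤ) • Bm 4 ^ (s + 2) - (1024 : ℤ) • Bm 4 ^ s := by
    rw [pow_add, ch4, mul_sub, mul_smul_comm, mul_smul_comm, mul_one, ← pow_add]
  rw [this, Matrix.sub_apply, Matrix.smul_apply, Matrix.smul_apply, smul_eq_mul, smul_eq_mul]

theorem rec8 (s : ℕ) (i j : Fin 8) :
    (Bm 8 ^ (s + 8)) i j = 6560 * (Bm 8 ^ (s + 6)) i j - 8472576 * (Bm 8 ^ (s + 4)) i j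
      + 2235564032 * (Bm 8 ^ (s + 2)) i j - 68719476736 * (Bm 8 ^ s) i j := by
  have : Bm 8 ^ (s + 8) = (6560 : ℤ) • Bm 8 ^ (s + 6) - (8472576 : ℤ) • Bm 8 ^ (s + 4)
      + (2235564032 : ℤ) • Bm 8 ^ (s + 2) - (68719476736 : ℤ) • Bm 8 ^ s := by
    rw [pow_add, ch8, mul_sub, mul_add, mul_sub, mul_smul_comm, mul_smul_comm, mul_smul_comm,
      mul_smul_comm, mul_one, ← pow_add, ← pow_add, ← pow_add]
  rw [this, Matrix.sub_apply, Matrix.add_apply, Matrix.sub_apply, Matrix.smul_apply,
    Matrix.smul_apply, Matrix.smul_apply, Matrix.smul_apply, smul_eq_mul, smul_eq_mul, smul_eq_mul,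
    smul_eq_mul]

/-- the exponents for `k = 2` -/
def A4 (v : ℕ) : ℕ := 4 * ((v + 1) / 2) - v % 2

/-- the exponents for `k = 3` -/
def A8 (v : ℕ) : ℕ := 5 * ((v + 1) / 2) - 2 * (v % 2)

theorem Ev4 (v : ℕ) (i j : Fin 4) : Ev (A4 v) ((Bm 4 ^ (2 + v)) i j) := by
  induction v using Nat.strong_induction_on with
  | _ v ih =>
    rcases Nat.lt_or_ge v 4 with h | h
    · interval_cases v

      · rw [show 2 + 0 = 2 by norm_num, pow4_2]
        have key : ∀ i j : Fin 4, C4_2 i j % 2 ^ (A4 0 + 1) = 2 ^ A4 0 := by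
          decide +kernel
        exact Ev_of_mod (key i j)

      · rw [show 2 + 1 = 3 by norm_num, pow4_3]
        have key : ∀ i j : Fin 4, C4_3 i j % 2 ^ (A4 1 + 1) = 2 ^ A4 1 := by
          decide +kernel
        exact Ev_of_mod (key i j)

      · rw [show 2 + 2 = 4 by norm_num, pow4_4]
        have key : ∀ i j : Fin 4, C4_4 i j % 2 ^ (A4 2 + 1) = 2 ^ A4 2 := by
          decide +kernel
        exact Ev_of_mod (key i j)

      · rw [show 2 + 3 = 5 by norm_num, pow4_5]
        have key : ∀ i j : Fin 4, C4_5 i j % 2 ^ (A4 3 + 1) = 2 ^ A4 3 := by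
          decide +kernel
        exact Ev_of_mod (key i j)

    · obtain ⟨w, rfl⟩ : ∃ w, v = w + 4 := ⟨v - 4, by omega⟩
      obtain ⟨o0, ho0, h0⟩ := ih w (by omega)
      obtain ⟨o2, ho2, h2⟩ := ih (w + 2) (by omega)
      have e2 : A4 (w + 2) = A4 w + 4 := by unfold A4; omega
      have e4 : A4 (w + 4) = A4 w + 8 := by unfold A4; omega
      rw [e4]
      refine ⟨5 * o2 - 4 * o0, ?_, ?_⟩
      · obtain ⟨t, rfl⟩ := ho2
        exact ⟨5 * t + 2 - 2 * o0, by ring⟩
      · have hr := rec4 (2 + w) i j
        rw [show 2 + w + 4 = 2 + (w + 4) by ring, show 2 + w + 2 = 2 + (w + 2) by ring] at hr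
        rw [hr, h0, h2, e2, pow_add, pow_add]
        ring

theorem Ev8 (v : ℕ) (i j : Fin 8) : Ev (A8 v) ((Bm 8 ^ (3 + v)) i j) := by
  induction v using Nat.strong_induction_on with
  | _ v ih =>
    rcases Nat.lt_or_ge v 8 with h | h
    · interval_cases v

      · rw [show 3 + 0 = 3 by norm_num, pow8_3]
        have key : ∀ i j : Fin 8, C8_3 i j % 2 ^ (A8 0 + 1) = 2 ^ A8 0 := by
          decide +kernel
        exact Ev_of_mod (key i j)

      · rw [show 3 + 1 = 4 by norm_num, pow8_4]
        have key : ∀ i j : Fin 8, C8_4 i j % 2 ^ (A8 1 + 1) = 2 ^ A8 1 := by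
          decide +kernel
        exact Ev_of_mod (key i j)

      · rw [show 3 + 2 = 5 by norm_num, pow8_5]
        have key : ∀ i j : Fin 8, C8_5 i j % 2 ^ (A8 2 + 1) = 2 ^ A8 2 := by
          decide +kernel
        exact Ev_of_mod (key i j)

      · rw [show 3 + 3 = 6 by norm_num, pow8_6]
        have key : ∀ i j : Fin 8, C8_6 i j % 2 ^ (A8 3 + 1) = 2 ^ A8 3 := by
          decide +kernel
        exact Ev_of_mod (key i j)

      · rw [show 3 + 4 = 7 by norm_num, pow8_7]
        have key : ∀ i j : Fin 8, C8_7 i j % 2 ^ (A8 4 + 1) = 2 ^ A8 4 := by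
          decide +kernel
        exact Ev_of_mod (key i j)

      · rw [show 3 + 5 = 8 by norm_num, pow8_8]
        have key : ∀ i j : Fin 8, C8_8 i j % 2 ^ (A8 5 + 1) = 2 ^ A8 5 := by
          decide +kernel
        exact Ev_of_mod (key i j)

      · rw [show 3 + 6 = 9 by norm_num, pow8_9]
        have key : ∀ i j : Fin 8, C8_9 i j % 2 ^ (A8 6 + 1) = 2 ^ A8 6 := by
          decide +kernel
        exact Ev_of_mod (key i j)

      · rw [show 3 + 7 = 10 by norm_num, pow8_10]
        have key : ∀ i j : Fin 8, C8_10 i j % 2 ^ (A8 7 + 1) = 2 ^ A8 7 := by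
          decide +kernel
        exact Ev_of_mod (key i j)

    · obtain ⟨w, rfl⟩ : ∃ w, v = w + 8 := ⟨v - 8, by omega⟩
      obtain ⟨o0, ho0, h0⟩ := ih w (by omega)
      obtain ⟨o2, ho2, h2⟩ := ih (w + 2) (by omega)
      obtain ⟨o4, ho4, h4⟩ := ih (w + 4) (by omega)
      obtain ⟨o6, ho6, h6⟩ := ih (w + 6) (by omega)
      have e2 : A8 (w + 2) = A8 w + 5 := by
        unfold A8; rcases Nat.even_or_odd' w with ⟨t, rfl | rfl⟩ <;> omega
      have e4 : A8 (w + 4) = A8 w + 10 := by
        unfold A8; rcases Nat.even_or_odd' w with ⟨t, rfl | rfl⟩ <;> omega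
      have e6 : A8 (w + 6) = A8 w + 15 := by
        unfold A8; rcases Nat.even_or_odd' w with ⟨t, rfl | rfl⟩ <;> omega
      have e8 : A8 (w + 8) = A8 w + 20 := by
        unfold A8; rcases Nat.even_or_odd' w with ⟨t, rfl | rfl⟩ <;> omega
      rw [e8]
      refine ⟨205 * o6 - 8274 * o4 + 68224 * o2 - 65536 * o0, ?_, ?_⟩
      · obtain ⟨t, rfl⟩ := ho6
        exact ⟨205 * t + 102 - 4137 * o4 + 34112 * o2 - 32768 * o0, by ring⟩
      · have hr := rec8 (3 + w) i j
        rw [show 3 + w + 8 = 3 + (w + 8) by ring, show 3 + w + 6 = 3 + (w + 6) by ring,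
          show 3 + w + 4 = 3 + (w + 4) by ring, show 3 + w + 2 = 3 + (w + 2) by ring] at hr
        rw [hr, h0, h2, h4, h6, e2, e4, e6, pow_add, pow_add, pow_add, pow_add]
        ring

theorem val5 (n j : ℕ) (hj : j < 4) :
    Ev (A4 (padicValNat 2 (n + 1))) (coeff (4 * n + j) (FF ^ 5)) :=
  val_general 2 4 (by norm_num) A4 (2 * X - 3 * X ^ 2 + 2 * X ^ 3 - X ^ 4) (by ring) Ev4 n j hj

theorem val9 (n j : ℕ) (hj : j < 8) :
    Ev (A8 (padicValNat 2 (n + 1))) (coeff (8 * n + j) (FF ^ 9)) :=
  val_general 3 8 (by norm_num) A8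
    (4 * X - 14 * X ^ 2 + 28 * X ^ 3 - 35 * X ^ 4 + 28 * X ^ 5 - 14 * X ^ 6 + 4 * X ^ 7 - X ^ 8)
    (by ring) Ev8 n j hj

/-- the matrix for the 17-th power -/
def C16 : Matrix (Fin 16) (Fin 16) ℤ := !![-17, -680, -6188, -19448, -24310, -12376, -2380, -136, -1, 0, 0, 0, 0, 0, 0, 0; 1, 136, 2380, 12376, 24310, 19448, 6188, 680, 17, 0, 0, 0, 0, 0, 0, 0; 0, -17, -680, -6188, -19448, -24310, -12376, -2380, -136, -1, 0, 0, 0, 0, 0, 0; 0, 1, 136, 2380, 12376, 24310, 19448, 6188, 680, 17, 0, 0, 0, 0, 0, 0; 0, 0, -17, -680, -6188, -19448, -24310, -12376, -2380, -136, -1, 0, 0, 0, 0, 0; 0, 0, 1, 136, 2380, 12376, 24310, 19448, 6188, 680, 17, 0, 0, 0, 0, 0; 0, 0, 0, -17, -680, -6188, -19448, -24310, -12376, -2380, -136, -1, 0, 0, 0, 0; 0, 0, 0, 1, 136, 2380, 12376, 24310, 19448, 6188, 680, 17, 0, 0, 0, 0; 0, 0, 0, 0, -17, -680, -6188, -19448, -24310, -12376, -2380, -136, -1, 0, 0, 0; 0, 0, 0, 0, 1, 136, 2380, 12376, 24310, 19448, 6188, 680, 17, 0, 0, 0; 0, 0, 0, 0, 0, -17, -680, -6188, -19448, -24310, -12376,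 -2380, -136, -1, 0, 0; 0, 0, 0, 0, 0, 1, 136, 2380, 12376, 24310, 19448, 6188, 680, 17, 0, 0; 0, 0, 0, 0, 0, 0, -17, -680, -6188, -19448, -24310, -12376, -2380, -136, -1, 0; 0, 0, 0, 0, 0, 0, 1, 136, 2380, 12376, 24310, 19448, 6188, 680, 17, 0; 0, 0, 0, 0, 0, 0, 0, -17, -680, -6188, -19448, -24310, -12376, -2380, -136, -1; 0, 0, 0, 0, 0, 0, 0, 1, 136, 2380, 12376, 24310, 19448, 6188, 680, 17]

theorem C16_eq : Bm 16 = C16 := by decide +kernel

/-- column 0 -/
def K0 : Fin 16 → ℤ := ![1, 0, 0, 0, 0, 0, 0, 0, 0, 0, 0, 0, 0, 0, 0, 0]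

/-- column 1 -/
def K1 : Fin 16 → ℤ := ![-17, 1, 0, 0, 0, 0, 0, 0, 0, 0, 0, 0, 0, 0, 0, 0]

/-- column 2 -/
def K2 : Fin 16 → ℤ := ![-391, 119, -17, 1, 0, 0, 0, 0, 0, 0, 0, 0, 0, 0, 0, 0]

/-- column 3 -/
def K3 : Fin 16 → ℤ := ![11475, -12291, 3349, 187, -391, 119, -17, 1, 0, 0, 0, 0, 0, 0, 0, 0]

/-- column 4 -/
def K4 : Fin 16 → ℤ := ![-8124793, 1329417, 1693761, -1382321, 321997, 177123, -167365, 44149, 11475, -12291, 3349, 187, -391, 119, -17, 1]

/-- column 5 -/
def K5 : Fin 16 → ℤ := ![6008995304, -2636780648, -1223926696, 2258525480, -1029408344, -375201832, 776939032, -384695448, -83712216, 233236056, -128607720, -8264856, 58037864, -36253928, 2383960, 11466024]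

/-- column 6 -/
def K6 : Fin 16 → ℤ := ![-6787585107264, -3091186722496, 7353759095616, -3978458801984, -1806839936448, 4256679596480, -2276192789568, -1039634464704, 2402162428352, -1263460009408, -579915418560, 1310203039680, -674041118400, -316909720896, 689953062080, -343038447808]

/-- column 7 -/
def K7 : Fin 16 → ℤ := ![30885340548391424, -8054218184425984, -18350699491004928, 23558054230520320, -6366814438084096, -13710817046516224, 17852293724864000, -5035591715757568, -10117236228185600, 13409007739026944, -3943099979043328, -7399580257586688, 9982134506631680, -3054751935255040, -5367659522572800, 7386169712976384]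

/-- column 8 -/
def K8 : Fin 16 → ℤ := ![-56982263246829617152, -67736104687813558272, 116377183641108119552, -49161838846416420864, -59071134428569894912, 100850162091807571968, -42163552652719521792, -51541491877990400000, 87274857215315968000, -36136613099265884160, -44902911463270481920, 75453465076981137408, -30954911799821041664, -38958961165411975168, 65013618736792633344, -26445839383051665408]

/-- column 9 -/
def K9 : Fin 16 → ℤ := ![578155974438826307223552, -109876244314663760691200, -443971896068160388857856, 539154521932526347354112, -104231343633686629711872, -411691655776027427733504, 501836607965177424904192, -98392455150140920430592, -382073745322860227067904, 467219626081416348172288, -92556831538856709586944, -354746997819713789362176, 435176819040997583093760, -87671015138345521774592, -328854339870513882202112, 405038508762146334834688]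

theorem K1_eq : C16.mulVec K0 = K1 := by decide +kernel

theorem K2_eq : C16.mulVec K1 = K2 := by decide +kernel

theorem K3_eq : C16.mulVec K2 = K3 := by decide +kernel

theorem K4_eq : C16.mulVec K3 = K4 := by decide +kernel

theorem K5_eq : C16.mulVec K4 = K5 := by decide +kernel

theorem K6_eq : C16.mulVec K5 = K6 := by decide +kernel

theorem K7_eq : C16.mulVec K6 = K7 := by decide +kernel

theorem K8_eq : C16.mulVec K7 = K8 := by decide +kernel

theorem K9_eq : C16.mulVec K8 = K9 := by decide +kernel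


theorem col16 : (Bm 16 ^ 9).mulVec K0 = K9 := by
  rw [C16_eq]
  have h : ∀ (s : ℕ) (v : Fin 16 → ℤ), (C16 ^ (s + 1)).mulVec v = (C16 ^ s).mulVec (C16.mulVec v) :=
    fun s v => by rw [pow_succ, Matrix.mulVec_mulVec]
  rw [h 8, K1_eq, h 7, K2_eq, h 6, K3_eq, h 5, K4_eq, h 4, K5_eq, h 3, K6_eq, h 2, K7_eq, h 1,
    K8_eq, h 0, K9_eq, pow_zero, Matrix.one_mulVec]

theorem coeff17 (i : Fin 16) :
    coeff (2 ^ 9 * 1) ((X : ℤ⟦X⟧) ^ (i.1 + 1) * FF ^ 17) = K9 i := by
  have h1 := coeff_psi 16 9 1 i
  have h2 := congrFun col16 i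
  rw [Matrix.mulVec, dotProduct] at h2
  rw [h1, ← h2]
  refine sum_congr rfl fun j _ => ?_
  congr 1
  rw [add_comm j.1 1, pow_add, pow_one, mul_assoc, coeff_succ_X_mul]
  fin_cases j
  · simp only [pow_zero, one_mul]
    rw [coeff_FF_pow 17 0 1 (by norm_num)]
    unfold Fp
    simp [K0]
  all_goals
    simp only [K0]
    rw [coeff_X_pow_mul', if_neg (by norm_num)]
    rfl


/-- `t_17(496)` -/
theorem t496 : coeff 496 (FF ^ 17) = 405038508762146334834688 := by
  have h := coeff17 15
  rw [show 2 ^ 9 * 1 = 496 + ((15 : Fin 16).1 + 1) by decide, coeff_X_pow_mul] at h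
  rw [h]
  decide +kernel

/-- `t_17(504)` -/
theorem t504 : coeff 504 (FF ^ 17) = -98392455150140920430592 := by
  have h := coeff17 7
  rw [show 2 ^ 9 * 1 = 504 + ((7 : Fin 16).1 + 1) by decide, coeff_X_pow_mul] at h
  rw [h]
  decide +kernel

theorem val496 : Ev 18 (coeff 496 (FF ^ 17)) := by
  rw [t496]; exact Ev_of_mod (by decide +kernel)

theorem val504 : Ev 19 (coeff 504 (FF ^ 17)) := by
  rw [t504]; exact Ev_of_mod (by decide +kernel)

end

end Pool.Agent.X13.CB
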