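import Pool.Agent.X13.CB.TM

/-!
# A finite automaton for `∏ (1-x^(2^i))^(-11)` modulo 32
-/

namespace Pool.Agent.X13.CB

open PowerSeries Finset

/-! ### computable part -/

/-- multiply by `1 - x` -/
def lsub : ℤ → List ℤ → List ℤ
  | a, [] => [-a]
  | a, b :: l => (b - a) :: lsub b l

/-- multiply by `1 - x` -/
def m1 (l : List ℤ) : List ℤ := lsub 0 l

/-- even part -/
def ev : List ℤ → List ℤ
  | [] => []
  | [a] => [a]
  | a :: _ :: l => a :: ev l

/-- odd part -/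
def od : List ℤ → List ℤ
  | [] => []
  | [_] => []
  | _ :: b :: l => b :: od l

/-- reduce modulo 32 and strip the trailing zeros -/
def red : List ℤ → List ℤ
  | [] => []
  | a :: l => match red l with
    | [] => if a % 32 = 0 then [] else [a % 32]
    | b :: l' => (a % 32) :: b :: l'

/-- transition for the digit 0 -/
def st0 (l : List ℤ) : List ℤ := red (ev (m1 (m1 (m1 (m1 (m1 l))))))

/-- transition for the digit 1 -/
def st1 (l : List ℤ) : List ℤ := red (od (m1 (m1 (m1 (m1 (m1 l))))))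

/-- the reachable states -/
def Reach : List (List ℤ) := [
  [1, 16, 24, 16, 28, 16, 8, 16, 6, 16, 8, 16, 28, 16, 24, 16, 1],
  [1, 18, 1, 24, 2, 12, 10, 24, 29, 18, 21],
  [11, 14, 3, 8, 22, 20, 30, 8, 31, 14, 31],
  [1, 17, 5, 5, 3, 19, 23, 23],
  [13, 29, 1, 1, 7, 23, 11, 11],
  [11, 11, 23, 7, 1, 1, 29, 13],
  [23, 23, 19, 3, 5, 5, 17, 1],
  [1, 26, 23, 12, 31, 26, 9],
  [12, 12, 24, 24, 28, 28],
  [13, 18, 11, 28, 19, 18, 21],
  [28, 28, 24, 24, 12, 12],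
  [11, 14, 13, 4, 21, 14, 19],
  [20, 20, 8, 8, 4, 4],
  [23, 6, 1, 20, 9, 6, 31],
  [4, 4, 8, 8, 20, 20],
  [1, 31, 10, 30, 5, 19],
  [21, 19, 18, 6, 9, 23],
  [12, 20, 24, 8, 28, 4],
  [16, 0, 0, 0, 16],
  [13, 19, 2, 6, 1, 23],
  [17, 23, 10, 14, 21, 11],
  [28, 4, 24, 8, 12, 20],
  [11, 21, 14, 10, 23, 17],
  [23, 1, 6, 2, 19, 13],
  [20, 12, 8, 24, 4, 28],
  [23, 9, 6, 18, 19, 21],
  [19, 5, 30, 10, 31, 1],
  [4, 28, 8, 24, 20, 12],
  [1, 25, 2, 26, 29, 13],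
  [26, 24, 28, 24, 26],
  [21, 5, 10, 18, 1, 9],
  [10, 24, 28, 24, 10],
  [24, 0, 16, 0, 24],
  [13, 5, 26, 18, 25, 9],
  [18, 24, 12, 24, 18],
  [17, 1, 2, 10, 13, 21],
  [2, 24, 12, 24, 2],
  [11, 19, 22, 30, 31, 15],
  [30, 8, 20, 8, 30],
  [23, 7, 14, 6, 27, 19],
  [14, 8, 20, 8, 14],
  [8, 0, 16, 0, 8],
  [23, 31, 14, 22, 27, 11],
  [22, 8, 4, 8, 22],
  [19, 3, 6, 30, 7, 31],
  [6, 8, 4, 8, 6],
  [1, 15, 26, 14, 21, 19],
  [20, 0, 8, 0, 4],
  [26, 8, 12, 8, 10],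
  [22, 24, 20, 24, 6],
  [21, 3, 2, 22, 25, 23],
  [28, 0, 24, 0, 12],
  [10, 8, 12, 8, 26],
  [6, 24, 20, 24, 22],
  [13, 3, 18, 22, 17, 23],
  [4, 0, 8, 0, 20],
  [18, 8, 28, 8, 2],
  [30, 24, 4, 24, 14],
  [17, 7, 26, 30, 5, 11],
  [12, 0, 24, 0, 28],
  [2, 8, 28, 8, 18],
  [14, 24, 4, 24, 30],
  [11, 5, 30, 26, 7, 17],
  [23, 17, 22, 18, 3, 13],
  [23, 25, 22, 2, 3, 21],
  [19, 21, 14, 26, 15, 1],
  [20, 16, 24, 16, 20],
  [28, 16, 8, 16, 28],
  [4, 16, 24, 16, 4],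
  [12, 16, 8, 16, 12]]

/-- the state is good -/
def good : List ℤ → Bool
  | [] => false
  | a :: _ => a % 32 != 0

theorem Reach_closed : Reach.all (fun l => Reach.contains (st0 l) && Reach.contains (st1 l) && good l)
    = true := by decide +kernel

theorem Reach_start : Reach.contains (red (m1^[16] [1])) = true := by decide +kernel


/-! ### meaning of the lists -/

noncomputable section

/-- the polynomial of a list -/
def pol : List ℤ → ℤ⟦X⟧
  | [] => 0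
  | a :: l => C a + X * pol l

theorem pol_lsub (a : ℤ) (l : List ℤ) : pol (lsub a l) = (1 - X) * pol l - C a := by
  induction l generalizing a with
  | nil => simp [lsub, pol]
  | cons b l ih =>
    simp only [lsub, pol, ih, map_sub]
    ring

theorem pol_m1 (l : List ℤ) : pol (m1 l) = (1 - X) * pol l := by
  unfold m1
  rw [pol_lsub, map_zero, sub_zero]

theorem pol_m1_iter (k : ℕ) (l : List ℤ) : pol (m1^[k] l) = (1 - X) ^ k * pol l := by
  induction k generalizing l with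
  | zero => simp
  | succ k ih => rw [Function.iterate_succ_apply, ih, pol_m1]; ring

/-- odd section -/
def Uo : ℤ⟦X⟧ →ₗ[ℤ] ℤ⟦X⟧ where
  toFun f := PowerSeries.mk fun n => coeff (2 * n + 1) f
  map_add' f g := by ext n; simp
  map_smul' c f := by
    ext n
    rw [coeff_mk, RingHom.id_apply, map_smul, map_smul, coeff_mk]

theorem coeff_Uo (f : ℤ⟦X⟧) (n : ℕ) : coeff n (Uo f) = coeff (2 * n + 1) f := by
  show coeff n (PowerSeries.mk fun n => coeff (2 * n + 1) f) = _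
  rw [coeff_mk]

theorem Up_X_mul (f : ℤ⟦X⟧) : Up (X * f) = X * Uo f := by
  ext n
  cases n with
  | zero => rw [coeff_Up]; simp
  | succ n =>
    rw [coeff_Up, coeff_succ_X_mul, coeff_Uo, show 2 * (n + 1) = 2 * n + 1 + 1 by ring,
      coeff_succ_X_mul]

theorem Uo_V_mul (g f : ℤ⟦X⟧) : Uo (V g * f) = g * Uo f := by
  have h : X * Uo (V g * f) = X * (g * Uo f) := by
    rw [← Up_X_mul, mul_left_comm, Up_V_mul, Up_X_mul]; ring
  exact mul_left_cancel₀ X_ne_zero h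

theorem Uo_X_mul (f : ℤ⟦X⟧) : Uo (X * f) = Up f := by
  ext n
  rw [coeff_Uo, coeff_succ_X_mul, coeff_Up]

theorem Up_C (a : ℤ) : Up (C a) = C a := by
  ext n
  rw [coeff_Up, coeff_C, coeff_C]
  rcases Nat.eq_zero_or_pos n with rfl | h
  · simp
  · rw [if_neg (by omega), if_neg (by omega)]

theorem Uo_C (a : ℤ) : Uo (C a) = 0 := by
  ext n
  rw [coeff_Uo, coeff_C, if_neg (by omega), map_zero]

theorem Up_pol (l : List ℤ) : Up (pol l) = pol (ev l) := by
  induction l using ev.induct with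
  | case1 => simp [pol, ev]
  | case2 a => simp only [pol, ev, mul_zero, add_zero, Up_C]
  | case3 a b l ih =>
    simp only [pol, ev]
    rw [map_add, Up_C, Up_X_mul, map_add, Uo_C, Uo_X_mul, zero_add, ih]

theorem Uo_pol (l : List ℤ) : Uo (pol l) = pol (od l) := by
  induction l using od.induct with
  | case1 => simp [pol, od]
  | case2 a => simp only [pol, od, mul_zero, add_zero, Uo_C]
  | case3 a b l ih =>
    simp only [pol, od]
    rw [map_add, Uo_C, Uo_X_mul, zero_add, map_add, Up_C, Up_X_mul, ih]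

theorem pol_red (l : List ℤ) : ∃ h : ℤ⟦X⟧, pol l = pol (red l) + 32 * h := by
  have h32 : (32 : ℤ⟦X⟧) = C (32 : ℤ) := (map_ofNat C 32).symm
  have hmod : ∀ a : ℤ, (C a : ℤ⟦X⟧) = C (a % 32) + 32 * C (a / 32) := fun a => by
    rw [h32, ← map_mul, ← map_add, Int.emod_add_mul_ediv]
  induction l with
  | nil => exact ⟨0, by simp [pol, red]⟩
  | cons a l ih =>
    obtain ⟨h, hh⟩ := ih
    rw [red]
    rcases hr : red l with _ | ⟨b, l'⟩
    · rw [hr] at hh
      simp only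
      split_ifs with h0
      · refine ⟨C (a / 32) + X * h, ?_⟩
        simp only [pol] at hh ⊢
        rw [hh, hmod a, h0, map_zero]; ring
      · refine ⟨C (a / 32) + X * h, ?_⟩
        simp only [pol] at hh ⊢
        rw [hh, hmod a]
        ring
    · rw [hr] at hh
      simp only
      refine ⟨C (a / 32) + X * h, ?_⟩
      simp only [pol] at hh ⊢
      rw [hh, hmod a]
      ring

theorem FF_pow_eq (m : ℕ) : FF ^ m = V (FF ^ m) * (1 - X) ^ m := by
  conv_lhs => rw [FF_eq]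
  rw [mul_pow, map_pow]; ring

theorem mul_h (f g h : ℤ⟦X⟧) (e : f = g + 32 * h) (n : ℕ) (F : ℤ⟦X⟧) :
    coeff n (F * f) % 32 = coeff n (F * g) % 32 := by
  have h32 : (32 : ℤ⟦X⟧) = C (32 : ℤ) := (map_ofNat C 32).symm
  have : F * f = F * g + C 32 * (F * h) := by rw [e, h32]; ring
  rw [this, map_add, coeff_C_mul, Int.add_mul_emod_self_left]

theorem st0_spec (l : List ℤ) (n : ℕ) :
    coeff (2 * n) (FF ^ 5 * pol l) % 32 = coeff n (FF ^ 5 * pol (st0 l)) % 32 := by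
  have h1 : Up (FF ^ 5 * pol l) = FF ^ 5 * pol (ev (m1^[5] l)) := by
    conv_lhs => rw [FF_pow_eq]
    rw [mul_assoc, ← pol_m1_iter, Up_V_mul, Up_pol]
  rw [← coeff_Up, h1]
  obtain ⟨h, hh⟩ := pol_red (ev (m1^[5] l))
  exact mul_h _ _ h hh n _

theorem st1_spec (l : List ℤ) (n : ℕ) :
    coeff (2 * n + 1) (FF ^ 5 * pol l) % 32 = coeff n (FF ^ 5 * pol (st1 l)) % 32 := by
  have h1 : Uo (FF ^ 5 * pol l) = FF ^ 5 * pol (od (m1^[5] l)) := by
    conv_lhs => rw [FF_pow_eq]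
    rw [mul_assoc, ← pol_m1_iter, Uo_V_mul, Uo_pol]
  rw [← coeff_Uo, h1]
  obtain ⟨h, hh⟩ := pol_red (od (m1^[5] l))
  exact mul_h _ _ h hh n _

theorem Reach_spec {l : List ℤ} (h : l ∈ Reach) :
    st0 l ∈ Reach ∧ st1 l ∈ Reach ∧ good l = true := by
  have := List.all_eq_true.mp Reach_closed l h
  simp only [Bool.and_eq_true, List.contains_iff_mem] at this
  exact ⟨this.1.1, this.1.2, this.2⟩

theorem coeff_zero_FF_pow (m : ℕ) : constantCoeff (FF ^ m) = 1 := by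
  rw [map_pow]
  have : constantCoeff FF = 1 := by
    rw [← coeff_zero_eq_constantCoeff_apply]
    unfold FF
    rw [coeff_mk]
    unfold Fp
    simp
  rw [this, one_pow]

theorem Reach_ne (n : ℕ) : ∀ l ∈ Reach, coeff n (FF ^ 5 * pol l) % 32 ≠ 0 := by
  induction n using Nat.strong_induction_on with
  | _ n ih =>
    intro l hl
    obtain ⟨h0, h1, h2⟩ := Reach_spec hl
    rcases Nat.eq_zero_or_pos n with rfl | hn
    · rcases l with _ | ⟨a, l⟩
      · exact absurd h2 (by simp [good])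
      · rw [coeff_zero_eq_constantCoeff_apply, map_mul, coeff_zero_FF_pow, one_mul]
        simp only [pol, map_add, map_mul, constantCoeff_X, zero_mul, add_zero,
          constantCoeff_C]
        simpa [good] using h2
    · rcases Nat.even_or_odd' n with ⟨k, rfl | rfl⟩
      · rw [st0_spec]
        exact ih k (by omega) _ h0
      · rw [st1_spec]
        exact ih k (by omega) _ h1

/-- `(F (1-x))^16 ≡ 1 (mod 32)` -/
theorem FF_16 : ∃ h : ℤ⟦X⟧, (FF * (1 - X)) ^ 16 = 1 + 32 * h := by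
  obtain ⟨G, hG⟩ := FF_parity
  have h1 : FF * (1 - X) = 1 + 2 * (G * (1 - X)) := by
    rw [hG]
    linear_combination one_sub_mul_y
  set g := G * (1 - X)
  have h2 : (FF * (1 - X)) ^ 2 = 1 + 4 * (g + g ^ 2) := by rw [h1]; ring
  set g2 := g + g ^ 2
  have h4 : (FF * (1 - X)) ^ 4 = 1 + 8 * (g2 + 2 * g2 ^ 2) := by
    rw [show (4 : ℕ) = 2 * 2 by norm_num, pow_mul, h2]; ring
  set g4 := g2 + 2 * g2 ^ 2
  have h8 : (FF * (1 - X)) ^ 8 = 1 + 16 * (g4 + 4 * g4 ^ 2) := by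
    rw [show (8 : ℕ) = 4 * 2 by norm_num, pow_mul, h4]; ring
  set g8 := g4 + 4 * g4 ^ 2
  refine ⟨g8 + 8 * g8 ^ 2, ?_⟩
  rw [show (16 : ℕ) = 8 * 2 by norm_num, pow_mul, h8]; ring

theorem PP_mul_Fp (N : ℕ) : PP N * Fp N = 1 := by
  unfold PP Fp
  rw [← prod_mul_distrib]
  exact prod_eq_one fun i _ => by rw [mul_comm]; exact gi_mul i

theorem BB_mul_FF (M : ℕ) : BB M * FF ^ M = 1 := by
  rw [← sub_eq_zero]
  refine eq_of_dvd_all fun N => ?_
  have h1 : (X : ℤ⟦X⟧) ^ N ∣ BB M - PP N ^ M := by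
    rw [X_pow_dvd_iff]
    intro n hn
    rw [map_sub, coeff_PP_stable M n N (by omega)]
    unfold BB
    rw [coeff_mk, sub_self]
  have h2 := FF_pow_sub_Fp M N
  have h3 : PP N ^ M * Fp N ^ M = 1 := by rw [← mul_pow, PP_mul_Fp, one_pow]
  have e : BB M * FF ^ M - 1 = (BB M - PP N ^ M) * FF ^ M + PP N ^ M * (FF ^ M - Fp N ^ M) := by
    linear_combination h3
  rw [e]
  exact dvd_add (Dvd.dvd.mul_right h1 _) (Dvd.dvd.mul_left h2 _)

theorem BB11 : ∃ h : ℤ⟦X⟧, BB 11 = FF ^ 5 * (1 - X) ^ 16 + 32 * h := by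
  obtain ⟨h, hh⟩ := FF_16
  refine ⟨-(h * BB 11), ?_⟩
  have h1 := BB_mul_FF 11
  linear_combination (-BB 11) * hh + (FF ^ 5 * (1 - X) ^ 16) * h1

/-- `32` never divides the number of 11-coloured binary partitions -/
theorem bc11 (n : ℕ) : ¬ (32 : ℤ) ∣ bc 11 n := by
  have h1 : bc 11 n = coeff n (1 * BB 11) := by
    rw [one_mul]; unfold BB; rw [coeff_mk]
  obtain ⟨h, hh⟩ := BB11
  intro hd
  have h2 : coeff n (1 * BB 11) % 32 = 0 := by
    rw [← h1]; exact Int.emod_eq_zero_of_dvd hd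
  rw [mul_h _ _ h hh n 1, one_mul] at h2
  have h3 : ((1 : ℤ⟦X⟧) - X) ^ 16 = pol (m1^[16] [1]) := by
    rw [pol_m1_iter]
    simp [pol]
  obtain ⟨h', hh'⟩ := pol_red (m1^[16] [1])
  rw [h3, mul_h _ _ h' hh' n (FF ^ 5)] at h2
  exact Reach_ne n _ (List.contains_iff_mem.mp Reach_start) h2

end

end Pool.Agent.X13.CB
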