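import Pool.Agent.X13.CB.Theta
import Pool.Agent.X13.TT.Series

/-!
# The 4-ary case
-/

namespace Pool.Agent.X13.CB

open PowerSeries Finset

noncomputable section

/-- `∏_{i<N} 1/(1-x^(4^i))` -/
def Q4 (N : ℕ) : ℤ⟦X⟧ := ∏ i ∈ range N, gi (2 * i)

theorem Q4_succ' (N : ℕ) : Q4 (N + 1) = y * V (V (Q4 N)) := by
  unfold Q4
  rw [prod_range_succ', map_prod, map_prod, mul_zero, gi_zero, mul_comm]
  congr 1
  refine prod_congr rfl fun i _ => ?_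
  rw [V_gi, V_gi]
  congr 1

/-- the infinite product -/
def QQ : ℤ⟦X⟧ := PowerSeries.mk fun n => coeff n (Q4 (n + 1))

theorem coeff_Q4_stable (n N : ℕ) (h : n + 1 ≤ N) : coeff n (Q4 N) = coeff n (Q4 (n + 1)) := by
  induction N, h using Nat.le_induction with
  | base => rfl
  | succ N hN ih =>
    rw [← ih]
    obtain ⟨h, hh⟩ := gi_sub (2 * N)
    have h2 : Q4 (N + 1) = Q4 N + X ^ (2 ^ (2 * N)) * (Q4 N * h) := by
      unfold Q4
      rw [prod_range_succ, hh]; ring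
    have hlt : n < 2 ^ (2 * N) := lt_of_lt_of_le (by omega : n < 2 * N) Nat.lt_two_pow_self.le
    rw [h2, map_add, coeff_X_pow_mul', if_neg (by omega), add_zero]

theorem QQ_sub_Q4 (N : ℕ) : (X : ℤ⟦X⟧) ^ N ∣ QQ - Q4 N := by
  rw [X_pow_dvd_iff]
  intro n hn
  rw [map_sub, coeff_Q4_stable n N (by omega)]
  unfold QQ
  rw [coeff_mk, sub_self]

theorem coeff_QQ_pow (f : ℤ⟦X⟧) (m n N : ℕ) (h : n + 1 ≤ N) :
    coeff n (f * QQ ^ m) = coeff n (f * Q4 N ^ m) := by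
  have h1 : (X : ℤ⟦X⟧) ^ N ∣ f * QQ ^ m - f * Q4 N ^ m := by
    rw [← mul_sub]
    exact Dvd.dvd.mul_left ((QQ_sub_Q4 N).trans (sub_dvd_pow_sub_pow _ _ _)) _
  have := (X_pow_dvd_iff.mp h1) n (by omega)
  rw [map_sub] at this
  linarith

theorem QQ_eq : QQ = y * V (V QQ) := by
  rw [← sub_eq_zero]
  refine eq_of_dvd_all fun N => ?_
  have h1 := QQ_sub_Q4 (N + 1)
  have h2 : (X : ℤ⟦X⟧) ^ N ∣ V (V (Q4 N)) - V (V QQ) := by
    obtain ⟨c, hc⟩ := QQ_sub_Q4 N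
    have := congrArg V (congrArg V hc)
    rw [map_mul, map_mul, map_sub, map_sub, map_pow, map_pow, expand_X, map_pow, expand_X,
      ← pow_mul, ← pow_mul] at this
    have h4 : (X : ℤ⟦X⟧) ^ (2 * (2 * N)) ∣ V (V (Q4 N)) - V (V QQ) :=
      ⟨-V (V c), by
        have e : (X : ℤ⟦X⟧) ^ (2 * (2 * N)) = X ^ (2 * 2 * N) := by congr 1; ring
        rw [e]
        linear_combination -this⟩
    exact (pow_dvd_pow X (by omega)).trans h4
  have e : QQ - y * V (V QQ) = (QQ - Q4 (N + 1)) + y * (V (V (Q4 N)) - V (V QQ)) := by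
    rw [Q4_succ']; ring
  rw [e]
  exact dvd_add ((pow_dvd_pow X (Nat.le_succ N)).trans h1) (Dvd.dvd.mul_left h2 _)

theorem ysq : y * y = V y * u := by
  have h3 := one_sub_mul_y
  have h4 := congrArg V h3
  rw [map_mul, map_sub, map_one, expand_X] at h4
  have h5 : u = (1 + X) * y := rfl
  rw [h5]
  linear_combination (-y * y) * h4 + (1 + X) * V y * y * h3

theorem y4 : y ^ 4 = V (V y) * V u * u ^ 2 := by
  have h1 := ysq
  have h2 := congrArg V ysq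
  rw [map_mul, map_mul] at h2
  linear_combination (y * y + V y * u) * h1 + u ^ 2 * h2

/-- the generating function -/
def HH (m : ℕ) : ℤ⟦X⟧ := y ^ m * QQ ^ (3 * m)

/-- the companion -/
def HB (m : ℕ) : ℤ⟦X⟧ := u ^ m * V (HH m)

theorem HH_eq (m : ℕ) : HH m = u ^ (2 * m) * V (HB m) := by
  have h1 : HH m = (y ^ 4) ^ m * V (V QQ) ^ (3 * m) := by
    unfold HH
    conv_lhs => rw [QQ_eq]
    rw [mul_pow, ← mul_assoc, ← pow_add, ← pow_mul]
    congr 2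
    ring
  rw [h1, y4]
  unfold HB HH
  simp only [map_mul, map_pow]
  rw [mul_pow, mul_pow, ← pow_mul]
  ring

theorem constantCoeff_QQ : constantCoeff QQ = 1 := by
  rw [← coeff_zero_eq_constantCoeff_apply]
  unfold QQ
  rw [coeff_mk, coeff_zero_eq_constantCoeff_apply]
  unfold Q4
  rw [range_one, prod_singleton, mul_zero, gi_zero, ← coeff_zero_eq_constantCoeff_apply]
  unfold y
  rw [coeff_mk]

theorem constantCoeff_y : constantCoeff y = 1 := by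
  rw [← coeff_zero_eq_constantCoeff_apply]
  unfold y
  rw [coeff_mk]

theorem constantCoeff_V (f : ℤ⟦X⟧) : constantCoeff (V f) = constantCoeff f := by
  rw [← coeff_zero_eq_constantCoeff_apply, ← coeff_zero_eq_constantCoeff_apply,
    coeff_expand, if_pos (dvd_zero _)]

theorem constantCoeff_HH (m : ℕ) : constantCoeff (HH m) = 1 := by
  unfold HH
  rw [map_mul, map_pow, map_pow, constantCoeff_y, constantCoeff_QQ]; simp

theorem constantCoeff_HB (m : ℕ) : constantCoeff (HB m) = 1 := by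
  unfold HB
  rw [map_mul, map_pow, constantCoeff_u, constantCoeff_V, constantCoeff_HH]; simp

/-! ### the two operators -/

theorem Up_HH (m : ℕ) (f : ℤ⟦X⟧) : Up (HH m * f) = HB m * Up (u ^ (2 * m) * f) := by
  conv_lhs => rw [HH_eq]
  rw [show u ^ (2 * m) * V (HB m) * f = V (HB m) * (u ^ (2 * m) * f) by ring, Up_V_mul]

theorem Up_HB (m : ℕ) (f : ℤ⟦X⟧) : Up (HB m * f) = HH m * Up (u ^ m * f) := by
  conv_lhs => rw [HB]
  rw [show u ^ m * V (HH m) * f = V (HH m) * (u ^ m * f) by ring, Up_V_mul]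

theorem Uo_HH (m : ℕ) (f : ℤ⟦X⟧) : Uo (HH m * f) = HB m * Uo (u ^ (2 * m) * f) := by
  conv_lhs => rw [HH_eq]
  rw [show u ^ (2 * m) * V (HB m) * f = V (HB m) * (u ^ (2 * m) * f) by ring, Uo_V_mul]

theorem Up_pow_mem (n : ℕ) {f : ℤ⟦X⟧} (hf : f ∈ L 1) : Up (u ^ n * f) ∈ L 1 := by
  refine L_induction (Up ∘ₗ LinearMap.mulLeft ℤ (u ^ n)) (fun l => ?_) hf
  show Up (u ^ n * (1 * u ^ l)) ∈ L 1
  have := Up_one_mem (n + l)
  rw [one_mul, pow_add] at this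
  rwa [one_mul]

/-- `U_l` -/
def Us : ℕ → ℤ⟦X⟧
  | 0 => 0
  | 1 => 1
  | l + 2 => (th + 2) * Us (l + 1) - Us l

theorem Uo_Us (l : ℕ) : Uo (u ^ l) = (1 + u) * Us l := by
  have h : Uo (u ^ l) = (1 + u) * Us l ∧ Uo (u ^ (l + 1)) = (1 + u) * Us (l + 1) := by
    induction l with
    | zero =>
      constructor
      · rw [pow_zero, Uo_one, Us, mul_zero]
      · rw [zero_add, pow_one, Uo_u, Us, mul_one]
    | succ l ih =>
      refine ⟨ih.2, ?_⟩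
      have := Uo_rec 1 l
      simp only [one_mul] at this
      rw [show l + 1 + 1 = l + 2 by ring, this, ih.1, ih.2, Us, th]
      ring
  exact h.1

theorem Us_mem (l : ℕ) : Us l ∈ M 1 := by
  have h : Us l ∈ M 1 ∧ Us (l + 1) ∈ M 1 := by
    induction l with
    | zero => exact ⟨Submodule.zero_mem _, self_mem_M 1⟩
    | succ l ih =>
      refine ⟨ih.2, ?_⟩
      rw [show l + 1 + 1 = l + 2 by ring, Us,
        show (th + 2) * Us (l + 1) - Us l = th * Us (l + 1) + (Us (l + 1) + Us (l + 1)) - Us l by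
          ring]
      exact Submodule.sub_mem _ (Submodule.add_mem _ (th_mul_mem ih.2)
        (Submodule.add_mem _ ih.2 ih.2)) ih.1
  exact h.1

theorem Uo_mem_M' (n : ℕ) {g : ℤ⟦X⟧} (hg : g ∈ L 1) :
    ∃ κ ∈ M 1, Uo (u ^ n * g) = (1 + u) * κ := by
  have h : Uo (u ^ n * g) ∈ M ((1 + u) * 1) := by
    refine L_induction (Uo ∘ₗ LinearMap.mulLeft ℤ (u ^ n)) (fun l => ?_) hg
    show Uo (u ^ n * (1 * u ^ l)) ∈ _
    rw [one_mul, ← pow_add, Uo_Us]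
    exact mul_left_mem_M _ (Us_mem _)
  exact M_mul_iff h

/-- `U((1+u) u^n κ θ) ∈ 2 (1+u) θ ℤ[θ]` -/
theorem Up_th_mem (n : ℕ) {κ : ℤ⟦X⟧} (hκ : κ ∈ L 1) :
    ∃ κ' ∈ M 1, Up ((1 + u) * u ^ n * κ * th) = (1 + u) * 2 * th * κ' := by
  have h : Up ((1 + u) * u ^ n * κ * th) ∈ M ((1 + u) * 2 * th * 1) := by
    refine L_induction (Up ∘ₗ LinearMap.mulRight ℤ th ∘ₗ LinearMap.mulLeft ℤ ((1 + u) * u ^ n))
      (fun l => ?_) hκ
    show Up ((1 + u) * u ^ n * (1 * u ^ l) * th) ∈ _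
    have e : (1 + u) * u ^ n * (1 * u ^ l) * th
        = V 2 * ((1 + u) * u ^ (n + l + 1)) - V 2 * ((1 + u) * u ^ (n + l)) := by
      rw [map_ofNat]; unfold th; ring
    rw [e, map_sub, Up_V_mul, Up_V_mul, Up_Vs, Up_Vs]
    obtain ⟨a, -, b, hb, -, hdV⟩ := Vs_spec (n + l)
    have e2 : 2 * ((1 + u) * Vs (n + l + 1)) - 2 * ((1 + u) * Vs (n + l))
        = (1 + u) * 2 * th * (((n + l + 1 : ℕ) : ℤ⟦X⟧) + th * b) := by
      have : 2 * ((1 + u) * Vs (n + l + 1)) - 2 * ((1 + u) * Vs (n + l))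
        = 2 * (1 + u) * (Vs (n + l + 1) - Vs (n + l)) := by ring
      rw [this, hdV]; ring
    rw [e2]
    refine mul_left_mem_M _ (Submodule.add_mem _ ?_ (th_mul_mem hb))
    have := int_mem_M ((n + l + 1 : ℕ) : ℤ)
    push_cast at this ⊢
    exact this
  exact M_mul_iff h

theorem th_eq : th = 4 * (X * y) := by
  unfold th u
  linear_combination 2 * one_sub_mul_y

/-- the base state -/
theorem base (m : ℕ) {g : ℤ⟦X⟧} (hg : g ∈ L 1)
    (h0 : (64 : ℤ) ∣ coeff 0 (Uo (u ^ (2 * m) * g)))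
    (h1 : (64 : ℤ) ∣ coeff 1 (Uo (u ^ (2 * m) * g)))
    (h2 : (128 : ℤ) ∣ coeff 2 (Uo (u ^ (2 * m) * g)) - coeff 0 (Uo (u ^ (2 * m) * g)) - 64) :
    ∃ h, Inv 3 h ∧ Up (u ^ m * Uo (u ^ (2 * m) * g)) = (1 + u) * h := by
  obtain ⟨κ, hκ, hf⟩ := Uo_mem_M' (2 * m) hg
  rw [hf] at h0 h1 h2 ⊢
  obtain ⟨η0, κ1, hκ1, rfl⟩ := M_one_decomp hκ
  obtain ⟨η1, κ2, hκ2, rfl⟩ := M_one_decomp hκ1
  obtain ⟨η2, κ3, hκ3, rfl⟩ := M_one_decomp hκ2
  have e : (1 + u) * ((η0 : ℤ⟦X⟧) + th * ((η1 : ℤ⟦X⟧) + th * ((η2 : ℤ⟦X⟧) + th * κ3)))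
      = C (2 * η0) * y + C (8 * η1) * (X * y ^ 2) + C (32 * η2) * (X ^ 2 * y ^ 3)
        + X ^ 3 * (128 * y ^ 4 * κ3) := by
    rw [th_eq, one_add_u]
    simp only [map_mul, map_ofNat, eq_intCast]
    ring
  have c0 : coeff 0 (X ^ 2 * y ^ 3) = 0 := by rw [coeff_X_pow_mul', if_neg (by omega)]
  have c1 : coeff 1 (X ^ 2 * y ^ 3) = 0 := by rw [coeff_X_pow_mul', if_neg (by omega)]
  have c2 : coeff 2 (X ^ 2 * y ^ 3) = 1 := by
    rw [coeff_X_pow_mul', if_pos (by omega), Nat.sub_self, coeff_zero_eq_constantCoeff_apply,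
      map_pow, constantCoeff_y, one_pow]
  have cy : ∀ k, coeff k y = 1 := fun k => by unfold y; rw [coeff_mk]
  have p0 : coeff 0 ((1 + u) * ((η0 : ℤ⟦X⟧) + th * ((η1 : ℤ⟦X⟧) + th * ((η2 : ℤ⟦X⟧) + th * κ3))))
      = 2 * η0 := by
    rw [e, map_add, map_add, map_add, coeff_C_mul, coeff_C_mul, coeff_C_mul, c0, cy, coeff_y_sq,
      coeff_X_pow_mul', if_neg (by omega)]
    push_cast; ring
  have p1 : coeff 1 ((1 + u) * ((η0 : ℤ⟦X⟧) + th * ((η1 : ℤ⟦X⟧) + th * ((η2 : ℤ⟦X⟧) + th * κ3))))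
      = 2 * η0 + 8 * η1 := by
    rw [e, map_add, map_add, map_add, coeff_C_mul, coeff_C_mul, coeff_C_mul, c1, cy, coeff_y_sq,
      coeff_X_pow_mul', if_neg (by omega)]
    push_cast; ring
  have p2 : coeff 2 ((1 + u) * ((η0 : ℤ⟦X⟧) + th * ((η1 : ℤ⟦X⟧) + th * ((η2 : ℤ⟦X⟧) + th * κ3))))
      = 2 * η0 + 16 * η1 + 32 * η2 := by
    rw [e, map_add, map_add, map_add, coeff_C_mul, coeff_C_mul, coeff_C_mul, c2, cy, coeff_y_sq,
      coeff_X_pow_mul', if_neg (by omega)]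
    push_cast; ring
  rw [p0] at h0 h2
  rw [p1] at h1
  rw [p2] at h2
  obtain ⟨r, hr⟩ : ∃ r, η0 = 32 * r := ⟨η0 / 32, by omega⟩
  obtain ⟨s, hs⟩ : ∃ s, η1 = 8 * s := ⟨η1 / 8, by omega⟩
  obtain ⟨t', ht⟩ : ∃ t', η2 = 2 + 4 * t' := ⟨(η2 - 2) / 4, by omega⟩
  subst hr hs ht
  obtain ⟨κ', hκ', hU3⟩ := Up_th_mem (m + 1) (M_le_L hκ3)
  obtain ⟨a, ha, b, hb, hV, hdV⟩ := Vs_spec m
  obtain ⟨a', ha', -, -, hV', -⟩ := Vs_spec (m + 1)
  obtain ⟨a0, a1, ha1, haa⟩ := M_one_decomp ha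
  have e1 : Up ((1 + u) * u ^ m) = (1 + u) * Vs m := Up_Vs m
  have e2 : Up ((1 + u) * u ^ m * th) = (1 + u) * (2 * (Vs (m + 1) - Vs m)) := by
    have : (1 + u) * u ^ m * th = V 2 * ((1 + u) * u ^ (m + 1)) - V 2 * ((1 + u) * u ^ m) := by
      rw [map_ofNat]; unfold th; ring
    rw [this, map_sub, Up_V_mul, Up_V_mul, Up_Vs, Up_Vs]; ring
  have e3 : Up ((1 + u) * u ^ m * th ^ 2) = 4 * th * ((1 + u) * Vs (m + 1)) := by
    rw [Up_th_sq, ← Up_Vs]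
    congr 2; ring
  have e4 : Up ((1 + u) * u ^ m * κ3 * th * th ^ 2) = 4 * th * ((1 + u) * 2 * th * κ') := by
    rw [Up_th_sq, ← hU3]
    congr 2; ring
  have split : u ^ m * ((1 + u) * (((32 * r : ℤ) : ℤ⟦X⟧) + th * (((8 * s : ℤ) : ℤ⟦X⟧)
        + th * (((2 + 4 * t' : ℤ) : ℤ⟦X⟧) + th * κ3))))
      = V (32 * (r : ℤ⟦X⟧)) * ((1 + u) * u ^ m)
        + V (8 * (s : ℤ⟦X⟧)) * ((1 + u) * u ^ m * th)
        + V (2 + 4 * (t' : ℤ⟦X⟧)) * ((1 + u) * u ^ m * th ^ 2)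
        + (1 + u) * u ^ m * κ3 * th * th ^ 2 := by
    simp only [map_mul, map_add, map_ofNat, map_intCast]
    push_cast
    ring
  rw [split, map_add, map_add, map_add, Up_V_mul, Up_V_mul, Up_V_mul, e1, e2, e3, e4, hdV, hV, hV']
  refine ⟨2 ^ 3 * (4 * (r : ℤ⟦X⟧) + ((4 * r * a0 + 2 * s * (m + 1) + 1 + 2 * t' : ℤ) : ℤ⟦X⟧) * th
    + th ^ 2 * (4 * (r : ℤ⟦X⟧) * a1 + 2 * (s : ℤ⟦X⟧) * b + (1 + 2 * (t' : ℤ⟦X⟧)) * a' + κ')),
    ⟨r, _, _, ?_, ?_, rfl⟩, ?_⟩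
  · refine Submodule.add_mem _ (Submodule.add_mem _ (Submodule.add_mem _ ?_ ?_) ?_) hκ'
    · have := intCast_mul_mem (4 * r) ha1
      push_cast at this; exact this
    · have := intCast_mul_mem (2 * s) hb
      push_cast at this; exact this
    · have := intCast_mul_mem (1 + 2 * t') ha'
      push_cast at this; exact this
  · exact ⟨2 * r * a0 + s * (m + 1) + t', by ring⟩
  · rw [haa]
    push_cast
    ring

end

end Pool.Agent.X13.CB
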