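import Pool.Agent.X13.CB.S4

/-!
# The starting values
-/

namespace Pool.Agent.X13.CB

open PowerSeries Finset

/-! ### lists -/

/-- multiply by `1 + x^d`, truncated -/
def addsh (d : ℕ) (l : List ℤ) : List ℤ := List.zipWith (· + ·) l (List.replicate d 0 ++ l)

/-- first coefficients of `(1+x^d)^a / ∏ (1-x^e)` -/
def pwl (N d a : ℕ) (es : List ℕ) : List ℤ := (addsh d)^[a] (TT.dps es (TT.unitL N))

theorem addsh_length (d : ℕ) (l : List ℤ) : (addsh d l).length = l.length := by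
  unfold addsh
  rw [List.length_zipWith, List.length_append, List.length_replicate]
  omega

theorem Rep_addsh {d : ℕ} {l : List ℤ} {φ : ℤ⟦X⟧} (h : TT.Rep l φ) :
    TT.Rep (addsh d l) ((1 + X ^ d) * φ) := by
  intro i hi
  rw [addsh_length] at hi
  rw [add_mul, one_mul, map_add, coeff_X_pow_mul', h i hi]
  have hi2 : i < (List.replicate d (0 : ℤ) ++ l).length := by
    rw [List.length_append, List.length_replicate]; omega
  have h1 : (addsh d l).getD i 0 = l.getD i 0 + (List.replicate d (0 : ℤ) ++ l).getD i 0 := by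
    unfold addsh
    rw [List.getD_eq_getElem?_getD, List.getElem?_zipWith, List.getElem?_eq_getElem hi,
      List.getElem?_eq_getElem hi2, List.getD_eq_getElem _ _ hi, List.getD_eq_getElem _ _ hi2]
    rfl
  rw [h1]
  congr 1
  split_ifs with hd
  · rw [h (i - d) (by omega), List.getD_append_right _ _ _ _ (by rw [List.length_replicate]; exact hd),
      List.length_replicate]
  · rw [List.getD_append _ _ _ _ (by rw [List.length_replicate]; omega),
      List.getD_eq_getElem _ _ (by rw [List.length_replicate]; omega), List.getElem_replicate]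

theorem Rep_addsh_iter {d : ℕ} (a : ℕ) {l : List ℤ} {φ : ℤ⟦X⟧} (h : TT.Rep l φ) :
    TT.Rep ((addsh d)^[a] l) ((1 + X ^ d) ^ a * φ) := by
  induction a with
  | zero => simpa using h
  | succ a ih =>
    rw [Function.iterate_succ_apply', pow_succ', mul_assoc]
    exact Rep_addsh ih

theorem addsh_iter_length (d a : ℕ) (l : List ℤ) : ((addsh d)^[a] l).length = l.length := by
  induction a with
  | zero => rfl
  | succ a ih => rw [Function.iterate_succ_apply', addsh_length, ih]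

theorem pwl_spec (N d a : ℕ) (es : List ℕ) (hes : ∀ e ∈ es, 0 < e) (i : ℕ) (hi : i ≤ N) :
    coeff i ((1 + X ^ d) ^ a * TT.geoL es) = (pwl N d a es).getD i 0 := by
  have h1 := TT.Rep.dps es hes _ _ (TT.Rep_unitL N)
  rw [one_mul] at h1
  have h2 := Rep_addsh_iter (d := d) a h1
  refine h2 i ?_
  rw [addsh_iter_length, TT.dps_length, TT.unitL, List.length_cons, List.length_replicate]
  omega

theorem geoL_append (l k : List ℕ) : TT.geoL (l ++ k) = TT.geoL l * TT.geoL k := by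
  induction l with
  | nil => simp [TT.geoL]
  | cons a l ih => rw [List.cons_append, TT.geoL, TT.geoL, ih, mul_assoc]

theorem geoL_replicate (n d : ℕ) : TT.geoL (List.replicate n d) = TT.geo d ^ n := by
  induction n with
  | zero => simp [TT.geoL]
  | succ n ih => rw [List.replicate_succ, TT.geoL, ih, pow_succ']

/-! ### the kernel computations -/

/-- the exponents for the first case -/
def es3 (m : ℕ) : List ℕ := List.replicate (4 * m) 1 ++ List.replicate m 4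

/-- the exponents for the second case -/
def es5 (m : ℕ) : List ℕ :=
  List.replicate (4 * m) 1 ++ (List.replicate (3 * m) 4 ++ List.replicate m 16)

/-- the test -/
def tst (a b c : ℤ) : Bool :=
  decide (a % 64 = 0) && decide (b % 64 = 0) && decide ((c - a - 64) % 128 = 0)

theorem chk3 : ([14, 30, 46, 62].all fun m =>
    let l := pwl 20 4 (2 * m) (es3 m)
    tst (l.getD 4 0) (l.getD 12 0) (l.getD 20 0)) = true := by decide +kernel

theorem chk5 : ([6, 22, 38, 54].all fun m =>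
    let l := pwl 80 16 (2 * m) (es5 m)
    tst (l.getD 16 0) (l.getD 48 0) (l.getD 80 0)) = true := by decide +kernel

noncomputable section

/-! ### the products -/

theorem geo_one_eq : TT.geo 1 = y := by
  have h1 := TT.one_sub_mul_geo (d := 1) (by norm_num)
  have h2 := one_sub_mul_y
  rw [pow_one] at h1
  linear_combination y * h1 - TT.geo 1 * h2

theorem VVy_mul : (1 - (X : ℤ⟦X⟧) ^ 4) * V (V y) = 1 := by
  have h := congrArg V (congrArg V one_sub_mul_y)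
  simp only [map_mul, map_sub, map_one, expand_X, map_pow] at h
  rwa [← pow_mul] at h

theorem geo_four_eq : TT.geo 4 = V (V y) := by
  have h1 := TT.one_sub_mul_geo (d := 4) (by norm_num)
  linear_combination (V (V y)) * h1 - TT.geo 4 * VVy_mul

theorem VVVVy_mul : (1 - (X : ℤ⟦X⟧) ^ 16) * V (V (V (V y))) = 1 := by
  have h := congrArg V (congrArg V VVy_mul)
  simp only [map_mul, map_sub, map_one, expand_X, map_pow] at h
  rwa [← pow_mul, ← pow_mul] at h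

theorem geo_sixteen_eq : TT.geo 16 = V (V (V (V y))) := by
  have h1 := TT.one_sub_mul_geo (d := 16) (by norm_num)
  linear_combination (V (V (V (V y)))) * h1 - TT.geo 16 * VVVVy_mul

theorem VVu : V (V u) = (1 + X ^ 4) * V (V y) := by
  unfold u
  simp only [map_mul, map_add, map_one, expand_X, map_pow]
  rw [← pow_mul]

theorem VVVVu : V (V (V (V u))) = (1 + X ^ 16) * V (V (V (V y))) := by
  rw [VVu]
  simp only [map_mul, map_add, map_one, expand_X, map_pow]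
  rw [← pow_mul, ← pow_mul]

/-- `Π₃` -/
def P3 : ℤ⟦X⟧ := V (V u) ^ 2 * V u * u ^ 2

/-- `Π₅` -/
def P5 : ℤ⟦X⟧ := V (V (V (V u))) ^ 2 * V (V (V u)) * V (V u) ^ 2 * V u * u ^ 2

theorem P3_eq : P3 = (1 + X ^ 4) ^ 2 * (TT.geo 1 ^ 4 * TT.geo 4) := by
  rw [geo_one_eq, geo_four_eq]
  unfold P3
  rw [VVu]
  linear_combination (-(1 + X ^ 4) ^ 2 * V (V y)) * y4

theorem P5_eq : P5 = (1 + X ^ 16) ^ 2 * (TT.geo 1 ^ 4 * (TT.geo 4 ^ 3 * TT.geo 16)) := by
  rw [geo_one_eq, geo_four_eq, geo_sixteen_eq]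
  unfold P5
  rw [VVVVu]
  have h1 := y4
  have h2 := congrArg V (congrArg V y4)
  simp only [map_mul, map_pow] at h2
  have h3 := VVy_mul
  linear_combination (-(1 + X ^ 16) ^ 2 * V (V (V (V y))) * V (V (V u)) * V (V u) ^ 2
      * V (V (V (V y))) * (1 - X ^ 4)) * h1
    - (1 + X ^ 16) ^ 2 * V (V (V (V y))) * (1 - X ^ 4) * y ^ 4 * h2
    + ((1 + X ^ 16) ^ 2 * V (V (V (V y))) * y ^ 4 * V (V y) ^ 3
      - V (V (V (V y))) ^ 2 * (1 + X ^ 16) ^ 2 * V (V (V u)) * V (V u) ^ 2 * V u * u ^ 2) * h3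

theorem P3_pow (m : ℕ) : P3 ^ m = (1 + X ^ 4) ^ (2 * m) * TT.geoL (es3 m) := by
  rw [P3_eq, es3, geoL_append, geoL_replicate, geoL_replicate, mul_pow, mul_pow, ← pow_mul,
    ← pow_mul]

theorem P5_pow (m : ℕ) : P5 ^ m = (1 + X ^ 16) ^ (2 * m) * TT.geoL (es5 m) := by
  rw [P5_eq, es5, geoL_append, geoL_append, geoL_replicate, geoL_replicate, geoL_replicate,
    mul_pow, mul_pow, mul_pow, ← pow_mul, ← pow_mul, ← pow_mul]

/-! ### periodicity modulo 128 -/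

theorem u_odd : ∃ G : ℤ⟦X⟧, u = 1 + 2 * G :=
  ⟨X * y, by unfold u; linear_combination one_sub_mul_y⟩

theorem odd_mul {a b : ℤ⟦X⟧} (ha : ∃ G : ℤ⟦X⟧, a = 1 + 2 * G) (hb : ∃ G : ℤ⟦X⟧, b = 1 + 2 * G) :
    ∃ G : ℤ⟦X⟧, a * b = 1 + 2 * G := by
  obtain ⟨G, rfl⟩ := ha
  obtain ⟨H, rfl⟩ := hb
  exact ⟨G + H + 2 * G * H, by ring⟩

theorem odd_V {a : ℤ⟦X⟧} (ha : ∃ G : ℤ⟦X⟧, a = 1 + 2 * G) : ∃ G : ℤ⟦X⟧, V a = 1 + 2 * G := by
  obtain ⟨G, rfl⟩ := ha
  exact ⟨V G, by simp only [map_add, map_one, map_mul, map_ofNat]⟩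

theorem P3_odd : ∃ G : ℤ⟦X⟧, P3 = 1 + 2 * G := by
  unfold P3
  rw [pow_two, pow_two]
  have h := u_odd
  exact odd_mul (odd_mul (odd_mul (odd_V (odd_V h)) (odd_V (odd_V h))) (odd_V h)) (odd_mul h h)

theorem P5_odd : ∃ G : ℤ⟦X⟧, P5 = 1 + 2 * G := by
  unfold P5
  rw [pow_two, pow_two, pow_two]
  have h := u_odd
  have h1 := odd_V h
  have h2 := odd_V h1
  have h3 := odd_V h2
  have h4 := odd_V h3
  exact odd_mul (odd_mul (odd_mul (odd_mul (odd_mul h4 h4) h3) (odd_mul h2 h2)) h1) (odd_mul h h)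

theorem pow_64 {P : ℤ⟦X⟧} (h : ∃ G : ℤ⟦X⟧, P = 1 + 2 * G) : ∃ G : ℤ⟦X⟧, P ^ 64 = 1 + 128 * G := by
  obtain ⟨G, hG⟩ := h
  have h2 : P ^ 2 = 1 + 4 * (G + G ^ 2) := by rw [hG]; ring
  generalize G + G ^ 2 = A at h2
  have h4 : P ^ 4 = 1 + 8 * (A + 2 * A ^ 2) := by
    rw [show P ^ 4 = (P ^ 2) ^ 2 by ring, h2]; ring
  generalize A + 2 * A ^ 2 = B at h4
  have h8 : P ^ 8 = 1 + 16 * (B + 4 * B ^ 2) := by
    rw [show P ^ 8 = (P ^ 4) ^ 2 by ring, h4]; ring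
  generalize B + 4 * B ^ 2 = D at h8
  have h16 : P ^ 16 = 1 + 32 * (D + 8 * D ^ 2) := by
    rw [show P ^ 16 = (P ^ 8) ^ 2 by ring, h8]; ring
  generalize D + 8 * D ^ 2 = E at h16
  have h32 : P ^ 32 = 1 + 64 * (E + 16 * E ^ 2) := by
    rw [show P ^ 32 = (P ^ 16) ^ 2 by ring, h16]; ring
  generalize E + 16 * E ^ 2 = F at h32
  exact ⟨F + 32 * F ^ 2, by rw [show P ^ 64 = (P ^ 32) ^ 2 by ring, h32]; ring⟩

theorem periodic {P : ℤ⟦X⟧} (h : ∃ G : ℤ⟦X⟧, P = 1 + 2 * G) (m n : ℕ) :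
    ∃ c : ℤ, coeff n (P ^ m) = coeff n (P ^ (m % 64)) + 128 * c := by
  obtain ⟨G, hG⟩ := pow_64 h
  have h1 : ∀ q : ℕ, ∃ K : ℤ⟦X⟧, (P ^ 64) ^ q = 1 + 128 * K := by
    intro q
    induction q with
    | zero => exact ⟨0, by simp⟩
    | succ q ih =>
      obtain ⟨K, hK⟩ := ih
      exact ⟨K + G * (1 + 128 * K), by rw [pow_succ, hK, hG]; ring⟩
  obtain ⟨K, hK⟩ := h1 (m / 64)
  refine ⟨coeff n (P ^ (m % 64) * K), ?_⟩
  have h2 : (128 : ℤ⟦X⟧) = C (128 : ℤ) := (map_ofNat C 128).symm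
  have h3 : P ^ m = P ^ (m % 64) + 128 * (P ^ (m % 64) * K) := by
    conv_lhs => rw [← Nat.mod_add_div m 64, pow_add, pow_mul, hK]
    ring
  rw [h3, map_add, h2, coeff_C_mul]

theorem tst_spec {a b c : ℤ} (h : tst a b c = true) {a' b' c' : ℤ} (x z w : ℤ)
    (ha : a' = a + 128 * x) (hb : b' = b + 128 * z) (hc : c' = c + 128 * w) :
    (64 : ℤ) ∣ a' ∧ (64 : ℤ) ∣ b' ∧ (128 : ℤ) ∣ c' - a' - 64 := by
  unfold tst at h
  simp only [Bool.and_eq_true, decide_eq_true_eq] at h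
  omega

theorem vals3 (m : ℕ) (hm : m % 16 = 14) :
    (64 : ℤ) ∣ coeff 4 (P3 ^ m) ∧ (64 : ℤ) ∣ coeff 12 (P3 ^ m) ∧
      (128 : ℤ) ∣ coeff 20 (P3 ^ m) - coeff 4 (P3 ^ m) - 64 := by
  have hmem : m % 64 ∈ [14, 30, 46, 62] := by
    have : m % 64 = 14 ∨ m % 64 = 30 ∨ m % 64 = 46 ∨ m % 64 = 62 := by omega
    rcases this with h | h | h | h <;> rw [h] <;> simp
  have h1 := (List.all_eq_true.mp chk3) _ hmem
  obtain ⟨x, hx⟩ := periodic P3_odd m 4
  obtain ⟨z, hz⟩ := periodic P3_odd m 12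
  obtain ⟨w, hw⟩ := periodic P3_odd m 20
  have hes : ∀ e ∈ es3 (m % 64), 0 < e := by
    intro e he
    unfold es3 at he
    rw [List.mem_append, List.mem_replicate, List.mem_replicate] at he
    omega
  rw [P3_pow (m % 64), pwl_spec 20 4 _ _ hes _ (by norm_num)] at hx hz hw
  exact tst_spec h1 x z w hx hz hw

theorem vals5 (m : ℕ) (hm : m % 16 = 6) :
    (64 : ℤ) ∣ coeff 16 (P5 ^ m) ∧ (64 : ℤ) ∣ coeff 48 (P5 ^ m) ∧
      (128 : ℤ) ∣ coeff 80 (P5 ^ m) - coeff 16 (P5 ^ m) - 64 := by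
  have hmem : m % 64 ∈ [6, 22, 38, 54] := by
    have : m % 64 = 6 ∨ m % 64 = 22 ∨ m % 64 = 38 ∨ m % 64 = 54 := by omega
    rcases this with h | h | h | h <;> rw [h] <;> simp
  have h1 := (List.all_eq_true.mp chk5) _ hmem
  obtain ⟨x, hx⟩ := periodic P5_odd m 16
  obtain ⟨z, hz⟩ := periodic P5_odd m 48
  obtain ⟨w, hw⟩ := periodic P5_odd m 80
  have hes : ∀ e ∈ es5 (m % 64), 0 < e := by
    intro e he
    unfold es5 at he
    rw [List.mem_append, List.mem_append, List.mem_replicate, List.mem_replicate,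
      List.mem_replicate] at he
    omega
  rw [P5_pow (m % 64), pwl_spec 80 16 _ _ hes _ (by norm_num)] at hx hz hw
  exact tst_spec h1 x z w hx hz hw

/-! ### the two cases -/

theorem state3 (m k : ℕ) :
    coeff k (Uo (u ^ (2 * m) * Up (u ^ m * Up (u ^ (2 * m) * 1)))) = coeff (4 * (2 * k + 1)) (P3 ^ m)
    := by
  have e : u ^ (2 * m) * Up (u ^ m * Up (u ^ (2 * m) * 1)) = Up (Up (P3 ^ m)) := by
    have e1 : P3 ^ m = V (V (u ^ (2 * m)) * u ^ m) * (u ^ (2 * m) * 1) := by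
      unfold P3
      simp only [map_mul, map_pow]
      rw [mul_pow, mul_pow, ← pow_mul, ← pow_mul]
      ring
    rw [e1, Up_V_mul, mul_assoc, Up_V_mul]
  rw [e, coeff_Uo, coeff_Up, coeff_Up]
  congr 2
  ring

theorem state5 (m k : ℕ) :
    coeff k (Uo (u ^ (2 * m) * Up (u ^ m * Up (u ^ (2 * m) * Up (u ^ m * Up (u ^ (2 * m) * 1))))))
      = coeff (16 * (2 * k + 1)) (P5 ^ m) := by
  have e : u ^ (2 * m) * Up (u ^ m * Up (u ^ (2 * m) * Up (u ^ m * Up (u ^ (2 * m) * 1))))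
      = Up (Up (Up (Up (P5 ^ m)))) := by
    have e1 : P5 ^ m = V (V (V (V (u ^ (2 * m)) * u ^ m) * u ^ (2 * m)) * u ^ m)
        * (u ^ (2 * m) * 1) := by
      unfold P5
      simp only [map_mul, map_pow]
      rw [mul_pow, mul_pow, mul_pow, mul_pow, ← pow_mul, ← pow_mul, ← pow_mul]
      ring
    rw [e1, Up_V_mul, mul_assoc, Up_V_mul, mul_assoc, Up_V_mul, mul_assoc, Up_V_mul]
  rw [e, coeff_Uo, coeff_Up, coeff_Up, coeff_Up, coeff_Up]
  congr 2
  ring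

theorem HH_iter (m n : ℕ) (f : ℤ⟦X⟧) :
    coeff n (HH m * Up (u ^ m * Up (u ^ (2 * m) * f))) = coeff (4 * n) (HH m * f) := by
  rw [← Up_HB, coeff_Up, ← Up_HH, coeff_Up]
  congr 2
  ring

theorem HH_iter_odd (m n : ℕ) (f : ℤ⟦X⟧) :
    coeff n (HH m * Up (u ^ m * Uo (u ^ (2 * m) * f))) = coeff (4 * n + 1) (HH m * f) := by
  rw [← Up_HB, coeff_Up, ← Uo_HH, coeff_Uo]
  congr 2
  ring

theorem unbdd_of_base (m : ℕ) (hm : Even m) {g : ℤ⟦X⟧} (hg : g ∈ L 1)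
    (h0 : (64 : ℤ) ∣ coeff 0 (Uo (u ^ (2 * m) * g)))
    (h1 : (64 : ℤ) ∣ coeff 1 (Uo (u ^ (2 * m) * g)))
    (h2 : (128 : ℤ) ∣ coeff 2 (Uo (u ^ (2 * m) * g)) - coeff 0 (Uo (u ^ (2 * m) * g)) - 64)
    (d : ℕ) : ∃ k, (2 : ℤ) ^ d ∣ coeff (4 * k + 1) (HH m * g) := by
  obtain ⟨h, hI, hU⟩ := base m hg h0 h1 h2
  obtain ⟨k, hk⟩ := unbounded d 3 h (HH m) (HB m) (2 * m) m (even_two_mul m) hm (HH_eq m) rfl
    (constantCoeff_HH m) (constantCoeff_HB m) hI
  refine ⟨k, ?_⟩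
  rw [← hU, HH_iter_odd] at hk
  exact (pow_dvd_pow 2 (by omega)).trans hk

theorem unbdd (m : ℕ) (hm : m % 8 = 6) (d : ℕ) : ∃ n, (2 : ℤ) ^ d ∣ coeff n (HH m) := by
  have hev : Even m := ⟨m / 2, by omega⟩
  rcases (by omega : m % 16 = 14 ∨ m % 16 = 6) with h | h
  · obtain ⟨v0, v1, v2⟩ := vals3 m h
    have hg : Up (u ^ m * Up (u ^ (2 * m) * 1)) ∈ L 1 :=
      Up_pow_mem _ (Up_pow_mem _ (self_mem_L 1))
    obtain ⟨k, hk⟩ := unbdd_of_base m hev hg (by rw [state3]; exact v0) (by rw [state3]; exact v1)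
      (by rw [state3, state3]; exact v2) d
    rw [HH_iter, mul_one] at hk
    exact ⟨_, hk⟩
  · obtain ⟨v0, v1, v2⟩ := vals5 m h
    have hg : Up (u ^ m * Up (u ^ (2 * m) * Up (u ^ m * Up (u ^ (2 * m) * 1)))) ∈ L 1 :=
      Up_pow_mem _ (Up_pow_mem _ (Up_pow_mem _ (Up_pow_mem _ (self_mem_L 1))))
    obtain ⟨k, hk⟩ := unbdd_of_base m hev hg (by rw [state5]; exact v0) (by rw [state5]; exact v1)
      (by rw [state5, state5]; exact v2) d
    rw [HH_iter, HH_iter, mul_one] at hk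
    exact ⟨_, hk⟩

end

end Pool.Agent.X13.CB
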