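import Pool.Agent.X13.CB.Main

/-!
# Powers of the Thue-Morse product `∏ (1 - x^(2^i))`
-/

namespace Pool.Agent.X13.CB

open PowerSeries Finset

noncomputable section

/-- `∏_{i<N} (1-x^(2^i))` -/
def Fp (N : ℕ) : ℤ⟦X⟧ := ∏ i ∈ range N, (1 - X ^ (2 ^ i))

/-- the infinite product, defined coefficientwise -/
def FF : ℤ⟦X⟧ := PowerSeries.mk fun n => coeff n (Fp (n + 1))

theorem Fp_succ' (N : ℕ) : Fp (N + 1) = (1 - X) * V (Fp N) := by
  unfold Fp
  rw [prod_range_succ', map_prod, pow_zero, pow_one, mul_comm]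
  congr 1
  refine prod_congr rfl fun i _ => ?_
  rw [map_sub, map_one, map_pow, expand_X, ← pow_mul, ← pow_succ']

theorem coeff_Fp_stable (n N : ℕ) (h : n + 1 ≤ N) : coeff n (Fp N) = coeff n (Fp (n + 1)) := by
  induction N, h using Nat.le_induction with
  | base => rfl
  | succ N hN ih =>
    rw [← ih]
    have h2 : Fp (N + 1) = Fp N - X ^ (2 ^ N) * Fp N := by
      unfold Fp
      rw [prod_range_succ]; ring
    have hlt : n < 2 ^ N := lt_of_lt_of_le (by omega : n < N) Nat.lt_two_pow_self.le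
    rw [h2, map_sub, coeff_X_pow_mul', if_neg (by omega), sub_zero]

theorem FF_sub_Fp (N : ℕ) : (X : ℤ⟦X⟧) ^ N ∣ FF - Fp N := by
  rw [X_pow_dvd_iff]
  intro n hn
  rw [map_sub, coeff_Fp_stable n N (by omega)]
  unfold FF
  rw [coeff_mk, sub_self]

theorem FF_pow_sub_Fp (m N : ℕ) : (X : ℤ⟦X⟧) ^ N ∣ FF ^ m - Fp N ^ m :=
  (FF_sub_Fp N).trans (sub_dvd_pow_sub_pow _ _ _)

theorem coeff_FF_pow (m n N : ℕ) (h : n + 1 ≤ N) : coeff n (FF ^ m) = coeff n (Fp N ^ m) := by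
  have := (X_pow_dvd_iff.mp (FF_pow_sub_Fp m N)) n (by omega)
  rw [map_sub] at this
  linarith

theorem eq_of_dvd_all {f : ℤ⟦X⟧} (h : ∀ N : ℕ, (X : ℤ⟦X⟧) ^ N ∣ f) : f = 0 := by
  ext n
  rw [map_zero]
  exact (X_pow_dvd_iff.mp (h (n + 1))) n (by omega)

theorem FF_eq : FF = (1 - X) * V FF := by
  rw [← sub_eq_zero]
  refine eq_of_dvd_all fun N => ?_
  have h1 := FF_sub_Fp (N + 1)
  have h2 : (X : ℤ⟦X⟧) ^ (2 * N) ∣ V (Fp N) - V FF := by
    obtain ⟨c, hc⟩ := FF_sub_Fp N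
    refine ⟨-V c, ?_⟩
    have := congrArg V hc
    rw [map_sub, map_mul, map_pow, expand_X, ← pow_mul] at this
    linear_combination -this
  have e : FF - (1 - X) * V FF = (FF - Fp (N + 1)) + (1 - X) * (V (Fp N) - V FF) := by
    rw [Fp_succ']; ring
  rw [e]
  refine dvd_add ((pow_dvd_pow X (Nat.le_succ N)).trans h1) (Dvd.dvd.mul_left ?_ _)
  exact (pow_dvd_pow X (by omega)).trans h2

/-- dissection of `x^i F^m` from a polynomial identity `x^i (1-x)^m = A(x^2) + x B(x^2)` -/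
theorem Up_FF (m : ℕ) (P A B : ℤ⟦X⟧) (h : P * (1 - X) ^ m = V A + V B * X) :
    Up (P * FF ^ m) = A * FF ^ m := by
  have e : P * FF ^ m = V (FF ^ m * A) * 1 + V (FF ^ m * B) * X := by
    conv_lhs => rw [FF_eq]
    rw [mul_pow, map_mul, map_mul, map_pow]
    linear_combination (V FF) ^ m * h
  rw [e, map_add, Up_V_mul, Up_V_mul, Up_one, Up_X]
  ring

/-! ### parity -/

theorem coeff_FF_odd (n : ℕ) : Odd (coeff n FF) := by
  induction n using Nat.strong_induction_on with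
  | _ n ih =>
    rcases Nat.eq_zero_or_pos n with rfl | hn
    · unfold FF
      rw [coeff_mk]
      unfold Fp
      simp
    · have e : FF = V FF - X * V FF := by
        conv_lhs => rw [FF_eq]
        ring
      rw [e, map_sub]
      rcases Nat.even_or_odd' n with ⟨k, rfl | rfl⟩
      · rw [coeff_expand_mul]
        obtain ⟨j, rfl⟩ : ∃ j, k = j + 1 := ⟨k - 1, by omega⟩
        rw [show 2 * (j + 1) = 2 * j + 1 + 1 by ring, coeff_succ_X_mul,
          coeff_expand_of_not_dvd _ _ _ (by omega), sub_zero]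
        exact ih (j + 1) (by omega)
      · rw [coeff_succ_X_mul, coeff_expand_mul, coeff_expand_of_not_dvd _ _ _ (by omega), zero_sub]
        exact (ih k (by omega)).neg

theorem FF_parity : ∃ G : ℤ⟦X⟧, FF = y + 2 * G := by
  refine ⟨PowerSeries.mk fun n => (coeff n FF - 1) / 2, ?_⟩
  ext n
  have h2 : (2 : ℤ⟦X⟧) = C (2 : ℤ) := (map_ofNat C 2).symm
  rw [map_add, h2, coeff_C_mul, coeff_mk]
  have h1 := coeff_FF_odd n
  obtain ⟨t, ht⟩ := h1
  unfold y
  rw [coeff_mk, ht]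
  omega

theorem FF_pow_parity (m : ℕ) : ∃ G : ℤ⟦X⟧, FF ^ m = y ^ m + 2 * G := by
  obtain ⟨G, hG⟩ := FF_parity
  induction m with
  | zero => exact ⟨0, by simp⟩
  | succ m ih =>
    obtain ⟨H, hH⟩ := ih
    exact ⟨y ^ m * G + H * (y + 2 * G), by rw [pow_succ, hH, hG]; ring⟩

theorem coeff_y_sq (n : ℕ) : coeff n (X * y ^ 2) = (n : ℤ) := by
  induction n with
  | zero => simp
  | succ n ih =>
    have e : X * y ^ 2 = X * (X * y ^ 2) + X * y := by
      linear_combination (X * y) * one_sub_mul_y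
    rw [e, map_add, coeff_succ_X_mul, coeff_succ_X_mul, ih]
    unfold y
    rw [coeff_mk]
    push_cast; ring

/-- the sum of the basis elements has odd coefficients exactly at the odd places -/
theorem sum_parity (M : ℕ) (D : ℤ⟦X⟧) (hD : 1 - (X : ℤ⟦X⟧) ^ M = (1 - X) ^ M + 2 * D)
    (q : ℕ) (hq : Odd q) :
    Odd (∑ i ∈ range M, coeff q (X ^ (i + 1) * FF ^ (M + 1))) := by
  rw [← map_sum, ← sum_mul]
  obtain ⟨G, hG⟩ := FF_pow_parity (M + 1)
  have h1 : ∑ i ∈ range M, (X : ℤ⟦X⟧) ^ (i + 1) = X * (1 - X ^ M) * y := by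
    have h2 : (∑ i ∈ range M, (X : ℤ⟦X⟧) ^ i) * (1 - X) = 1 - X ^ M := by
      have := geom_sum_mul_neg (X : ℤ⟦X⟧) M
      exact this
    have h3 : ∑ i ∈ range M, (X : ℤ⟦X⟧) ^ (i + 1) = X * ∑ i ∈ range M, (X : ℤ⟦X⟧) ^ i := by
      rw [mul_sum]
      exact sum_congr rfl fun i _ => pow_succ' _ _
    rw [h3, ← h2]
    linear_combination (-X * ∑ i ∈ range M, (X : ℤ⟦X⟧) ^ i) * one_sub_mul_y
  have h4 : (1 - (X : ℤ⟦X⟧)) ^ M * y ^ M = 1 := by
    rw [← mul_pow, one_sub_mul_y, one_pow]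
  have h5 : (∑ i ∈ range M, (X : ℤ⟦X⟧) ^ (i + 1)) * FF ^ (M + 1)
      = X * y ^ 2 + 2 * (X * D * y * y ^ (M + 1) + X * (1 - X ^ M) * y * G) := by
    rw [h1, hG, hD]
    linear_combination (X * y ^ 2) * h4
  have h6 : (2 : ℤ⟦X⟧) = C (2 : ℤ) := (map_ofNat C 2).symm
  rw [h5, map_add, coeff_y_sq, h6, coeff_C_mul]
  have hq' : Odd (q : ℤ) := by exact_mod_cast hq
  exact hq'.add_even (even_two_mul _)

/-! ### iterating a matrix -/

theorem Up_iter_matrix {M : ℕ} (B : Matrix (Fin M) (Fin M) ℤ) (ψ : Fin M → ℤ⟦X⟧)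
    (h : ∀ i, Up (ψ i) = ∑ j, B i j • ψ j) (r : ℕ) (i : Fin M) :
    (Up ^ r) (ψ i) = ∑ j, (B ^ r) i j • ψ j := by
  induction r generalizing i with
  | zero => simp [Matrix.one_apply]
  | succ r ih =>
    rw [pow_succ]
    show (Up ^ r) (Up (ψ i)) = _
    rw [h i, map_sum]
    simp only [map_smul, ih]
    simp only [Finset.smul_sum, smul_smul]
    rw [sum_comm]
    refine sum_congr rfl fun k _ => ?_
    rw [← sum_smul, pow_succ', Matrix.mul_apply]

/-- `s = 2^e * odd` -/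
def Ev (e : ℕ) (s : ℤ) : Prop := ∃ o : ℤ, Odd o ∧ s = 2 ^ e * o

theorem Ev.emult {e : ℕ} {s : ℤ} (h : Ev e s) : emultiplicity 2 s = e := by
  obtain ⟨o, ho, rfl⟩ := h
  rw [emultiplicity_eq_coe]
  refine ⟨dvd_mul_right _ _, ?_⟩
  rintro ⟨c, hc⟩
  rw [pow_succ, mul_assoc] at hc
  have : o = 2 * c := mul_left_cancel₀ (pow_ne_zero e two_ne_zero) hc
  rw [this] at ho
  exact (Int.not_even_iff_odd.mpr ho) (even_two_mul c)

theorem sum_Ev {M : ℕ} (e : ℕ) (c x : Fin M → ℤ) (hc : ∀ i, Ev e (c i)) (hx : Odd (∑ i, x i)) :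
    Ev e (∑ i, c i * x i) := by
  choose o ho hco using hc
  refine ⟨∑ i, o i * x i, ?_, ?_⟩
  · have h1 : ∑ i, o i * x i = ∑ i, x i + ∑ i, (o i - 1) * x i := by
      rw [← sum_add_distrib]
      exact sum_congr rfl fun i _ => by ring
    rw [h1]
    refine hx.add_even ?_
    refine Finset.even_sum _ fun i _ => ?_
    exact ((ho i).sub_odd odd_one).mul_right _
  · rw [mul_sum]
    exact sum_congr rfl fun i _ => by rw [hco i]; ring

end

end Pool.Agent.X13.CB
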