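import Pool.Agent.X13.CB.Neg

/-!
# The ring `ℤ[θ]`, `θ = 2u - 2`, and the digit choice argument
-/

namespace Pool.Agent.X13.CB

open PowerSeries Finset

noncomputable section

/-- `θ = 2u-2 = 4x/(1-x)` -/
def th : ℤ⟦X⟧ := 2 * u - 2

/-- `c ℤ[θ]` -/
def M (c : ℤ⟦X⟧) : Submodule ℤ ℤ⟦X⟧ := Submodule.span ℤ (Set.range fun n : ℕ => c * th ^ n)

theorem pow_mem_M (c : ℤ⟦X⟧) (n : ℕ) : c * th ^ n ∈ M c := Submodule.subset_span ⟨n, rfl⟩

theorem self_mem_M (c : ℤ⟦X⟧) : c ∈ M c := by simpa using pow_mem_M c 0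

theorem M_induction {c : ℤ⟦X⟧} {W : Submodule ℤ ℤ⟦X⟧} (φ : ℤ⟦X⟧ →ₗ[ℤ] ℤ⟦X⟧)
    (h : ∀ n, φ (c * th ^ n) ∈ W) {f : ℤ⟦X⟧} (hf : f ∈ M c) : φ f ∈ W := by
  have : M c ≤ W.comap φ := by
    refine Submodule.span_le.mpr ?_
    rintro _ ⟨n, rfl⟩
    exact h n
  exact this hf

theorem th_mul_mem {c f : ℤ⟦X⟧} (hf : f ∈ M c) : th * f ∈ M c :=
  M_induction (LinearMap.mulLeft ℤ th) (fun n => by
    show th * (c * th ^ n) ∈ M c
    have := pow_mem_M c (n + 1)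
    rwa [pow_succ', mul_left_comm] at this) hf

theorem mul_left_mem_M {c f : ℤ⟦X⟧} (d : ℤ⟦X⟧) (hf : f ∈ M c) : d * f ∈ M (d * c) :=
  M_induction (LinearMap.mulLeft ℤ d) (fun n => by
    show d * (c * th ^ n) ∈ M (d * c)
    rw [← mul_assoc]
    exact pow_mem_M _ n) hf

theorem M_mul_iff {c d f : ℤ⟦X⟧} (hf : f ∈ M (d * c)) : ∃ g ∈ M c, f = d * g := by
  unfold M at hf
  induction hf using Submodule.span_induction with
  | mem x hx =>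
    obtain ⟨n, rfl⟩ := hx
    exact ⟨c * th ^ n, pow_mem_M c n, by show d * c * th ^ n = _; ring⟩
  | zero => exact ⟨0, Submodule.zero_mem _, by simp⟩
  | add x z _ _ hx hz =>
    obtain ⟨a, ha, rfl⟩ := hx
    obtain ⟨b, hb, rfl⟩ := hz
    exact ⟨a + b, Submodule.add_mem _ ha hb, by ring⟩
  | smul k x _ hx =>
    obtain ⟨a, ha, rfl⟩ := hx
    exact ⟨k • a, Submodule.smul_mem _ _ ha, by rw [mul_smul_comm]⟩

theorem intCast_mul_mem {c f : ℤ⟦X⟧} (k : ℤ) (hf : f ∈ M c) : (k : ℤ⟦X⟧) * f ∈ M c := by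
  rw [← zsmul_eq_mul]
  exact Submodule.smul_mem _ _ hf

theorem int_mem_M (k : ℤ) : (k : ℤ⟦X⟧) ∈ M 1 := by
  have := intCast_mul_mem k (self_mem_M 1)
  rwa [mul_one] at this

theorem M_le_L : M 1 ≤ L 1 := by
  refine Submodule.span_le.mpr ?_
  rintro _ ⟨n, rfl⟩
  show 1 * th ^ n ∈ L 1
  rw [one_mul]
  induction n with
  | zero => rw [pow_zero]; exact self_mem_L 1
  | succ n ih =>
    rw [pow_succ', show th * th ^ n = u * th ^ n + u * th ^ n - (th ^ n + th ^ n) by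
      unfold th; ring]
    exact Submodule.sub_mem _ (Submodule.add_mem _ (u_mul_mem ih) (u_mul_mem ih))
      (Submodule.add_mem _ ih ih)

/-- decomposition of the elements of `ℤ[θ]` -/
theorem M_one_decomp {f : ℤ⟦X⟧} (hf : f ∈ M 1) : ∃ (a : ℤ) (g : ℤ⟦X⟧), g ∈ M 1 ∧ f = a + th * g := by
  unfold M at hf
  induction hf using Submodule.span_induction with
  | mem x hx =>
    obtain ⟨n, rfl⟩ := hx
    cases n with
    | zero => exact ⟨1, 0, Submodule.zero_mem _, by simp⟩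
    | succ n =>
      refine ⟨0, th ^ n, ?_, ?_⟩
      · have := pow_mem_M 1 n
        rwa [one_mul] at this
      · show 1 * th ^ (n + 1) = _
        rw [pow_succ']; push_cast; ring
  | zero => exact ⟨0, 0, Submodule.zero_mem _, by simp⟩
  | add x z _ _ hx hz =>
    obtain ⟨a, g, hg, rfl⟩ := hx
    obtain ⟨b, k, hk, rfl⟩ := hz
    exact ⟨a + b, g + k, Submodule.add_mem _ hg hk, by push_cast; ring⟩
  | smul k x _ hx =>
    obtain ⟨a, g, hg, rfl⟩ := hx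
    exact ⟨k * a, k • g, Submodule.smul_mem _ _ hg, by
      rw [zsmul_eq_mul, zsmul_eq_mul]; push_cast; ring⟩

theorem Uo_rec (f : ℤ⟦X⟧) (n : ℕ) :
    Uo (f * u ^ (n + 2)) = 2 * u * Uo (f * u ^ (n + 1)) - Uo (f * u ^ n) := by
  have : f * u ^ (n + 2) = V (2 * u) * (f * u ^ (n + 1)) - f * u ^ n := by
    linear_combination f * u ^ n * u_rel
  rw [this, map_sub, Uo_V_mul]

theorem one_add_u : 1 + u = 2 * y := by
  unfold u
  linear_combination (-1) * one_sub_mul_y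

theorem Uo_one : Uo 1 = 0 := by
  have := Uo_C 1
  rwa [map_one] at this

theorem Uo_u : Uo u = 1 + u := by
  rw [one_add_u]
  ext n
  have h2 : (2 : ℤ⟦X⟧) = C (2 : ℤ) := (map_ofNat C 2).symm
  rw [coeff_Uo, coeff_u, if_neg (by omega), h2, coeff_C_mul]
  unfold y
  rw [coeff_mk]; norm_num

/-- `V_l` -/
def Vs : ℕ → ℤ⟦X⟧
  | 0 => 1
  | 1 => 1 + th
  | l + 2 => (th + 2) * Vs (l + 1) - Vs l

/-- `W_l` -/
def Ws : ℕ → ℤ⟦X⟧
  | 0 => 1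
  | 1 => 3 + th
  | l + 2 => (th + 2) * Ws (l + 1) - Ws l

theorem Up_Vs (l : ℕ) : Up ((1 + u) * u ^ l) = (1 + u) * Vs l := by
  have h : Up ((1 + u) * u ^ l) = (1 + u) * Vs l ∧
      Up ((1 + u) * u ^ (l + 1)) = (1 + u) * Vs (l + 1) := by
    induction l with
    | zero =>
      constructor
      · rw [pow_zero, mul_one, map_add, Up_one, Up_u, Vs, mul_one]
      · rw [zero_add, pow_one, show (1 + u) * u = u + u ^ 2 by ring, map_add, Up_u, Up_usq, Vs, th]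
        ring
    | succ l ih =>
      refine ⟨ih.2, ?_⟩
      rw [show l + 1 + 1 = l + 2 by ring, Up_rec, ih.1, ih.2, Vs, th]
      ring
  exact h.1

theorem Uo_Ws (l : ℕ) : Uo ((1 + u) * u ^ l) = (1 + u) * Ws l := by
  have h0 : Uo (u ^ 2) = 2 * u * (1 + u) := by
    have := Uo_rec 1 0
    simp only [one_mul, zero_add, pow_one, pow_zero, Uo_u, Uo_one, sub_zero] at this
    exact this
  have h : Uo ((1 + u) * u ^ l) = (1 + u) * Ws l ∧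
      Uo ((1 + u) * u ^ (l + 1)) = (1 + u) * Ws (l + 1) := by
    induction l with
    | zero =>
      constructor
      · rw [pow_zero, mul_one, map_add, Uo_one, Uo_u, Ws]; ring
      · rw [zero_add, pow_one, show (1 + u) * u = u + u ^ 2 by ring, map_add, Uo_u, h0, Ws, th]
        ring
    | succ l ih =>
      refine ⟨ih.2, ?_⟩
      rw [show l + 1 + 1 = l + 2 by ring, Uo_rec, ih.1, ih.2, Ws, th]
      ring
  exact h.1

theorem Vs_spec (l : ℕ) : ∃ κ ∈ M 1, ∃ κ' ∈ M 1, Vs l = 1 + th * κ ∧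
    Vs (l + 1) - Vs l = ((l + 1 : ℕ) : ℤ⟦X⟧) * th + th ^ 2 * κ' := by
  induction l with
  | zero =>
    exact ⟨0, Submodule.zero_mem _, 0, Submodule.zero_mem _, by simp [Vs], by simp [Vs]⟩
  | succ l ih =>
    obtain ⟨κ, hκ, κ', hκ', h1, h2⟩ := ih
    have h3 : Vs (l + 1) = 1 + th * (κ + (((l + 1 : ℕ) : ℤ⟦X⟧) + th * κ')) := by
      have : Vs (l + 1) = Vs l + (Vs (l + 1) - Vs l) := by ring
      rw [this, h2, h1]; ring
    have hk2 : κ + (((l + 1 : ℕ) : ℤ⟦X⟧) + th * κ') ∈ M 1 := by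
      refine Submodule.add_mem _ hκ (Submodule.add_mem _ ?_ (th_mul_mem hκ'))
      have := int_mem_M ((l + 1 : ℕ) : ℤ)
      push_cast at this ⊢
      exact this
    refine ⟨_, hk2, κ' + (κ + (((l + 1 : ℕ) : ℤ⟦X⟧) + th * κ')),
      Submodule.add_mem _ hκ' hk2, h3, ?_⟩
    have h4 : Vs (l + 1 + 1) - Vs (l + 1) = (Vs (l + 1) - Vs l) + th * Vs (l + 1) := by
      rw [show l + 1 + 1 = l + 2 by ring, Vs]; ring
    rw [h4, h2, h3]
    push_cast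
    ring

theorem Ws_spec (l : ℕ) : ∃ κ ∈ M 1, ∃ κ' ∈ M 1, Ws l = ((2 * l + 1 : ℕ) : ℤ⟦X⟧) + th * κ ∧
    Ws (l + 1) - Ws l = 2 + (((l + 1) ^ 2 : ℕ) : ℤ⟦X⟧) * th + th ^ 2 * κ' := by
  induction l with
  | zero =>
    refine ⟨0, Submodule.zero_mem _, 0, Submodule.zero_mem _, by simp [Ws], ?_⟩
    simp only [Ws]; push_cast; ring
  | succ l ih =>
    obtain ⟨κ, hκ, κ', hκ', h1, h2⟩ := ih
    have h3 : Ws (l + 1) = ((2 * (l + 1) + 1 : ℕ) : ℤ⟦X⟧)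
        + th * (κ + ((((l + 1) ^ 2 : ℕ) : ℤ⟦X⟧) + th * κ')) := by
      have : Ws (l + 1) = Ws l + (Ws (l + 1) - Ws l) := by ring
      rw [this, h2, h1]; push_cast; ring
    have hk2 : κ + ((((l + 1) ^ 2 : ℕ) : ℤ⟦X⟧) + th * κ') ∈ M 1 := by
      refine Submodule.add_mem _ hκ (Submodule.add_mem _ ?_ (th_mul_mem hκ'))
      have := int_mem_M (((l + 1) ^ 2 : ℕ) : ℤ)
      push_cast at this ⊢
      exact this
    refine ⟨_, hk2, κ' + (κ + ((((l + 1) ^ 2 : ℕ) : ℤ⟦X⟧) + th * κ')),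
      Submodule.add_mem _ hκ' hk2, h3, ?_⟩
    have h4 : Ws (l + 1 + 1) - Ws (l + 1) = (Ws (l + 1) - Ws l) + th * Ws (l + 1) := by
      rw [show l + 1 + 1 = l + 2 by ring, Ws]; ring
    rw [h4, h2, h3]
    push_cast
    ring

theorem Up_th_sq (f : ℤ⟦X⟧) : Up (f * th ^ 2) = 4 * th * Up (f * u) := by
  have e : f * th ^ 2 = V (4 * (2 * u)) * (f * u) - V 8 * (f * u) := by
    rw [map_mul, map_ofNat, map_ofNat]
    unfold th
    linear_combination 4 * f * u_rel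
  rw [e, map_sub, Up_V_mul, Up_V_mul]
  unfold th; ring

theorem Uo_th_sq (f : ℤ⟦X⟧) : Uo (f * th ^ 2) = 4 * th * Uo (f * u) := by
  have e : f * th ^ 2 = V (4 * (2 * u)) * (f * u) - V 8 * (f * u) := by
    rw [map_mul, map_ofNat, map_ofNat]
    unfold th
    linear_combination 4 * f * u_rel
  rw [e, map_sub, Uo_V_mul, Uo_V_mul]
  unfold th; ring

theorem Vs_mem (l : ℕ) : Vs l ∈ M 1 := by
  obtain ⟨κ, hκ, -, -, h, -⟩ := Vs_spec l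
  rw [h]
  exact Submodule.add_mem _ (self_mem_M 1) (th_mul_mem hκ)

theorem Ws_mem (l : ℕ) : Ws l ∈ M 1 := by
  obtain ⟨κ, hκ, -, -, h, -⟩ := Ws_spec l
  rw [h]
  refine Submodule.add_mem _ ?_ (th_mul_mem hκ)
  have := int_mem_M ((2 * l + 1 : ℕ) : ℤ)
  push_cast at this ⊢
  exact this

/-- `U((1+u) u^n κ) ∈ (1+u) ℤ[θ]` for `κ ∈ ℤ[u]` -/
theorem Up_mem_M (n : ℕ) {κ : ℤ⟦X⟧} (hκ : κ ∈ L 1) :
    ∃ κ' ∈ M 1, Up ((1 + u) * u ^ n * κ) = (1 + u) * κ' := by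
  have h : Up ((1 + u) * u ^ n * κ) ∈ M ((1 + u) * 1) := by
    refine L_induction (Up ∘ₗ LinearMap.mulLeft ℤ ((1 + u) * u ^ n)) (fun l => ?_) hκ
    show Up ((1 + u) * u ^ n * (1 * u ^ l)) ∈ _
    rw [one_mul, mul_assoc, ← pow_add, Up_Vs]
    exact mul_left_mem_M _ (Vs_mem _)
  exact M_mul_iff h

theorem Uo_mem_M (n : ℕ) {κ : ℤ⟦X⟧} (hκ : κ ∈ L 1) :
    ∃ κ' ∈ M 1, Uo ((1 + u) * u ^ n * κ) = (1 + u) * κ' := by
  have h : Uo ((1 + u) * u ^ n * κ) ∈ M ((1 + u) * 1) := by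
    refine L_induction (Uo ∘ₗ LinearMap.mulLeft ℤ ((1 + u) * u ^ n)) (fun l => ?_) hκ
    show Uo ((1 + u) * u ^ n * (1 * u ^ l)) ∈ _
    rw [one_mul, mul_assoc, ← pow_add, Uo_Ws]
    exact mul_left_mem_M _ (Ws_mem _)
  exact M_mul_iff h

/-- the invariant -/
def Inv (e : ℕ) (h : ℤ⟦X⟧) : Prop :=
  ∃ (ρ ω : ℤ) (κ : ℤ⟦X⟧), κ ∈ M 1 ∧ Odd ω ∧ h = 2 ^ e * (4 * (ρ : ℤ⟦X⟧) + ω * th + th ^ 2 * κ)

theorem Inv_even (n : ℕ) (hn : Even n) (e : ℕ) (ρ ω : ℤ) (κ : ℤ⟦X⟧) (hκ : κ ∈ M 1) (hω : Odd ω)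
    (hρ : Even ρ) : ∃ h', Inv (e + 1) h' ∧
      Up (u ^ n * ((1 + u) * (2 ^ e * (4 * (ρ : ℤ⟦X⟧) + ω * th + th ^ 2 * κ)))) = (1 + u) * h' := by
  obtain ⟨κ1, hκ1, h1⟩ := Up_mem_M (n + 1) (M_le_L hκ)
  obtain ⟨a, ha, b, hb, hV, hdV⟩ := Vs_spec n
  obtain ⟨r, hr⟩ := hρ
  obtain ⟨w, hw⟩ := hω
  obtain ⟨k, hk⟩ := hn
  obtain ⟨a0, a1, ha1, haa⟩ := M_one_decomp ha
  obtain ⟨c0, c1, hc1, hcc⟩ := M_one_decomp hκ1
  -- the four contributions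
  have e1 : Up ((1 + u) * u ^ n) = (1 + u) * Vs n := Up_Vs n
  have e2 : Up ((1 + u) * u ^ n * th) = (1 + u) * (2 * (Vs (n + 1) - Vs n)) := by
    have : (1 + u) * u ^ n * th = V 2 * ((1 + u) * u ^ (n + 1)) - V 2 * ((1 + u) * u ^ n) := by
      rw [map_ofNat]; unfold th; ring
    rw [this, map_sub, Up_V_mul, Up_V_mul, Up_Vs, Up_Vs]; ring
  have e3 : Up ((1 + u) * u ^ n * κ * th ^ 2) = 4 * th * ((1 + u) * κ1) := by
    rw [Up_th_sq, ← h1]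
    congr 2; ring
  have split : u ^ n * ((1 + u) * (2 ^ e * (4 * (ρ : ℤ⟦X⟧) + ω * th + th ^ 2 * κ)))
      = V (2 ^ e * 4 * (ρ : ℤ⟦X⟧)) * ((1 + u) * u ^ n)
        + V (2 ^ e * (ω : ℤ⟦X⟧)) * ((1 + u) * u ^ n * th)
        + V (2 ^ e) * ((1 + u) * u ^ n * κ * th ^ 2) := by
    simp only [map_mul, map_pow, map_ofNat, map_intCast]
    ring
  rw [split, map_add, map_add, Up_V_mul, Up_V_mul, Up_V_mul, e1, e2, e3, hdV, hV]
  refine ⟨2 ^ (e + 1) * (4 * ((r : ℤ) : ℤ⟦X⟧)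
    + ((4 * r * a0 + ω * (n + 1) + 2 * c0 : ℤ) : ℤ⟦X⟧) * th
    + th ^ 2 * (4 * (r : ℤ⟦X⟧) * a1 + ω * b + 2 * c1)), ⟨r, _, _, ?_, ?_, rfl⟩, ?_⟩
  · refine Submodule.add_mem _ (Submodule.add_mem _ ?_ (intCast_mul_mem _ hb)) ?_
    · have := intCast_mul_mem (4 * r) ha1
      push_cast at this; exact this
    · have := intCast_mul_mem 2 hc1
      push_cast at this; exact this
  · rw [hw, hk]
    refine ⟨2 * r * a0 + w * (2 * k + 1) + k + c0, ?_⟩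
    push_cast; ring
  · rw [haa, hcc, hr, pow_succ]
    push_cast
    ring

theorem Inv_odd (n : ℕ) (hn : Even n) (e : ℕ) (ρ ω : ℤ) (κ : ℤ⟦X⟧) (hκ : κ ∈ M 1) (hω : Odd ω)
    (hρ : Odd ρ) : ∃ h', Inv (e + 1) h' ∧
      Uo (u ^ n * ((1 + u) * (2 ^ e * (4 * (ρ : ℤ⟦X⟧) + ω * th + th ^ 2 * κ)))) = (1 + u) * h' := by
  obtain ⟨κ1, hκ1, h1⟩ := Uo_mem_M (n + 1) (M_le_L hκ)
  obtain ⟨a, ha, b, hb, hV, hdV⟩ := Ws_spec n
  obtain ⟨r, hr⟩ := hρ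
  obtain ⟨w, hw⟩ := hω
  obtain ⟨k, hk⟩ := hn
  obtain ⟨a0, a1, ha1, haa⟩ := M_one_decomp ha
  obtain ⟨c0, c1, hc1, hcc⟩ := M_one_decomp hκ1
  have e1 : Uo ((1 + u) * u ^ n) = (1 + u) * Ws n := Uo_Ws n
  have e2 : Uo ((1 + u) * u ^ n * th) = (1 + u) * (2 * (Ws (n + 1) - Ws n)) := by
    have : (1 + u) * u ^ n * th = V 2 * ((1 + u) * u ^ (n + 1)) - V 2 * ((1 + u) * u ^ n) := by
      rw [map_ofNat]; unfold th; ring
    rw [this, map_sub, Uo_V_mul, Uo_V_mul, Uo_Ws, Uo_Ws]; ring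
  have e3 : Uo ((1 + u) * u ^ n * κ * th ^ 2) = 4 * th * ((1 + u) * κ1) := by
    rw [Uo_th_sq, ← h1]
    congr 2; ring
  have split : u ^ n * ((1 + u) * (2 ^ e * (4 * (ρ : ℤ⟦X⟧) + ω * th + th ^ 2 * κ)))
      = V (2 ^ e * 4 * (ρ : ℤ⟦X⟧)) * ((1 + u) * u ^ n)
        + V (2 ^ e * (ω : ℤ⟦X⟧)) * ((1 + u) * u ^ n * th)
        + V (2 ^ e) * ((1 + u) * u ^ n * κ * th ^ 2) := by
    simp only [map_mul, map_pow, map_ofNat, map_intCast]
    ring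
  rw [split, map_add, map_add, Uo_V_mul, Uo_V_mul, Uo_V_mul, e1, e2, e3, hdV, hV]
  refine ⟨2 ^ (e + 1) * (4 * ((r * (2 * n + 1) + n + w + 1 : ℤ) : ℤ⟦X⟧)
    + ((2 * ρ * a0 + ω * (n + 1) ^ 2 + 2 * c0 : ℤ) : ℤ⟦X⟧) * th
    + th ^ 2 * (2 * (ρ : ℤ⟦X⟧) * a1 + ω * b + 2 * c1)), ⟨_, _, _, ?_, ?_, rfl⟩, ?_⟩
  · refine Submodule.add_mem _ (Submodule.add_mem _ ?_ (intCast_mul_mem _ hb)) ?_
    · have := intCast_mul_mem (2 * ρ) ha1
      push_cast at this; exact this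
    · have := intCast_mul_mem 2 hc1
      push_cast at this; exact this
  · rw [hw, hk]
    refine ⟨ρ * a0 + w * (2 * k + 1) ^ 2 + 2 * k ^ 2 + 2 * k + c0, ?_⟩
    push_cast; ring
  · rw [haa, hcc, hr, hw, pow_succ]
    push_cast
    ring

theorem constantCoeff_u : constantCoeff u = 1 := by
  rw [← coeff_zero_eq_constantCoeff_apply, coeff_u, if_pos rfl]

theorem constantCoeff_th : constantCoeff th = 0 := by
  unfold th
  rw [map_sub, map_mul, constantCoeff_u, map_ofNat]; norm_num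

/-- unboundedness from the invariant -/
theorem unbounded (d : ℕ) : ∀ (e : ℕ) (h Ha Hb : ℤ⟦X⟧) (na nb : ℕ), Even na → Even nb →
    Ha = u ^ na * V Hb → Hb = u ^ nb * V Ha → constantCoeff Ha = 1 → constantCoeff Hb = 1 →
    Inv e h → ∃ k, (2 : ℤ) ^ (e + 3 + d) ∣ coeff k (Ha * ((1 + u) * h)) := by
  induction d with
  | zero =>
    intro e h Ha Hb na nb _ _ _ _ hca _ hI
    obtain ⟨ρ, ω, κ, hκ, hω, rfl⟩ := hI
    refine ⟨0, ?_⟩
    rw [coeff_zero_eq_constantCoeff_apply]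
    simp only [map_mul, map_add, map_pow, map_one, constantCoeff_u, constantCoeff_th, hca,
      map_ofNat, map_intCast, mul_zero, zero_mul, add_zero, one_mul]
    norm_num
    exact ⟨ρ, by ring⟩
  | succ d ih =>
    intro e h Ha Hb na nb hna hnb hA hB hca hcb hI
    obtain ⟨ρ, ω, κ, hκ, hω, rfl⟩ := hI
    rcases Int.even_or_odd ρ with hρ | hρ
    · obtain ⟨h', hI', hU⟩ := Inv_even na hna e ρ ω κ hκ hω hρ
      obtain ⟨k, hk⟩ := ih (e + 1) h' Hb Ha nb na hnb hna hB hA hcb hca hI'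
      refine ⟨2 * k, ?_⟩
      rw [← coeff_Up, hA, show ∀ f : ℤ⟦X⟧, u ^ na * V Hb * f = V Hb * (u ^ na * f) from
        fun f => by ring, Up_V_mul, hU]
      have e1 : e + 1 + 3 + d = e + 3 + (d + 1) := by ring
      rwa [e1] at hk
    · obtain ⟨h', hI', hU⟩ := Inv_odd na hna e ρ ω κ hκ hω hρ
      obtain ⟨k, hk⟩ := ih (e + 1) h' Hb Ha nb na hnb hna hB hA hcb hca hI'
      refine ⟨2 * k + 1, ?_⟩
      rw [← coeff_Uo, hA, show ∀ f : ℤ⟦X⟧, u ^ na * V Hb * f = V Hb * (u ^ na * f) from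
        fun f => by ring, Uo_V_mul, hU]
      have e1 : e + 1 + 3 + d = e + 3 + (d + 1) := by ring
      rwa [e1] at hk

end

end Pool.Agent.X13.CB
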